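import Pool.Agent.Q240.CG.JB
import Pool.Agent.Q280.CE.SumG
import Pool.Agent.Q280.CE.NB
import Pool.Agent.Q285.CE.Rat
import Pool.Agent.Q285.CE.Test
import Pool.Agent.Q285.CE.ZC
import Pool.Agent.Q175.CE.Loc
import Pool.Agent.Q175.CE.GapC
import Pool.Agent.Q175.CE.Rate0
import Pool.Agent.Q150.CE.UpQ
import Pool.Agent.Q150.CG.EnumG
import Pool.Agent.Q247.CG.Sum
import Pool.Agent.Q247.CG.Lin
import Pool.Agent.Q247.CG.Pos
import Pool.Agent.Q285.CG.Fam0Z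
import Pool.Agent.Q285.CG.Wt4Z
import Pool.Agent.Q285.CG.Rate1
import Pool.Agent.Q151.CG.Lim1
import Pool.Agent.Q151.CG.Inty1
import Pool.Agent.Q61.CG.GapE
import Pool.Agent.Q61.CG.Oeb0
import Pool.Agent.Q224.CG.GapC0
import Pool.Agent.Q224.CG.Cl0
import Pool.Agent.Q224.CG.Uni0
import Pool.Agent.Q261.CE.T1

set_option autoImplicit false

/-! # Project CG: all the jobs together -/

namespace Pool.Agent.Q240.CG

open Pool.Agent.Q240.CD

theorem a_inty1 : S_Inty1 := Pool.Agent.Q151.CG.inty1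
theorem a_limSum1 : S_LimSum1 := Pool.Agent.Q151.CG.limSum1
theorem a_sumGG : S_SumGG := Pool.Agent.Q247.CG.sumGG a_inty1
theorem a_linG : S_LinG := Pool.Agent.Q247.CG.linG a_sumGG a_inty
theorem a_formG : S_FormG := Pool.Agent.Q247.CG.formG a_spB a_sumGG a_inty
theorem a_limLG : S_LimLG := Pool.Agent.Q247.CG.limLG a_limSum1 a_sumGG
theorem a_posG : S_PosG := Pool.Agent.Q247.CG.posG
theorem a_enumG : S_EnumG := Pool.Agent.Q150.CG.enumG a_posG a_repInv a_sumGG a_spB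
theorem a_gapC : CE.S_GapC := Pool.Agent.Q175.CE.gapC
theorem a_nB : CE.S_NB := Pool.Agent.Q280.CE.nB a_gapC
theorem a_gapE : S_GapE := Pool.Agent.Q61.CG.gapE
theorem a_oeb0 : S_Oeb0 := Pool.Agent.Q61.CG.oeb0
theorem a_gapC0 : S_GapC0 := Pool.Agent.Q224.CG.gapC0 a_gapE
theorem a_cl0 : S_Cl0 := Pool.Agent.Q224.CG.cl0 a_gapC0 a_oeb0
theorem a_upQ : CE.S_UpQ := Pool.Agent.Q150.CE.upQ (Pool.Agent.Q175.CE.loc Pool.Agent.Q280.CE.sumG)

theorem jb_of (hT1 : CE.S_T1) : JB where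
  sum := a_sumGG
  pos := a_posG
  form := a_formG
  lin := a_linG
  limLG := a_limLG
  enum := a_enumG
  gapC := a_gapC
  nb := a_nB
  rate0 := Pool.Agent.Q175.CE.rate0
  cnt := Pool.Agent.Q280.CE.cntG
  zc := Pool.Agent.Q285.CE.zc
  gapC0 := a_gapC0
  cl0 := a_cl0
  oeb0 := a_oeb0
  uni0 := Pool.Agent.Q224.CG.uni0
  fam0 := Pool.Agent.Q285.CG.fam0Z
  wt4 := Pool.Agent.Q285.CG.wt4Z
  rate1 := Pool.Agent.Q285.CG.rate1
  test := Pool.Agent.Q285.CE.test hT1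
  upq := a_upQ

theorem jb : JB := jb_of (Pool.Agent.Q261.CE.t1 Pool.Agent.Q285.CE.rat Pool.Agent.Q280.CE.sumG)

end Pool.Agent.Q240.CG
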