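import Pool.Agent.Q240.CD.All
import Pool.Agent.Q240.CD.RepInv
import Pool.Agent.Y23.F.Al

set_option autoImplicit false

/-!
# Project CG: the dichotomy for general L-functions, definitions

`Y23.G.ZD` is the class of zero data of an L-function: the set `Zs` of the zeros, `mul` the multiplicity, strip `|Re s - 1/2| ≤ 1`,
symmetry `s ↦ 1 - conj s`, counting bound.  `Y23.G.ZC` is coercivity (it holds for completed L-functions: `Y23.G.zc`).
Everything about zeta in project CD (`zp`, `mz`, `LZ`, `LI`) has its analogue here.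
-/

open Polynomial Filter Topology Finset MeasureTheory

namespace Pool.Agent.Q240.CG

open Pool.Agent.Q240.CD

/-- self-dual data: the zeros are symmetric with respect to the real line -/
class SD [D : Y23.G.ZD] : Prop where
  cj : ∀ s ∈ D.Zs, (starRingEnd ℂ) s ∈ D.Zs
  mcj : ∀ s ∈ D.Zs, D.mul ((starRingEnd ℂ) s) = D.mul s

/-- the zero in the plane of `z = -i (s - 1/2)` -/
noncomputable def zg [D : Y23.G.ZD] (ρ : Y23.G.Zt) : ℂ := -Complex.I * ((ρ : ℂ) - 1 / 2)

/-- the multiplicity in the plane of `z` -/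
noncomputable def mg [D : Y23.G.ZD] (z : ℂ) : ℕ := D.mul (1 / 2 + Complex.I * z)

open Classical in
/-- the multiplicity of the central zero -/
noncomputable def m0 [D : Y23.G.ZD] : ℕ := if (1 / 2 : ℂ) ∈ D.Zs then D.mul (1 / 2) else 0

/-- the form as a functional of the product polynomial -/
noncomputable def LG [D : Y23.G.ZD] (a : ℝ) (n : ℕ) (p : ℝ[X]) : ℝ :=
  ∑' ρ : Y23.G.Zt, (Y23.G.mu (ρ : ℂ) : ℝ) * (aeval (zg ρ) p * Sp a n (zg ρ) ^ 2).re

/-- the limit of the form -/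
noncomputable def LJ [D : Y23.G.ZD] (κ : ℝ) (p : ℝ[X]) : ℝ :=
  ∑' ρ : Y23.G.Zt, (Y23.G.mu (ρ : ℂ) : ℝ) * (aeval (zg ρ) p * Complex.exp (-(2 * ck κ * zg ρ ^ 2))).re

/-- the form of a polynomial with an additional mass `c` at `0` -/
noncomputable def Lp0 (c : ℝ) (g M : ℕ → ℝ) (P : ℝ[X]) : ℝ := c * P.eval 0 ^ 2 + Lp g M P

/-- `P` minimises the quotient of the form with a mass at `0` and the norm in degree at most `2 n` -/
def Gr0 (c : ℝ) (g M : ℕ → ℝ) (u : ℝ → ℝ) (n : ℕ) (P : ℝ[X]) : Prop :=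
  P.natDegree ≤ 2 * n ∧ ∀ R : ℝ[X], R.natDegree ≤ 2 * n → Lp0 c g M P * Op u R ≤ Lp0 c g M R * Op u P

/-- the majorant for the even part in the presence of a central zero -/
noncomputable def MJ4 (g : ℕ → ℝ) (n : ℕ) (x : ℝ) : ℝ := (1 + x ^ 2) ^ 4 * mj g (n - 2) (x ^ 2) ^ 2

/-- additional properties of the weights -/
structure Wt4 {ι : Type} (l : Filter ι) (g : ℕ → ℝ) (N : ι → ℕ) (u : ι → ℝ → ℝ) : Prop where
  intM : ∀ᶠ i in l, Integrable (fun x => MJ4 g (N i) x * u i x)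
  tail : ∀ ε : ℝ, 0 < ε → ∃ X : ℝ, ∀ᶠ i in l, ∫ x in {x : ℝ | X < |x|}, MJ4 g (N i) x * u i x ≤ ε

/-- the data of a central zero: the masses `M` and the masses `g j * M j` (for the odd polynomials `x r(x²)`) -/
structure Fam0 {ι : Type} (l : Filter ι) (g μ : ℕ → ℝ) (N : ι → ℕ) (M : ι → ℕ → ℝ) : Prop where
  fam : Fam l g μ N M
  fam' : Fam l g (fun j => g j * μ j) (fun i => N i - 1) (fun i j => g j * M i j)

end Pool.Agent.Q240.CG
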