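import Pool.Agent.Q240.CG.ThA
import Pool.Agent.Q240.CE.Lyap

set_option autoImplicit false

/-! # Project CG: ground states of general self-dual zero data -/

open Polynomial Filter Topology Finset MeasureTheory

namespace Pool.Agent.Q240.CG

open Pool.Agent.Q240.CD

lemma exp_absorb {c c' : ℝ} (h : c < c') (K : ℝ) : ∀ᶠ a : ℝ in atTop,
    K * Real.exp (-(c' * a ^ 2 * Real.log a)) ≤ Real.exp (-(c * a ^ 2 * Real.log a)) := by
  have h1 : Tendsto (fun a : ℝ => (c' - c) * (a ^ 2 * Real.log a)) atTop atTop := by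
    refine Tendsto.const_mul_atTop (by linarith) ?_
    exact (tendsto_pow_atTop two_ne_zero).atTop_mul_atTop₀ Real.tendsto_log_atTop
  have h2 := (Real.tendsto_exp_atTop.comp h1).eventually_ge_atTop K
  filter_upwards [h2] with a ha
  have e : Real.exp (-(c * a ^ 2 * Real.log a)) =
      Real.exp ((c' - c) * (a ^ 2 * Real.log a)) * Real.exp (-(c' * a ^ 2 * Real.log a)) := by
    rw [← Real.exp_add]
    congr 1
    ring
  rw [e]
  exact mul_le_mul_of_nonneg_right ha (Real.exp_pos _).le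

lemma par_le [D : Y23.G.ZD] : (par : ℕ) = 0 ∨ (par : ℕ) = 1 := by
  unfold par
  by_cases h : (m0 : ℕ) = 0
  · left; rw [if_pos h]
  · right; rw [if_neg h]

lemma I_back (w : ℂ) : Complex.I * (-Complex.I * w) = w := by
  rw [← mul_assoc]
  simp

lemma deriv_Sp (a : ℝ) (n : ℕ) : deriv (Sp a n) 0 = 0 := by
  have h1 : (fun z => Sp a n (-z)) = Sp a n := funext (a_spB a n).2.2.2.2.1
  have h2 : deriv (fun z => Sp a n (-z)) 0 = -deriv (Sp a n) (-0) := deriv_comp_neg (Sp a n) 0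
  rw [h1, neg_zero] at h2
  have h3 : (2 : ℂ) * deriv (Sp a n) 0 = 0 := by linear_combination h2
  exact (mul_eq_zero.1 h3).resolve_left two_ne_zero

/-- the leading coefficient of a transform -/
lemma lead_gen {a : ℝ} {n e : ℕ} (he : e = 0 ∨ e = 1) {f : ℝ → ℂ} {P : ℂ[X]}
    (h : ∀ z : ℂ, Y23.TT f (Complex.I * z) = P.eval z * Sp a n z) :
    iteratedDeriv e (Y23.TT f) 0 = P.coeff e * (-Complex.I) ^ e := by
  have h1 : ∀ w : ℂ, Y23.TT f w = P.eval (-Complex.I * w) * Sp a n (-Complex.I * w) := by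
    intro w
    rw [← h, I_back]
  rcases he with rfl | rfl
  · rw [iteratedDeriv_zero, h1, mul_zero, (a_spB a n).2.2.1, pow_zero, mul_one, mul_one, coeff_zero_eq_eval_zero]
  · rw [iteratedDeriv_one]
    have h2 : Y23.TT f = fun w => P.eval (-Complex.I * w) * Sp a n (-Complex.I * w) := funext h1
    have h4 : HasDerivAt (fun w : ℂ => -Complex.I * w) (-Complex.I) 0 := by
      simpa using (hasDerivAt_id (0 : ℂ)).const_mul (-Complex.I)
    have hA : HasDerivAt (fun w : ℂ => P.eval (-Complex.I * w)) ((derivative P).eval (-Complex.I * (0 : ℂ)) * (-Complex.I)) 0 :=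
      (Polynomial.hasDerivAt P (-Complex.I * (0 : ℂ))).comp (0 : ℂ) h4
    have hS : HasDerivAt (fun w : ℂ => Sp a n (-Complex.I * w)) (deriv (Sp a n) (-Complex.I * (0 : ℂ)) * (-Complex.I)) 0 :=
      (((a_spB a n).1 (-Complex.I * (0 : ℂ))).hasDerivAt).comp (0 : ℂ) h4
    have h5 : deriv (fun w => P.eval (-Complex.I * w) * Sp a n (-Complex.I * w)) 0 =
        (derivative P).eval (-Complex.I * (0 : ℂ)) * (-Complex.I) * Sp a n (-Complex.I * 0) +
          P.eval (-Complex.I * 0) * (deriv (Sp a n) (-Complex.I * (0 : ℂ)) * (-Complex.I)) := (hA.mul hS).deriv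
    have e3 : (derivative P).eval 0 = P.coeff 1 := by
      rw [← coeff_zero_eq_eval_zero, coeff_derivative]
      norm_num
    rw [h2, h5, mul_zero, (a_spB a n).2.2.1, deriv_Sp, e3]
    ring

lemma lead_coeff {a : ℝ} {n e : ℕ} (he : e = 0 ∨ e = 1) {f : ℝ → ℂ} {P : ℝ[X]} {c : ℂ}
    (h : ∀ z : ℂ, Y23.TT f (Complex.I * z) = c * aeval z P * Sp a n z) :
    iteratedDeriv e (Y23.TT f) 0 = c * P.coeff e * (-Complex.I) ^ e := by
  have h1 := lead_gen he (P := C c * P.map (algebraMap ℝ ℂ)) (fun z => by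
    rw [h, eval_mul, eval_C, eval_map_algebraMap])
  rw [h1, coeff_C_mul, coeff_map]
  rfl

lemma parts_coeff {P : ℂ[X]} {A B : ℝ[X]} (h : ∀ z : ℂ, P.eval z = aeval z A + Complex.I * aeval z B) {e : ℕ} (h0 : P.coeff e = 0) :
    A.coeff e = 0 ∧ B.coeff e = 0 := by
  have h1 : P = A.map (algebraMap ℝ ℂ) + C Complex.I * B.map (algebraMap ℝ ℂ) := by
    refine Polynomial.funext fun z => ?_
    rw [h, eval_add, eval_mul, eval_C, eval_map_algebraMap, eval_map_algebraMap]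
  have h2 := congrArg (fun Q : ℂ[X] => Q.coeff e) h1
  simp only [coeff_add, coeff_C_mul, coeff_map] at h2
  rw [h0] at h2
  have e1 : (algebraMap ℝ ℂ) (A.coeff e) = ((A.coeff e : ℝ) : ℂ) := rfl
  have e2 : (algebraMap ℝ ℂ) (B.coeff e) = ((B.coeff e : ℝ) : ℂ) := rfl
  rw [e1, e2] at h2
  have h3 := congrArg Complex.re h2
  have h4 := congrArg Complex.im h2
  simp at h3 h4
  exact ⟨h3.symm, h4.symm⟩

section

variable [D : Y23.G.ZD]

lemma QQG_congr {f g : ℝ → ℂ} (h : ∀ w, Y23.TT f w = Y23.TT g w) : Y23.G.QQ f = Y23.G.QQ g := by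
  unfold Y23.G.QQ Y23.G.GG
  simp only [h]

/-- ground states among the trigonometric polynomials -/
lemma GdG_iff (hRep : S_Rep) (hT : S_TrigInv) {a : ℝ} (ha : 0 < a) {n : ℕ} {f : ℝ → ℂ} (hf : Tg a n f) :
    GdG a n f ↔ ∀ g : ℝ → ℂ, Tg a n g → Y23.G.QQ f * Y23.N2 g ≤ Y23.G.QQ g * Y23.N2 f := by
  constructor
  · intro h g hg
    exact h.2 g (Tg_Hn ha hg)
  · intro h
    refine ⟨Tg_Hn ha hf, fun g hg => ?_⟩
    obtain ⟨g', hg', h1⟩ := Hn_Tg hRep hT ha hg
    have h2 := h g' hg'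
    rwa [QQG_congr h1, N2_congr (Tg_Hn ha hg').1 hg.1 h1] at h2

/-- the two real parts of a ground state -/
lemma gd_partsG (hRepInv : S_RepInv) (hRep : S_Rep) (hForm : S_FormG) {a : ℝ} {n : ℕ} (ha : 0 < a) {f : ℝ → ℂ} (hf : GdG a n f)
    (hN : Y23.N2 f ≠ 0) :
    ∃ A B : ℝ[X], Mn (fun P => LG a n (P * P)) (fun P => OZ a n (P * P)) n A ∧ Mn (fun P => LG a n (P * P)) (fun P => OZ a n (P * P)) n B ∧
      (A ≠ 0 ∨ B ≠ 0) ∧ ∀ z : ℂ, Y23.TT f (Complex.I * z) = (aeval z A + Complex.I * aeval z B) * Sp a n z := by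
  obtain ⟨P, hP, h1⟩ := hRep a n f ha hf.1
  obtain ⟨A, B, hA, hB, h2⟩ := split_re _ P hP
  have h3 : ∀ z : ℂ, Y23.TT f (Complex.I * z) = (aeval z A + Complex.I * aeval z B) * Sp a n z := fun z => by rw [h1, h2]
  obtain ⟨h4, h5⟩ := hForm a n f A B ha hf.1 hA hB h3
  set LA := LG a n (A * A) with hLA
  set LB := LG a n (B * B) with hLB
  set OA := OZ a n (A * A) with hOA
  set OB := OZ a n (B * B) with hOB
  have hO : ∀ R : ℝ[X], 0 ≤ OZ a n (R * R) := by
    intro R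
    unfold OZ
    refine mul_nonneg (by positivity) (integral_nonneg fun x => ?_)
    simp only [eval_mul]
    exact mul_nonneg (mul_self_nonneg _) (sq_nonneg _)
  have hR : ∀ R : ℝ[X], R.natDegree ≤ 2 * n → (LA + LB) * OZ a n (R * R) ≤ LG a n (R * R) * (OA + OB) := by
    intro R hR
    obtain ⟨h, hh, e1, e2, -⟩ := real_elemG hRepInv hForm ha R hR
    have h6 := hf.2 h hh
    rw [h4, h5, e1, e2] at h6
    exact h6
  have hNp : 0 < OA + OB := by
    rw [← h5]
    exact lt_of_le_of_ne (Y23.N2_nonneg f) (Ne.symm hN)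
  have h6 := hR A hA
  have h7 := hR B hB
  rw [← hLA, ← hOA] at h6
  rw [← hLB, ← hOB] at h7
  have h8 : LB * OA = LA * OB := by linarith
  have hOA0 := hO A
  have hOB0 := hO B
  rw [← hOA] at hOA0
  rw [← hOB] at hOB0
  refine ⟨A, B, ⟨hA, fun R hR' => ?_⟩, ⟨hB, fun R hR' => ?_⟩, ?_, h3⟩
  · have h9 := hR R hR'
    simp only
    rw [← hLA, ← hOA]
    have h10 := mul_le_mul_of_nonneg_left h9 hOA0
    have h11 : OA * ((LA + LB) * OZ a n (R * R)) = LA * OZ a n (R * R) * (OA + OB) := by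
      linear_combination OZ a n (R * R) * h8
    rw [h11] at h10
    have h12 : LA * OZ a n (R * R) * (OA + OB) ≤ LG a n (R * R) * OA * (OA + OB) := by linarith
    exact le_of_mul_le_mul_right h12 hNp
  · have h9 := hR R hR'
    simp only
    rw [← hLB, ← hOB]
    have h10 := mul_le_mul_of_nonneg_left h9 hOB0
    have h11 : OB * ((LA + LB) * OZ a n (R * R)) = LB * OZ a n (R * R) * (OA + OB) := by
      linear_combination -OZ a n (R * R) * h8
    rw [h11] at h10
    have h12 : LB * OZ a n (R * R) * (OA + OB) ≤ LG a n (R * R) * OB * (OA + OB) := by linarith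
    exact le_of_mul_le_mul_right h12 hNp
  · by_contra hcon
    push Not at hcon
    have e1 : OA = 0 := by rw [hOA, hcon.1, mul_zero, OZ_zero]
    have e2 : OB = 0 := by rw [hOB, hcon.2, mul_zero, OZ_zero]
    rw [e1, e2] at hNp
    simp at hNp

/-- the results of part A for ground states -/
theorem finA (hSum : S_SumGG) (hPos : S_PosG) (hForm : S_FormG) (hRepInv : S_RepInv) (hRep : S_Rep) (hZC : CE.S_ZC) [EC : Y23.G.ZC]
    (hRH : ∀ ρ : Y23.G.Zt, (ρ : ℂ).re = 1 / 2) {γ : ℕ → ℝ} (h : ENG γ) {n : ℝ → ℕ} {κ : ℝ} (hκ : 0 < κ)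
    (hn : Tendsto (fun a : ℝ => (n a : ℝ) / a ^ 2) atTop (𝓝 κ)) {δ : ℝ → ℝ}
    (hδ : ∀ c : ℝ, c < 4 * κ → ∀ᶠ a : ℝ in atTop, δ a ≤ Real.exp (-(c * a ^ 2 * Real.log a)))
    (hR : Res atTop n (fun a P => LG a (n a) (P * P)) (fun a P => OZ a (n a) (P * P)) par δ
      (fun z => z ^ (par : ℕ) * GC (fun j => γ j ^ 2) (z ^ 2))) :
    (∀ᶠ a in atTop, ∀ f : ℝ → ℂ, GdG a (n a) f → Y23.N2 f ≠ 0 → iteratedDeriv par (Y23.TT f) 0 ≠ 0 ∧
      (∀ w, Y23.TT f (-w) = (-1) ^ (par : ℕ) * Y23.TT f w) ∧ ∀ f' : ℝ → ℂ, GdG a (n a) f' → ∃ c : ℂ, ∀ w, Y23.TT f' w = c * Y23.TT f w) ∧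
    (∀ f : ℝ → ℝ → ℂ, (∀ᶠ a in atTop, GdG a (n a) (f a) ∧ Y23.N2 (f a) ≠ 0) →
      TendstoLocallyUniformly (fun a w => Y23.TT (f a) w / iteratedDeriv par (Y23.TT (f a)) 0)
        (fun w => w ^ (par : ℕ) * GC (fun j => γ j ^ 2) (-w ^ 2) * Complex.exp (ck κ * w ^ 2)) atTop) ∧
    (∀ c : ℝ, c < 4 * κ → ∀ᶠ a in atTop, ∀ f : ℝ → ℂ, GdG a (n a) f → Y23.N2 f ≠ 0 →
      0 < Y23.G.QQ f ∧ Y23.G.QQ f ≤ Real.exp (-(c * a ^ 2 * Real.log a)) * Y23.N2 f) ∧
    (∀ (j : ℕ) (c : ℝ), c < 2 * κ → ∀ᶠ a in atTop, ∀ f : ℝ → ℂ, GdG a (n a) f → Y23.N2 f ≠ 0 →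
      ∃ t : ℝ, Y23.TT f (Complex.I * t) = 0 ∧ |t - γ j| ≤ Real.exp (-(c * a ^ 2 * Real.log a))) ∧
    (∀ K : ℝ, ∀ᶠ a in atTop, ∀ f : ℝ → ℂ, GdG a (n a) f → Y23.N2 f ≠ 0 →
      ∀ x ∈ CE.evs Y23.G.QQ Y23.N2 (Tg a (n a)) 2, K * Y23.G.QQ f ≤ x * Y23.N2 f) := by
  classical
  -- the shape of ground states
  have hshape : ∀ᶠ a in atTop, ∀ f : ℝ → ℂ, GdG a (n a) f → Y23.N2 f ≠ 0 → ∃ (P : ℝ[X]) (c : ℂ), P ≠ 0 ∧
      Mn (fun P => LG a (n a) (P * P)) (fun P => OZ a (n a) (P * P)) (n a) P ∧ c ≠ 0 ∧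
      ∀ z : ℂ, Y23.TT f (Complex.I * z) = c * aeval z P * Sp a (n a) z := by
    filter_upwards [hR.gr, eventually_gt_atTop 0] with a h1 ha f hf hN
    obtain ⟨A, B, hA, hB, hne, h2⟩ := gd_partsG hRepInv hRep hForm ha hf hN
    by_cases hA0 : A = 0
    · have hB0 : B ≠ 0 := by
        rcases hne with h | h
        · exact absurd hA0 h
        · exact h
      refine ⟨B, Complex.I, hB0, hB, Complex.I_ne_zero, fun z => ?_⟩
      rw [h2, hA0]
      simp
    · obtain ⟨b, hb⟩ := (h1 A hA0 hA).2.2 B hB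
      refine ⟨A, 1 + Complex.I * b, hA0, hA, ?_, fun z => ?_⟩
      · intro h
        have := congrArg Complex.re h
        simp at this
      · rw [h2, hb, map_mul, aeval_C]
        have : (algebraMap ℝ ℂ) b = (b : ℂ) := rfl
        rw [this]
        ring
  -- choice of polynomials
  have hchoice : ∀ f : ℝ → ℝ → ℂ, (∀ᶠ a in atTop, GdG a (n a) (f a) ∧ Y23.N2 (f a) ≠ 0) → ∃ P : ℝ → ℝ[X], ∀ᶠ a in atTop,
      (P a ≠ 0 ∧ Mn (fun P => LG a (n a) (P * P)) (fun P => OZ a (n a) (P * P)) (n a) (P a)) ∧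
        ∃ c : ℂ, c ≠ 0 ∧ ∀ z : ℂ, Y23.TT (f a) (Complex.I * z) = c * aeval z (P a) * Sp a (n a) z := by
    intro f hf
    refine ⟨fun a => if h : ∃ (P : ℝ[X]) (c : ℂ), P ≠ 0 ∧
      Mn (fun P => LG a (n a) (P * P)) (fun P => OZ a (n a) (P * P)) (n a) P ∧ c ≠ 0 ∧
        ∀ z : ℂ, Y23.TT (f a) (Complex.I * z) = c * aeval z P * Sp a (n a) z then Classical.choose h else 0, ?_⟩
    filter_upwards [hshape, hf] with a h1 h2
    have h3 := h1 (f a) h2.1 h2.2
    rw [dif_pos h3]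
    obtain ⟨c, h4, h5, h6, h7⟩ := Classical.choose_spec h3
    exact ⟨⟨h4, h5⟩, c, h6, h7⟩
  have hlim := a_limS n κ hκ hn
  -- the normalised functions
  have htlu : ∀ P : ℝ → ℝ[X], (∀ᶠ a in atTop, P a ≠ 0 ∧ Mn (fun P => LG a (n a) (P * P)) (fun P => OZ a (n a) (P * P)) (n a) (P a)) →
      TendstoLocallyUniformly (fun a (z : ℂ) => aeval z (P a) / (((P a).coeff par : ℝ) : ℂ) * Sp a (n a) z)
        (fun z => z ^ (par : ℕ) * GC (fun j => γ j ^ 2) (z ^ 2) * Complex.exp (-(ck κ * z ^ 2))) atTop := by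
    intro P hP
    have h1 := hR.tlu P hP
    have hc2 : Continuous fun z : ℂ => Complex.exp (-(ck κ * z ^ 2)) := by fun_prop
    have hc1 : Continuous fun z : ℂ => z ^ (par : ℕ) * GC (fun j => γ j ^ 2) (z ^ 2) := by
      refine h1.continuous ?_
      refine Frequently.of_forall fun a => ?_
      exact (Polynomial.continuous_aeval (P a)).div_const _
    exact h1.mul₀ hlim hc1 hc2
  refine ⟨?_, ?_, ?_, ?_, ?_⟩
  · filter_upwards [hshape, hR.gr, eventually_gt_atTop 0] with a h1 h2 ha f hf hN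
    obtain ⟨P, c, hP, hPG, hc, h3⟩ := h1 f hf hN
    obtain ⟨h4, h5, h6⟩ := h2 P hP hPG
    refine ⟨?_, fun w => ?_, fun f' hf' => ?_⟩
    · rw [lead_coeff par_le h3]
      refine mul_ne_zero (mul_ne_zero hc (by exact_mod_cast h4)) (pow_ne_zero _ (neg_ne_zero.2 Complex.I_ne_zero))
    · have e1 := h3 (-Complex.I * w)
      have e2 := h3 (-(-Complex.I * w))
      rw [mul_neg, I_back] at e2
      rw [I_back] at e1
      rw [e1, e2, (a_spB a (n a)).2.2.2.2.1]
      have h8 := congrArg (fun Q : ℝ[X] => aeval (-Complex.I * w) Q) h5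
      simp only [aeval_comp, map_neg, aeval_X, map_mul, map_pow, map_one] at h8
      rw [h8]
      ring
    · by_cases hN' : Y23.N2 f' = 0
      · exact ⟨0, fun w => by rw [Y23.TT_zero_of_N2 ha hf'.1.1 hN' w, zero_mul]⟩
      · obtain ⟨P', c', hP', hPG', hc', h3'⟩ := h1 f' hf' hN'
        obtain ⟨r, hr⟩ := h6 P' hPG'
        refine ⟨c' * r / c, fun w => ?_⟩
        have e1 := h3 (-Complex.I * w)
        have e2 := h3' (-Complex.I * w)
        rw [I_back] at e1 e2
        rw [e1, e2, hr, map_mul, aeval_C]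
        have : (algebraMap ℝ ℂ) r = (r : ℂ) := rfl
        rw [this]
        field_simp
  · intro f hf
    obtain ⟨P, hP⟩ := hchoice f hf
    have h1 := htlu P (hP.mono fun a h => h.1)
    have h2 := h1.comp (fun w : ℂ => -Complex.I * w) (by fun_prop)
    have hc0 : Continuous fun _ : ℂ => Complex.I ^ (par : ℕ) := continuous_const
    have hc1 : Continuous ((fun z : ℂ => z ^ (par : ℕ) * GC (fun j => γ j ^ 2) (z ^ 2) * Complex.exp (-(ck κ * z ^ 2))) ∘
        fun w : ℂ => -Complex.I * w) := by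
      refine h2.continuous ?_
      refine Frequently.of_forall fun a => ?_
      exact (((Polynomial.continuous_aeval (P a)).div_const _).mul (a_spB a (n a)).1.continuous).comp (by fun_prop)
    have h3 : TendstoLocallyUniformly (fun (_ : ℝ) (_ : ℂ) => Complex.I ^ (par : ℕ)) (fun _ => Complex.I ^ (par : ℕ)) atTop := by
      rw [Metric.tendstoLocallyUniformly_iff]
      intro ε hε x
      refine ⟨Set.univ, Filter.univ_mem, Eventually.of_forall fun a y _ => ?_⟩
      rw [dist_self]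
      exact hε
    have h4 := h3.mul₀ h2 hc0 hc1
    have e1 : ((fun _ : ℂ => Complex.I ^ (par : ℕ)) * ((fun z : ℂ => z ^ (par : ℕ) * GC (fun j => γ j ^ 2) (z ^ 2) *
        Complex.exp (-(ck κ * z ^ 2))) ∘ fun w : ℂ => -Complex.I * w)) =
        fun w => w ^ (par : ℕ) * GC (fun j => γ j ^ 2) (-w ^ 2) * Complex.exp (ck κ * w ^ 2) := by
      funext w
      simp only [Pi.mul_apply, Function.comp]
      have e2 : (-Complex.I * w) ^ 2 = -w ^ 2 := by
        rw [mul_pow, neg_sq, Complex.I_sq]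
        ring
      rw [e2, ← mul_assoc, ← mul_assoc, ← mul_pow, I_back]
      congr 2
      ring
    rw [e1] at h4
    refine tlu_congr h4 ?_
    filter_upwards [hP, hR.gr] with a h5 h6 w
    obtain ⟨⟨h7, h8⟩, c, hc, h9⟩ := h5
    obtain ⟨h10, h11, -⟩ := h6 (P a) h7 h8
    have h12 := lead_coeff par_le h9
    have h13 := h9 (-Complex.I * w)
    rw [I_back] at h13
    rw [h12, h13]
    change Complex.I ^ (par : ℕ) * (aeval (-Complex.I * w) (P a) / (((P a).coeff par : ℝ) : ℂ) * Sp a (n a) (-Complex.I * w)) = _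
    have h14 : (((P a).coeff par : ℝ) : ℂ) ≠ 0 := by exact_mod_cast h10
    have h15 : (-Complex.I) ^ (par : ℕ) * Complex.I ^ (par : ℕ) = 1 := by
      rw [← mul_pow]
      simp
    have h16 : (-Complex.I) ^ (par : ℕ) ≠ 0 := pow_ne_zero _ (neg_ne_zero.2 Complex.I_ne_zero)
    rw [eq_div_iff (mul_ne_zero (mul_ne_zero hc h14) h16)]
    have h17 : Complex.I ^ (par : ℕ) * (aeval (-Complex.I * w) (P a) / (((P a).coeff par : ℝ) : ℂ) * Sp a (n a) (-Complex.I * w)) *
        (c * (((P a).coeff par : ℝ) : ℂ) * (-Complex.I) ^ (par : ℕ)) =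
        ((-Complex.I) ^ (par : ℕ) * Complex.I ^ (par : ℕ)) * (aeval (-Complex.I * w) (P a) / (((P a).coeff par : ℝ) : ℂ) *
          (((P a).coeff par : ℝ) : ℂ)) * c * Sp a (n a) (-Complex.I * w) := by ring
    rw [h17, h15, div_mul_cancel₀ _ h14]
    ring
  · intro c hc
    obtain ⟨K, hK, hnb⟩ := hR.nb
    have hc' : c < (c + 4 * κ) / 2 := by linarith
    filter_upwards [hshape, hnb, hδ ((c + 4 * κ) / 2) (by linarith), exp_absorb hc' K, eventually_gt_atTop 0] with a h1 h2 h3 h4 ha f hf hN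
    have hNp : 0 < Y23.N2 f := lt_of_le_of_ne (Y23.N2_nonneg f) (Ne.symm hN)
    constructor
    · by_contra hcon
      push Not at hcon
      have h5 := hPos hRH a _ f ha hf.1 hcon
      have h6 := Y23.N2_zero_of_TT hf.1.1 h5
      exact hN h6
    · obtain ⟨A, B, hA, hB, hne, h5⟩ := gd_partsG hRepInv hRep hForm ha hf hN
      obtain ⟨h6, h7⟩ := hForm a (n a) f A B ha hf.1 hA.1 hB.1 h5
      have hO : ∀ R : ℝ[X], 0 ≤ OZ a (n a) (R * R) := by
        intro R
        unfold OZ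
        refine mul_nonneg (by positivity) (integral_nonneg fun x => ?_)
        simp only [eval_mul]
        exact mul_nonneg (mul_self_nonneg _) (sq_nonneg _)
      have hle : ∀ P : ℝ[X], Mn (fun P => LG a (n a) (P * P)) (fun P => OZ a (n a) (P * P)) (n a) P →
          LG a (n a) (P * P) ≤ Real.exp (-(c * a ^ 2 * Real.log a)) * OZ a (n a) (P * P) := by
        intro P hP
        by_cases hP0 : P = 0
        · rw [hP0, mul_zero, LG_zero, OZ_zero, mul_zero]
        · have h8 := (h2 P hP0 hP).2.2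
          refine h8.trans (mul_le_mul_of_nonneg_right ?_ (hO P))
          exact (mul_le_mul_of_nonneg_left h3 hK.le).trans h4
      rw [h6, h7]
      have h8 := hle A hA
      have h9 := hle B hB
      linarith
  · intro j c hc
    -- ground states exist; choose a bad one if possible
    set bad : ℝ → (ℝ → ℂ) → Prop := fun a f => (GdG a (n a) f ∧ Y23.N2 f ≠ 0) ∧
      ¬ ∃ t : ℝ, Y23.TT f (Complex.I * t) = 0 ∧ |t - γ j| ≤ Real.exp (-(c * a ^ 2 * Real.log a)) with hbad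
    have hex : ∀ a : ℝ, 0 < a → ∃ f, GdG a (n a) f ∧ Y23.N2 f ≠ 0 := by
      intro a ha
      obtain ⟨e, hK, hN0⟩ := Y23.G.F.exists_ground (ν := (n a : ℕ∞)) ha
      exact ⟨e, ⟨hK.1, Kn_min ha hK⟩, hN0.ne'⟩
    set f : ℝ → ℝ → ℂ := fun a => if hb : ∃ f, bad a f then hb.choose else if ha : 0 < a then (hex a ha).choose else fun _ => 0 with hf
    have hfG : ∀ᶠ a in atTop, GdG a (n a) (f a) ∧ Y23.N2 (f a) ≠ 0 := by
      filter_upwards [eventually_gt_atTop 0] with a ha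
      simp only [hf]
      by_cases hb : ∃ f, bad a f
      · rw [dif_pos hb]
        exact hb.choose_spec.1
      · rw [dif_neg hb, dif_pos ha]
        exact (hex a ha).choose_spec
    obtain ⟨P, hP⟩ := hchoice f hfG
    have h1 := htlu P (hP.mono fun a h => h.1)
    set G : ℂ → ℂ := fun z => z ^ (par : ℕ) * GC (fun j => γ j ^ 2) (z ^ 2) * Complex.exp (-(ck κ * z ^ 2)) with hG
    have hγ := h.gpos
    have hg : StrictMono fun j => γ j ^ 2 := fun i j hij => pow_lt_pow_left₀ (h.mono hij) (hγ i).le two_ne_zero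
    have hg0 : 0 < (fun j => γ j ^ 2) 0 := pow_pos (hγ 0) 2
    have hm1' : ∀ j, (1 : ℝ) ≤ (mg (γ j : ℂ) : ℝ) := fun j => by exact_mod_cast h.m1 j
    have hs1 : Summable fun j => 1 / (γ j ^ 2) ^ (7 / 8 : ℝ) := by
      refine Summable.of_nonneg_of_le (fun j => ?_) (fun j => ?_) h.sum
      · exact div_nonneg zero_le_one (Real.rpow_nonneg (sq_nonneg _) _)
      · exact div_le_div_of_nonneg_right (hm1' j) (Real.rpow_nonneg (sq_nonneg _) _)
    have hs : Summable fun j => 1 / (fun j => γ j ^ 2) j := by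
      have h2 : ∀ j, 1 / (fun j => γ j ^ 2) j ≤ (γ 0 ^ 2) ^ (-(1 / 8) : ℝ) * (1 / (γ j ^ 2) ^ (7 / 8 : ℝ)) := by
        intro j
        simp only
        have hp : 0 < γ j ^ 2 := pow_pos (hγ j) 2
        have hp0 : 0 < γ 0 ^ 2 := pow_pos (hγ 0) 2
        have e : 1 / γ j ^ 2 = (γ j ^ 2) ^ (-(1 / 8) : ℝ) * (1 / (γ j ^ 2) ^ (7 / 8 : ℝ)) := by
          rw [one_div ((γ j ^ 2) ^ (7 / 8 : ℝ)), ← Real.rpow_neg hp.le, ← Real.rpow_add hp,
            show (-(1 / 8) + -(7 / 8) : ℝ) = -1 by norm_num, Real.rpow_neg_one, one_div]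
        rw [e]
        refine mul_le_mul_of_nonneg_right ?_ (by positivity)
        refine Real.rpow_le_rpow_of_nonpos hp0 ?_ (by norm_num)
        exact pow_le_pow_left₀ (hγ 0).le (h.mono.monotone (Nat.zero_le j)) 2
      refine Summable.of_nonneg_of_le (fun j => ?_) h2 (hs1.mul_left _)
      positivity
    obtain ⟨hG1, hG2, hG3, hG4, -, -⟩ := a_gcb _ hg hg0 hs
    have hz0 : GC (fun j => γ j ^ 2) ((γ j : ℂ) ^ 2) = 0 := by
      rw [hG3]
      exact ⟨j, by push_cast; rfl⟩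
    have hG0 : G (γ j : ℂ) = 0 := by
      simp only [hG]
      rw [hz0, mul_zero, zero_mul]
    have hγc : (γ j : ℂ) ≠ 0 := by exact_mod_cast (hγ j).ne'
    have hGd : deriv G (γ j : ℂ) ≠ 0 := by
      have k1 : HasDerivAt (fun z : ℂ => GC (fun j => γ j ^ 2) (z ^ 2)) (deriv (GC fun j => γ j ^ 2) ((γ j : ℂ) ^ 2) * (2 * (γ j : ℂ))) (γ j : ℂ) := by
        have k2 := (hG1 ((γ j : ℂ) ^ 2)).hasDerivAt
        have k3 : HasDerivAt (fun z : ℂ => z ^ 2) (2 * (γ j : ℂ)) (γ j : ℂ) := by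
          simpa using hasDerivAt_pow 2 (γ j : ℂ)
        exact k2.comp (γ j : ℂ) k3
      have k4 : HasDerivAt (fun z : ℂ => z ^ (par : ℕ)) (((par : ℕ) : ℂ) * (γ j : ℂ) ^ ((par : ℕ) - 1)) (γ j : ℂ) := hasDerivAt_pow _ _
      have k5 : HasDerivAt (fun z : ℂ => Complex.exp (-(ck κ * z ^ 2))) (deriv (fun z : ℂ => Complex.exp (-(ck κ * z ^ 2))) (γ j : ℂ)) (γ j : ℂ) := by
        refine DifferentiableAt.hasDerivAt ?_
        fun_prop
      have k6 := ((k4.mul k1).mul k5).deriv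
      have k7 : deriv G (γ j : ℂ) = _ := k6
      rw [k7]
      have k9 : ((fun z : ℂ => z ^ (par : ℕ)) * fun z : ℂ => GC (fun j => γ j ^ 2) (z ^ 2)) (γ j : ℂ) = 0 := by
        rw [Pi.mul_apply, hz0, mul_zero]
      rw [k9, hz0, mul_zero, zero_add, zero_mul, add_zero]
      have e : ((γ j ^ 2 : ℝ) : ℂ) = (γ j : ℂ) ^ 2 := by push_cast; rfl
      have k8 := hG4 j
      rw [e] at k8
      exact mul_ne_zero (mul_ne_zero (pow_ne_zero _ hγc) (mul_ne_zero k8 (mul_ne_zero two_ne_zero hγc))) (Complex.exp_ne_zero _)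
    obtain ⟨C, hC, hzc⟩ := hZC atTop (fun a (z : ℂ) => aeval z (P a) / (((P a).coeff par : ℝ) : ℂ) * Sp a (n a) z) G inferInstance h1 (by
      refine Eventually.of_forall fun a => ⟨?_, fun x => ?_⟩
      · exact ((Polynomial.differentiable_aeval (P a)).div_const _).mul (a_spB a (n a)).1
      · rw [aeval_real, (a_spB a (n a)).2.2.2.1, ← Complex.ofReal_div, ← Complex.ofReal_mul, Complex.ofReal_im]) (γ j) hG0 hGd
    obtain ⟨K, hK, hnb⟩ := hR.nb
    have hc' : 2 * c < (2 * c + 4 * κ) / 2 := by linarith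
    filter_upwards [hzc, hP, hR.gr, hnb, hδ ((2 * c + 4 * κ) / 2) (by linarith), exp_absorb hc' (C ^ 2 * K), eventually_gt_atTop 0,
      hR.dpos] with a h2 h3 h4 h5 h6 h7 ha h8 f' hf' hN'
    by_contra hcon
    have hb : ∃ f, bad a f := ⟨f', ⟨hf', hN'⟩, hcon⟩
    have hfa : f a = hb.choose := by
      simp only [hf]
      rw [dif_pos hb]
    obtain ⟨-, hno⟩ := hb.choose_spec
    rw [← hfa] at hno
    obtain ⟨t, ht0, ht⟩ := h2
    obtain ⟨⟨hPne, hPM⟩, cc, hcc, hTT⟩ := h3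
    obtain ⟨h9, h10, -⟩ := h4 (P a) hPne hPM
    obtain ⟨-, h11, -⟩ := h5 (P a) hPne hPM
    refine hno ⟨t, ?_, ?_⟩
    · have h12 : (((P a).coeff par : ℝ) : ℂ) ≠ 0 := by exact_mod_cast h9
      have h13 : aeval (t : ℂ) (P a) * Sp a (n a) t = 0 := by
        have h14 : aeval (t : ℂ) (P a) / (((P a).coeff par : ℝ) : ℂ) * Sp a (n a) t = 0 := ht0
        rw [div_mul_eq_mul_div, div_eq_zero_iff] at h14
        exact h14.resolve_right h12
      rw [hTT, mul_assoc, h13, mul_zero]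
    · refine ht.trans ?_
      -- the value at the zero
      have h12 := LG_Lp0 hSum h n ha (P a) hPM.1
      have hM0 : ∀ i, 0 ≤ MG γ n a i := fun i => by unfold MG; positivity
      have hsm : Summable fun i => MG γ n a i / 2 * ((P a).eval (Real.sqrt (γ i ^ 2)) ^ 2 + (P a).eval (-Real.sqrt (γ i ^ 2)) ^ 2) := by
        have k1 := (h.tot (fun z => (aeval z (P a * P a) * Sp a (n a) z ^ 2).re)
          (hSum.2.2.2 a (n a) (P a * P a) ha (natDegree_mul_self_le hPM.1))).summable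
        refine k1.congr fun i => ?_
        have e0 : Real.sqrt (γ i ^ 2) = γ i := Real.sqrt_sq (hγ i).le
        have hev : Sp a (n a) (-(γ i : ℂ)) = Sp a (n a) (γ i : ℂ) := (a_spB a (n a)).2.2.2.2.1 _
        have e1 : ∀ x : ℝ, (aeval (x : ℂ) (P a * P a) * ((Sr a (n a) (γ i) : ℝ) : ℂ) ^ 2).re = (P a).eval x ^ 2 * Sr a (n a) (γ i) ^ 2 := by
          intro x
          rw [aeval_real, ← Complex.ofReal_pow, ← Complex.ofReal_mul, Complex.ofReal_re, eval_mul]
          ring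
        have e2 : (-(γ i : ℂ)) = ((-γ i : ℝ) : ℂ) := by push_cast; rfl
        rw [hev, (a_spB a (n a)).2.2.2.1 (γ i), e1, e2, e1, e0]
        unfold MG
        rw [e0]
        ring
      have h13 : MG γ n a j / 2 * ((P a).eval (Real.sqrt (γ j ^ 2)) ^ 2 + (P a).eval (-Real.sqrt (γ j ^ 2)) ^ 2) ≤
          CD.Lp (fun j => γ j ^ 2) (MG γ n a) (P a) := by
        unfold CD.Lp
        exact hsm.le_tsum j fun i _ => by
          have := hM0 i
          positivity
      have h14 : Sr a (n a) (γ j) ^ 2 * (P a).eval (γ j) ^ 2 ≤ K * δ a * (P a).coeff par ^ 2 := by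
        refine le_trans ?_ h11
        have e0 : Real.sqrt (γ j ^ 2) = γ j := Real.sqrt_sq (hγ j).le
        rw [show LG a (n a) (P a * P a) = _ from h12]
        unfold Lp0
        have k1 : (0 : ℝ) ≤ (m0 : ℕ) * (P a).eval 0 ^ 2 := by positivity
        have k2 : Sr a (n a) (γ j) ^ 2 * (P a).eval (γ j) ^ 2 ≤
            MG γ n a j / 2 * ((P a).eval (Real.sqrt (γ j ^ 2)) ^ 2 + (P a).eval (-Real.sqrt (γ j ^ 2)) ^ 2) := by
          unfold MG
          rw [e0]
          have k3 := hm1' j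
          have k4 : 0 ≤ Sr a (n a) (γ j) ^ 2 * (P a).eval (γ j) ^ 2 := by positivity
          have k5 : 0 ≤ Sr a (n a) (γ j) ^ 2 * (P a).eval (-γ j) ^ 2 := by positivity
          nlinarith
        linarith
      have hcpos : 0 < (P a).coeff par ^ 2 := by positivity
      have h15 : ‖aeval (γ j : ℂ) (P a) / (((P a).coeff par : ℝ) : ℂ) * Sp a (n a) (γ j : ℂ)‖ ^ 2 ≤ K * δ a := by
        rw [aeval_real, (a_spB a (n a)).2.2.2.1, ← Complex.ofReal_div, ← Complex.ofReal_mul, Complex.norm_real, Real.norm_eq_abs, sq_abs,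
          mul_pow, div_pow, div_mul_eq_mul_div, div_le_iff₀ hcpos]
        linarith
      have h16 : (C * ‖aeval (γ j : ℂ) (P a) / (((P a).coeff par : ℝ) : ℂ) * Sp a (n a) (γ j : ℂ)‖) ^ 2 ≤
          Real.exp (-(c * a ^ 2 * Real.log a)) ^ 2 := by
        rw [mul_pow, ← Real.exp_nat_mul]
        calc C ^ 2 * ‖aeval (γ j : ℂ) (P a) / (((P a).coeff par : ℝ) : ℂ) * Sp a (n a) (γ j : ℂ)‖ ^ 2 ≤ C ^ 2 * (K * δ a) :=
              mul_le_mul_of_nonneg_left h15 (by positivity)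
          _ = C ^ 2 * K * δ a := by ring
          _ ≤ C ^ 2 * K * Real.exp (-((2 * c + 4 * κ) / 2 * a ^ 2 * Real.log a)) := mul_le_mul_of_nonneg_left h6 (by positivity)
          _ ≤ Real.exp (-(2 * c * a ^ 2 * Real.log a)) := h7
          _ = _ := by
            congr 1
            push_cast
            ring
      exact (abs_le_of_sq_le_sq' h16 (Real.exp_pos _).le).2
  · intro K
    obtain ⟨K1, hK1, hnb⟩ := hR.nb
    filter_upwards [hshape, hnb, hR.gap (|K| * K1), hR.dpos, eventually_gt_atTop 0] with a h1 h2 h3 h4 ha f hf hN x hx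
    have hNp : 0 < Y23.N2 f := lt_of_le_of_ne (Y23.N2_nonneg f) (Ne.symm hN)
    have hO : ∀ R : ℝ[X], 0 ≤ OZ a (n a) (R * R) := by
      intro R
      unfold OZ
      refine mul_nonneg (by positivity) (integral_nonneg fun x => ?_)
      simp only [eval_mul]
      exact mul_nonneg (mul_self_nonneg _) (sq_nonneg _)
    have hQ0 : 0 ≤ Y23.G.QQ f := by
      by_contra hcon
      push Not at hcon
      have h5 := hPos hRH a _ f ha hf.1 hcon.le
      exact hN (Y23.N2_zero_of_TT hf.1.1 h5)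
    have hQf : Y23.G.QQ f ≤ K1 * δ a * Y23.N2 f := by
      obtain ⟨A, B, hA, hB, hne, h5⟩ := gd_partsG hRepInv hRep hForm ha hf hN
      obtain ⟨h6, h7⟩ := hForm a (n a) f A B ha hf.1 hA.1 hB.1 h5
      have hle : ∀ P : ℝ[X], Mn (fun P => LG a (n a) (P * P)) (fun P => OZ a (n a) (P * P)) (n a) P →
          LG a (n a) (P * P) ≤ K1 * δ a * OZ a (n a) (P * P) := by
        intro P hP
        by_cases hP0 : P = 0
        · rw [hP0, mul_zero, LG_zero, OZ_zero, mul_zero]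
        · exact (h2 P hP0 hP).2.2
      rw [h6, h7]
      have h8 := hle A hA
      have h9 := hle B hB
      linarith
    obtain ⟨V, hV, hk, hVx⟩ := hx
    -- an element of V without the leading coefficient
    obtain ⟨g, hgV, hg0, hgl⟩ : ∃ g ∈ V, g ≠ 0 ∧ iteratedDeriv par (Y23.TT g) 0 = 0 := by
      have hfd : FiniteDimensional ℂ V := Module.finite_of_finrank_pos (by omega)
      let L : V →ₗ[ℂ] ℂ :=
        { toFun := fun g => iteratedDeriv par (Y23.TT (g : ℝ → ℂ)) 0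
          map_add' := by
            intro g g'
            have e1 : Y23.TT ((g + g' : V) : ℝ → ℂ) = Y23.TT (g : ℝ → ℂ) + Y23.TT (g' : ℝ → ℂ) := by
              funext w
              exact Y23.TT_add (Tg_Hn ha (hV _ g.2)).1 (Tg_Hn ha (hV _ g'.2)).1 w
            have k1 : ContDiff ℂ par (Y23.TT (g : ℝ → ℂ)) := (Y23.differentiable_TT (Tg_Hn ha (hV _ g.2)).1).contDiff
            have k2 : ContDiff ℂ par (Y23.TT (g' : ℝ → ℂ)) := (Y23.differentiable_TT (Tg_Hn ha (hV _ g'.2)).1).contDiff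
            rw [e1, iteratedDeriv_add k1.contDiffAt k2.contDiffAt]
          map_smul' := by
            intro c g
            have e1 : Y23.TT ((c • g : V) : ℝ → ℂ) = fun w => c * Y23.TT (g : ℝ → ℂ) w := by
              funext w
              exact Y23.TT_smul (g : ℝ → ℂ) c w
            have k1 : ContDiff ℂ par (Y23.TT (g : ℝ → ℂ)) := (Y23.differentiable_TT (Tg_Hn ha (hV _ g.2)).1).contDiff
            rw [e1, iteratedDeriv_const_mul_field]
            rfl }
      have hlt : Module.finrank ℂ ℂ < Module.finrank ℂ V := by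
        rw [Module.finrank_self, hk]
        norm_num
      have hker := LinearMap.ker_ne_bot_of_finrank_lt (f := L) hlt
      obtain ⟨v, hv, hv0⟩ := (Submodule.ne_bot_iff _).1 hker
      exact ⟨v, v.2, fun h => hv0 (Subtype.ext h), hv⟩
    have hgT := hV g hgV
    have hgH := Tg_Hn ha hgT
    have hgN := CE.Tg_pos ha hgT hg0
    obtain ⟨P, hP, k1⟩ := hRep a (n a) g ha hgH
    obtain ⟨A, B, hA, hB, k2⟩ := split_re _ P hP
    have k3 : ∀ z : ℂ, Y23.TT g (Complex.I * z) = (aeval z A + Complex.I * aeval z B) * Sp a (n a) z := fun z => by rw [k1, k2]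
    obtain ⟨k4, k5⟩ := hForm a (n a) g A B ha hgH hA hB k3
    have k6 : P.coeff par = 0 := by
      have k7 := lead_gen par_le k1
      rw [hgl] at k7
      exact (mul_eq_zero.1 k7.symm).resolve_right (pow_ne_zero _ (neg_ne_zero.2 Complex.I_ne_zero))
    obtain ⟨k7, k8⟩ := parts_coeff k2 k6
    have hlow : ∀ R : ℝ[X], R.natDegree ≤ 2 * n a → R.coeff par = 0 →
        |K| * K1 * δ a * OZ a (n a) (R * R) ≤ LG a (n a) (R * R) := by
      intro R hR1 hR2
      by_cases hR0 : R = 0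
      · rw [hR0, mul_zero, LG_zero, OZ_zero, mul_zero]
      · exact (h3 R hR0 hR1 hR2).le
    have k9 := hlow A hA k7
    have k10 := hlow B hB k8
    have k11 : |K| * K1 * δ a * Y23.N2 g ≤ x * Y23.N2 g := by
      refine le_trans ?_ (hVx g hgV)
      rw [k4, k5]
      linarith
    have k12 : |K| * K1 * δ a ≤ x := le_of_mul_le_mul_right k11 hgN
    calc K * Y23.G.QQ f ≤ |K| * Y23.G.QQ f := mul_le_mul_of_nonneg_right (le_abs_self K) hQ0
      _ ≤ |K| * (K1 * δ a * Y23.N2 f) := mul_le_mul_of_nonneg_left hQf (abs_nonneg K)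
      _ = |K| * K1 * δ a * Y23.N2 f := by ring
      _ ≤ x * Y23.N2 f := mul_le_mul_of_nonneg_right k12 hNp.le

end

end Pool.Agent.Q240.CG
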