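import Pool.Agent.H471R3.GJ.PXX
import Pool.Agent.H429R2.GP.XF
import Pool.Agent.W355.UN.Pack

set_option autoImplicit false

/-! # Project CG: L-functions with real coefficients are self-dual -/

open Complex
open scoped ComplexConjugate

namespace Pool.Agent.Q240.CG

/-- an L-function with real coefficients and real archimedean parameters is self-dual -/
theorem real_fe {m r : ℕ} {Q : ℝ} {α : Fin m → ℂ} {b : ℕ → ℂ} {w : ℂ} {Λ : ℂ → ℂ} (hQ : 1 ≤ Q) (hd : Differentiable ℂ Λ)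
    (hfe : ∀ s : ℂ, Λ (1 - s) = w * conj (Λ (conj s)))
    (hdir : ∃ σ : ℝ, ∀ s : ℂ, σ ≤ s.re → Λ s = (s * (s - 1)) ^ r * ((Q : ℂ) ^ (s / 2) * ∏ j, Gammaℝ (s + α j)) * LSeries b s)
    (hb : ∀ n : ℕ, (b n).im = 0) (hα : ∀ j, (α j).im = 0) (s : ℂ) : Λ (1 - s) = w * Λ s := by
  obtain ⟨σ, hσ⟩ := hdir
  have hd' : Differentiable ℂ fun s : ℂ => conj (Λ (conj s)) := by
    intro s
    have h1 := (hd (conj s)).conj_conj
    rw [Complex.conj_conj] at h1
    exact h1
  have hQ0 : (0 : ℝ) < Q := by linarith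
  have hrb : ∀ n, conj (b n) = b n := fun n => Complex.conj_eq_iff_im.2 (hb n)
  have hra : ∀ j, conj (α j) = α j := fun j => Complex.conj_eq_iff_im.2 (hα j)
  have h2 : (fun s : ℂ => conj (Λ (conj s))) = Λ := by
    refine Pool.Agent.W355.UN.Pk.uniq hd hd' ⟨σ, hσ⟩ ⟨σ, fun s hs => ?_⟩
    rw [hσ (conj s) (by rwa [Complex.conj_re])]
    simp only [map_mul, map_pow, map_sub, map_one, map_prod, Complex.conj_conj]
    have e1 : conj ((Q : ℂ) ^ (conj s / 2)) = (Q : ℂ) ^ (s / 2) := by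
      have h := cpow_conj (Q : ℂ) (s / 2) (by rw [arg_ofReal_of_nonneg hQ0.le]; exact Real.pi_pos.ne)
      rw [conj_ofReal, map_div₀, map_ofNat] at h
      rw [h, Complex.conj_conj]
    have e2 : ∀ j, conj (Gammaℝ (conj s + α j)) = Gammaℝ (s + α j) := by
      intro j
      have h := H429.GP.Gammaℝ_conj (s + α j)
      rw [map_add, hra] at h
      rw [h, Complex.conj_conj]
    have e3 : conj (LSeries b (conj s)) = LSeries b s := by
      rw [Pool.Agent.H471R3.GJ.PXX.conj_LSeries]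
      congr 1
      funext n
      exact hrb n
    rw [e1, e3, Finset.prod_congr rfl fun j _ => e2 j]
  rw [hfe s]
  congr 1
  exact congrFun h2 s

end Pool.Agent.Q240.CG
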