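import Pool.Agent.Q240.CG.StmP
import Pool.Agent.Q240.CG.RealL
import Pool.Agent.TH839.NA.Inst

set_option autoImplicit false

/-! # Project CG: products of Dirichlet L-functions and L-functions of newforms -/

open Complex
open scoped ComplexConjugate

namespace Pool.Agent.Q240.CG

open Pool.Agent.TH839.NA (RawT RawTL rawTL_of_rawL nf_rawT)
open Pool.Agent.W355.UN (Conv zeta_raw dir_raw)
open Pool.Agent.W355.LJ (IsNF parD)

/-- a larger bound for the parameters -/
lemma rawT_half {l : List ℂ} {r : ℕ} {N : ℝ} {b c : ℕ → ℂ} {X : ℂ → ℂ} (h : RawTL 0 l r N b c X) :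
    RawTL (1 / 2) l r N b (fun n => if n = 0 then 0 else c n) X := by
  refine ⟨h.hm, h.hr, h.hN, by norm_num, by norm_num, h.re_ge, h.entire, h.order, h.fe, h.one, fun n => ?_, fun n hn => ?_, h.eq⟩
  · rcases Nat.eq_zero_or_pos n with rfl | hn
    · rw [if_pos rfl, norm_zero]
      positivity
    · rw [if_neg hn.ne']
      have h1 := h.cb n
      rw [Real.rpow_zero, mul_one] at h1
      refine h1.trans (le_mul_of_one_le_right (Nat.cast_nonneg _) ?_)
      exact Real.one_le_rpow (by exact_mod_cast hn) (by norm_num)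
  · rw [h.conv n hn]
    refine Finset.sum_congr rfl fun d hd => ?_
    rw [if_neg (Nat.pos_of_mem_divisors hd).ne']

/-- the data of a piece -/
structure PieceData where
  r : ℕ
  N : ℕ
  l : List ℂ
  b : ℕ → ℂ

/-- the completed function of a piece -/
noncomputable def PieceData.F (p : PieceData) (s : ℂ) : ℂ :=
  (s * (s - 1)) ^ p.r * ((p.N : ℂ) ^ (s / 2) * (p.l.map fun α => Gammaℝ (s + α)).prod) * LSeries p.b s

/-- a piece with all its properties -/
structure PieceData.Good (p : PieceData) : Prop where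
  raw : ∃ (b c : ℕ → ℂ) (X : ℂ → ℂ), RawTL (1 / 2) p.l p.r p.N b c X ∧ ∀ n, n ≠ 0 → b n = p.b n
  re : ∀ α ∈ p.l, -1 / 2 < α.re
  im : ∀ α ∈ p.l, α.im = 0

theorem good_zeta : (⟨1, 1, [0], fun _ => 1⟩ : PieceData).Good := by
  have h : RawTL 0 [0] 1 ((1 : ℕ) : ℝ) (fun _ => 1) (fun _ => 1) (fun s => s * (s - 1) * completedRiemannZeta₀ s + 1) := by
    rw [Nat.cast_one]
    exact rawTL_of_rawL zeta_raw
  refine ⟨⟨_, _, _, rawT_half h, fun _ _ => rfl⟩, fun α hα => ?_, fun α hα => ?_⟩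
  all_goals
    rw [List.mem_singleton] at hα
    rw [hα]
    norm_num

theorem good_dir (N : ℕ) (χ : DirichletCharacter ℂ N) (hN : 1 < N) (hχ : χ.IsPrimitive) :
    (⟨0, N, [(parD χ : ℂ)], fun n => χ (n : ZMod N)⟩ : PieceData).Good := by
  have : NeZero N := ⟨by omega⟩
  obtain ⟨X, h⟩ := dir_raw N χ hN hχ
  refine ⟨⟨_, _, X, rawT_half (rawTL_of_rawL h), fun _ _ => rfl⟩, fun α hα => ?_, fun α hα => ?_⟩
  all_goals
    rw [List.mem_singleton] at hα
    rw [hα]
  · rw [Complex.ofReal_re]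
    unfold parD
    split_ifs <;> norm_num
  · exact Complex.ofReal_im _

theorem good_nf {N k : ℕ} (hN : 1 ≤ N) (f : CuspForm (CongruenceSubgroup.Gamma1 N : Subgroup (GL (Fin 2) ℝ)) (k : ℤ))
    {w : ℂ} (hk : 1 ≤ k) (hf : IsNF N k f w)
    (hmul : ∀ m n : ℕ, Nat.Coprime m n → (UpperHalfPlane.qExpansion 1 f).coeff (m * n) =
      (UpperHalfPlane.qExpansion 1 f).coeff m * (UpperHalfPlane.qExpansion 1 f).coeff n)
    (hpow : ∀ p : ℕ, p.Prime → ∃ e : ℂ, ∀ j : ℕ,
      (UpperHalfPlane.qExpansion 1 f).coeff (p ^ (j + 2)) =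
        (UpperHalfPlane.qExpansion 1 f).coeff p * (UpperHalfPlane.qExpansion 1 f).coeff (p ^ (j + 1)) -
          e * (UpperHalfPlane.qExpansion 1 f).coeff (p ^ j)) :
    (⟨0, N, [((k : ℂ) - 1) / 2, ((k : ℂ) + 1) / 2], fun n => (UpperHalfPlane.qExpansion 1 f).coeff n *
          ((((n : ℝ) ^ (-(((k : ℝ) - 1) / 2)) : ℝ)) : ℂ)⟩ : PieceData).Good := by
  have : NeZero N := ⟨by omega⟩
  obtain ⟨c, X, h⟩ := nf_rawT f hk hf hmul hpow
  have e2 : (((((((k : ℕ) : ℝ) - 1) / 2) : ℝ)) : ℂ) = ((k : ℂ) - 1) / 2 := by push_cast; rfl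
  have e3 : (((((((k : ℕ) : ℝ) + 1) / 2) : ℝ)) : ℂ) = ((k : ℂ) + 1) / 2 := by push_cast; rfl
  have hk1 : (1 : ℝ) ≤ k := by exact_mod_cast hk
  refine ⟨⟨_, c, X, by rw [← e2, ← e3]; exact h, fun _ _ => rfl⟩, fun α hα => ?_, fun α hα => ?_⟩
  all_goals
    simp only [List.mem_cons, List.not_mem_nil, or_false] at hα
    rcases hα with rfl | rfl
  · rw [← e2, Complex.ofReal_re]
    linarith
  · rw [← e3, Complex.ofReal_re]
    linarith
  · rw [← e2, Complex.ofReal_im]
  · rw [← e3, Complex.ofReal_im]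

/-- products of pieces -/
theorem list_raw (hM : S_RawMul) {ι : Type} (d : ι → PieceData) (hd : ∀ i, (d i).Good) (π : List ι) (hπ : π ≠ []) :
    ∃ (l : List ℂ) (r : ℕ) (N : ℝ) (b c : ℕ → ℂ) (X : ℂ → ℂ), RawTL (1 / 2) l r N b c X ∧ (∀ α ∈ l, -1 / 2 < α.re) ∧
      (∀ α ∈ l, α.im = 0) ∧ ((∀ i ∈ π, ∀ n, ((d i).b n).im = 0) → ∀ n, n ≠ 0 → (b n).im = 0) ∧
      ∃ σ : ℝ, ∀ s : ℂ, σ ≤ s.re → (∀ i ∈ π, LSeriesSummable (d i).b s) ∧ X s = (π.map fun i => (d i).F s).prod := by
  have one : ∀ i, ∃ (b c : ℕ → ℂ) (X : ℂ → ℂ), RawTL (1 / 2) (d i).l (d i).r (d i).N b c X ∧ (∀ n, n ≠ 0 → b n = (d i).b n) ∧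
      ∃ σ : ℝ, ∀ s : ℂ, σ ≤ s.re → LSeriesSummable (d i).b s ∧ X s = (d i).F s := by
    intro i
    obtain ⟨b, c, X, h, hb⟩ := (hd i).raw
    obtain ⟨-, σ1, h1⟩ := RawTL.out h (b := (d i).b) fun n hn => (hb n hn).symm
    obtain ⟨σ2, h2⟩ := h.eq
    refine ⟨b, c, X, h, hb, max σ1 σ2, fun s hs => ⟨h1 s ((le_max_left _ _).trans hs), ?_⟩⟩
    rw [h2 s ((le_max_right _ _).trans hs), Pool.Agent.W355.UN.prod_get (d i).l fun α => Gammaℝ (s + α)]
    unfold PieceData.F
    rw [LSeries_congr (fun {n} hn => hb n hn) s]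
    push_cast
    rfl
  induction π with
  | nil => exact absurd rfl hπ
  | cons i π ih =>
    obtain ⟨b, c, X, h1, hb, σ1, hσ1⟩ := one i
    rcases eq_or_ne π [] with rfl | hne
    · refine ⟨(d i).l, (d i).r, (d i).N, b, c, X, h1, (hd i).re, (hd i).im, fun hr n hn => ?_, σ1, fun s hs => ?_⟩
      · rw [hb n hn]
        exact hr i (by simp) n
      · simpa using hσ1 s hs
    · obtain ⟨l', r', N', b', c', X', h2, hre, him, hreal, σ2, hσ2⟩ := ih hne
      refine ⟨(d i).l ++ l', (d i).r + r', (d i).N * N', LSeries.convolution b b', fun n => c n + c' n, fun s => X s * X' s,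
        hM _ _ _ _ _ _ _ _ _ _ _ _ _ h1 h2, fun α hα => ?_, fun α hα => ?_, fun hr n hn => ?_, max σ1 σ2, fun s hs => ?_⟩
      · rcases List.mem_append.1 hα with hα | hα
        · exact (hd i).re α hα
        · exact hre α hα
      · rcases List.mem_append.1 hα with hα | hα
        · exact (hd i).im α hα
        · exact him α hα
      · rw [LSeries.convolution_def]
        simp only
        rw [Complex.im_sum]
        refine Finset.sum_eq_zero fun p hp => ?_
        obtain ⟨hp1, hp2⟩ := Nat.mem_divisorsAntidiagonal.1 hp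
        have h3 : p.1 ≠ 0 := by
          rintro h0
          rw [h0, zero_mul] at hp1
          exact hp2 hp1.symm
        have h4 : p.2 ≠ 0 := by
          rintro h0
          rw [h0, mul_zero] at hp1
          exact hp2 hp1.symm
        have h5 : (b p.1).im = 0 := by
          rw [hb _ h3]
          exact hr i (by simp) _
        have h6 := hreal (fun j hj => hr j (List.mem_cons_of_mem _ hj)) _ h4
        rw [Complex.mul_im, h5, h6, mul_zero, zero_mul, add_zero]
      · obtain ⟨k1, k2⟩ := hσ1 s ((le_max_left _ _).trans hs)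
        obtain ⟨k3, k4⟩ := hσ2 s ((le_max_right _ _).trans hs)
        refine ⟨fun j hj => ?_, ?_⟩
        · rcases List.mem_cons.1 hj with rfl | hj
          · exact k1
          · exact k3 j hj
        · simp only [List.map_cons, List.prod_cons]
          rw [k2, k4]

end Pool.Agent.Q240.CG
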