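import Pool.Agent.Q240.CG.LF
import Pool.Agent.Q240.CD.AllZ

set_option autoImplicit false

/-! # Project CG: the results from the jobs, for general self-dual zero data -/

open Polynomial Filter Topology Finset MeasureTheory

namespace Pool.Agent.Q240.CG

open Pool.Agent.Q240.CD

/-- all the jobs -/
structure JB : Prop where
  sum : S_SumGG
  pos : S_PosG
  form : S_FormG
  lin : S_LinG
  limLG : S_LimLG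
  enum : S_EnumG
  gapC : CE.S_GapC
  nb : CE.S_NB
  rate0 : CE.S_Rate0
  cnt : CE.S_CntG
  zc : CE.S_ZC
  gapC0 : S_GapC0
  cl0 : S_Cl0
  oeb0 : S_Oeb0
  uni0 : S_Uni0
  fam0 : S_Fam0Z
  wt4 : S_Wt4Z
  rate1 : S_Rate1
  test : CE.S_Test
  upq : CE.S_UpQ

/-- the results on ground states if all zeros are on the critical line -/
structure GSA [D : Y23.G.ZD] (γ : ℕ → ℝ) (n : ℝ → ℕ) (κ : ℝ) : Prop where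
  gr : ∀ᶠ a in atTop, ∀ f : ℝ → ℂ, GdG a (n a) f → Y23.N2 f ≠ 0 → iteratedDeriv par (Y23.TT f) 0 ≠ 0 ∧
    (∀ w, Y23.TT f (-w) = (-1) ^ (par : ℕ) * Y23.TT f w) ∧ ∀ f' : ℝ → ℂ, GdG a (n a) f' → ∃ c : ℂ, ∀ w, Y23.TT f' w = c * Y23.TT f w
  tlu : ∀ f : ℝ → ℝ → ℂ, (∀ᶠ a in atTop, GdG a (n a) (f a) ∧ Y23.N2 (f a) ≠ 0) →
    TendstoLocallyUniformly (fun a w => Y23.TT (f a) w / iteratedDeriv par (Y23.TT (f a)) 0)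
      (fun w => w ^ (par : ℕ) * GC (fun j => γ j ^ 2) (-w ^ 2) * Complex.exp (ck κ * w ^ 2)) atTop
  ev : ∀ c : ℝ, c < 4 * κ → ∀ᶠ a in atTop, ∀ f : ℝ → ℂ, GdG a (n a) f → Y23.N2 f ≠ 0 →
    0 < Y23.G.QQ f ∧ Y23.G.QQ f ≤ Real.exp (-(c * a ^ 2 * Real.log a)) * Y23.N2 f
  zer : ∀ (j : ℕ) (c : ℝ), c < 2 * κ → ∀ᶠ a in atTop, ∀ f : ℝ → ℂ, GdG a (n a) f → Y23.N2 f ≠ 0 →
    ∃ t : ℝ, Y23.TT f (Complex.I * t) = 0 ∧ |t - γ j| ≤ Real.exp (-(c * a ^ 2 * Real.log a))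
  gap : ∀ K : ℝ, ∀ᶠ a in atTop, ∀ f : ℝ → ℂ, GdG a (n a) f → Y23.N2 f ≠ 0 →
    ∀ x ∈ CE.evs Y23.G.QQ Y23.N2 (Tg a (n a)) 2, K * Y23.G.QQ f ≤ x * Y23.N2 f

theorem JB.gsa (J : JB) [D : Y23.G.ZD] [EC : Y23.G.ZC] [SD] (hRH : ∀ ρ : Y23.G.Zt, (ρ : ℂ).re = 1 / 2) :
    ∃ γ : ℕ → ℝ, ENG γ ∧ ∀ (n : ℝ → ℕ) (κ : ℝ), 0 < κ → Tendsto (fun a : ℝ => (n a : ℝ) / a ^ 2) atTop (𝓝 κ) → GSA γ n κ := by
  obtain ⟨γ, h1, h2, h3, h4, h5, h6⟩ := J.enum hRH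
  have h : ENG γ := ⟨h1, h2, h3, h4, h5, h6⟩
  refine ⟨γ, h, fun n κ hκ hn => ?_⟩
  obtain ⟨δ, hδ, hR⟩ := resG J.sum J.pos J.form J.gapC J.nb J.gapC0 J.cl0 J.oeb0 J.uni0 J.fam0 J.wt4 J.rate0 J.rate1 J.cnt a_repInv
    hRH h hκ hn
  obtain ⟨k1, k2, k3, k4, k5⟩ := finA J.sum J.pos J.form a_repInv a_rep J.zc hRH h hκ hn hδ hR
  exact ⟨k1, k2, k3, k4, k5⟩

theorem JB.thB (J : JB) : S_ThBG :=
  thBG J.test a_spB a_repInv a_rep J.lin J.form J.limLG a_limInt a_quad a_dense spR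

end Pool.Agent.Q240.CG
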