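import Pool.Agent.Q240.CG.Fin
import Pool.Agent.Y23.G.An6

set_option autoImplicit false

/-! # Project CG: self-dual L-functions -/

open Filter Topology Finset MeasureTheory

namespace Pool.Agent.Q240.CG

open Pool.Agent.Q240.CD

lemma mult_one_sub (f : ℂ → ℂ) (s : ℂ) : H370.mult (fun z => f (1 - z)) s = H370.mult f (1 - s) := by
  have h2 : AnalyticAt ℂ (fun z : ℂ => 1 - z) s := by fun_prop
  have h3 : deriv (fun z : ℂ => 1 - z) s ≠ 0 := by
    rw [deriv_const_sub]
    simp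
  have h4 := analyticOrderAt_comp_of_deriv_ne_zero (f := f) h2 h3
  unfold H370.mult analyticOrderNatAt
  rw [← h4]
  rfl

/-- an L-function with `X (1 - s) = ε X s` has self-dual data -/
theorem sd_of [L : Y23.G.LFun] (h : ∃ ε : ℂ, ε ≠ 0 ∧ ∀ s, L.X (1 - s) = ε * L.X s) : SD := by
  obtain ⟨ε, hε, hX⟩ := h
  have hm : ∀ s, H370.mult L.X (1 - s) = H370.mult L.X s := by
    intro s
    rw [← mult_one_sub]
    have e : (fun z => L.X (1 - z)) = fun z => ε * L.X z := funext hX
    rw [e]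
    exact Y23.G.mult_const_mul hε (Y23.G.Xan s)
  refine ⟨fun s hs => ?_, fun s hs => ?_⟩
  · have h1 : L.X (1 - (starRingEnd ℂ) s) = 0 := Y23.G.X_zero hs
    have h2 := hX (1 - (starRingEnd ℂ) s)
    rw [sub_sub_cancel, h1, mul_zero] at h2
    exact h2
  · have h1 := Y23.G.X_mrefl (L := L) s
    have h2 := hm (1 - (starRingEnd ℂ) s)
    rw [sub_sub_cancel] at h2
    show H370.mult L.X ((starRingEnd ℂ) s) = H370.mult L.X s
    rw [h2, h1]

/-- the ground state realises the first value -/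
lemma evs_one {W N : (ℝ → ℂ) → ℝ} {T : (ℝ → ℂ) → Prop} {f : ℝ → ℂ} (hN : 0 < N f) (hT : T f)
    (hTs : ∀ (c : ℂ), T (fun x => c * f x))
    (hW : ∀ (c : ℂ), W (fun x => c * f x) = ‖c‖ ^ 2 * W f) (hN2 : ∀ (c : ℂ), N (fun x => c * f x) = ‖c‖ ^ 2 * N f)
    (hpos : ∀ g, T g → g ≠ 0 → 0 < N g) (hmin : ∀ g, T g → W f * N g ≤ W g * N f) :
    sInf (CE.evs W N T 1) = W f / N f := by
  have hf0 : f ≠ 0 := by
    rintro rfl
    have h1 := hN2 0
    have e : (fun x : ℝ => (0 : ℂ) * (0 : ℝ → ℂ) x) = 0 := by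
      funext x
      simp
    rw [e, norm_zero] at h1
    simp at h1
    rw [h1] at hN
    exact lt_irrefl _ hN
  have hmem : W f / N f ∈ CE.evs W N T 1 := by
    refine ⟨Submodule.span ℂ {f}, fun g hg => ?_, finrank_span_singleton hf0, fun g hg => ?_⟩
    · obtain ⟨c, rfl⟩ := Submodule.mem_span_singleton.1 hg
      exact hTs c
    · obtain ⟨c, rfl⟩ := Submodule.mem_span_singleton.1 hg
      have e : (c • f) = fun x => c * f x := rfl
      rw [e, hW, hN2]
      refine le_of_eq ?_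
      field_simp
  refine le_antisymm (csInf_le ⟨W f / N f, ?_⟩ hmem) (le_csInf ⟨_, hmem⟩ ?_)
  all_goals
    rintro x ⟨V, hV, hk, hx⟩
    have hfd : FiniteDimensional ℂ V := Module.finite_of_finrank_pos (by omega)
    have hnt : Nontrivial V := Module.nontrivial_of_finrank_pos (R := ℂ) (by omega)
    obtain ⟨g, hg⟩ := exists_ne (0 : V)
    have hg0 : (g : ℝ → ℂ) ≠ 0 := fun h => hg (Subtype.ext h)
    have h1 := hpos g (hV g g.2) hg0
    have h2 := hx g g.2
    have h3 := hmin g (hV g g.2)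
    rw [div_le_iff₀ hN]
    have h4 : W f * N g ≤ x * N f * N g := by
      have h5 := mul_le_mul_of_nonneg_right h2 hN.le
      linarith
    exact le_of_mul_le_mul_right h4 h1

end Pool.Agent.Q240.CG
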