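import Pool.Agent.Q240.CG.Stm
import Pool.Agent.Q240.CE.Stm
import Pool.Agent.Q240.CD.ThA

set_option autoImplicit false

/-! # Project CG: the result of part A for real polynomials, in a form common to both parities -/

open Polynomial Filter Topology Finset MeasureTheory

namespace Pool.Agent.Q240.CG

open Pool.Agent.Q240.CD

/-- `P` minimises `L / O` in degree at most `2 n` -/
def Mn (L O : ℝ[X] → ℝ) (n : ℕ) (P : ℝ[X]) : Prop :=
  P.natDegree ≤ 2 * n ∧ ∀ R : ℝ[X], R.natDegree ≤ 2 * n → L P * O R ≤ L R * O P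

/-- the results on ground states of parity `(-1)^e` -/
structure Res {ι : Type} (l : Filter ι) (N : ι → ℕ) (L O : ι → ℝ[X] → ℝ) (e : ℕ) (δ : ι → ℝ) (G : ℂ → ℂ) : Prop where
  dpos : ∀ᶠ i in l, 0 < δ i
  gr : ∀ᶠ i in l, ∀ P : ℝ[X], P ≠ 0 → Mn (L i) (O i) (N i) P → P.coeff e ≠ 0 ∧ P.comp (-X) = (-1) ^ e * P ∧
    ∀ P' : ℝ[X], Mn (L i) (O i) (N i) P' → ∃ c : ℝ, P' = C c * P
  tlu : ∀ P : ι → ℝ[X], (∀ᶠ i in l, P i ≠ 0 ∧ Mn (L i) (O i) (N i) (P i)) →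
    TendstoLocallyUniformly (fun i (z : ℂ) => aeval z (P i) / (((P i).coeff e : ℝ) : ℂ)) G l
  nb : ∃ K : ℝ, 0 < K ∧ ∀ᶠ i in l, ∀ P : ℝ[X], P ≠ 0 → Mn (L i) (O i) (N i) P →
    O i P ≤ K * (P.coeff e) ^ 2 ∧ L i P ≤ K * δ i * (P.coeff e) ^ 2 ∧ L i P ≤ K * δ i * O i P
  gap : ∀ K : ℝ, ∀ᶠ i in l, ∀ P : ℝ[X], P ≠ 0 → P.natDegree ≤ 2 * N i → P.coeff e = 0 → K * δ i * O i P < L i P

lemma Res.congr {ι : Type} {l : Filter ι} {N : ι → ℕ} {L O L' O' : ι → ℝ[X] → ℝ} {e : ℕ} {δ : ι → ℝ} {G : ℂ → ℂ}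
    (h : Res l N L O e δ G) (he : ∀ᶠ i in l, ∀ P : ℝ[X], P.natDegree ≤ 2 * N i → L' i P = L i P ∧ O' i P = O i P) :
    Res l N L' O' e δ G := by
  have hM : ∀ᶠ i in l, ∀ P : ℝ[X], Mn (L' i) (O' i) (N i) P ↔ Mn (L i) (O i) (N i) P := by
    filter_upwards [he] with i hi P
    constructor
    · rintro ⟨h1, h2⟩
      refine ⟨h1, fun R hR => ?_⟩
      have := h2 R hR
      rwa [(hi P h1).1, (hi P h1).2, (hi R hR).1, (hi R hR).2] at this
    · rintro ⟨h1, h2⟩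
      refine ⟨h1, fun R hR => ?_⟩
      rw [(hi P h1).1, (hi P h1).2, (hi R hR).1, (hi R hR).2]
      exact h2 R hR
  refine ⟨h.dpos, ?_, fun P hP => h.tlu P ?_, ?_, fun K => ?_⟩
  · filter_upwards [h.gr, hM] with i h1 h2 P hP hG
    obtain ⟨h3, h4, h5⟩ := h1 P hP ((h2 P).1 hG)
    exact ⟨h3, h4, fun P' hP' => h5 P' ((h2 P').1 hP')⟩
  · filter_upwards [hP, hM] with i h1 h2
    exact ⟨h1.1, (h2 _).1 h1.2⟩
  · obtain ⟨K, hK, h1⟩ := h.nb
    refine ⟨K, hK, ?_⟩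
    filter_upwards [h1, hM, he] with i h1 h2 h3 P hP hG
    rw [(h3 P hG.1).1, (h3 P hG.1).2]
    exact h1 P hP ((h2 P).1 hG)
  · filter_upwards [h.gap K, he] with i h1 h2 P hP hd hc
    rw [(h2 P hd).1, (h2 P hd).2]
    exact h1 P hP hd hc

lemma Lam_sq_nonneg {g M : ℕ → ℝ} (hM : ∀ j, 0 ≤ M j) (q : ℝ[X]) : 0 ≤ Lam g M (q * q) := by
  unfold Lam
  refine tsum_nonneg fun j => ?_
  rw [eval_mul]
  exact mul_nonneg (hM j) (mul_self_nonneg _)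

/-- the case without a central zero -/
theorem resA (hGapC : CE.S_GapC) (hNB : CE.S_NB) {ι : Type} (l : Filter ι) (g μ : ℕ → ℝ) (N : ι → ℕ) (M : ι → ℕ → ℝ)
    (u : ι → ℝ → ℝ) (hF : Fam l g μ N M) (hW : Wts l g N u) (q0 : ι → ℝ[X]) (hq0 : ∀ᶠ i in l, Ex g (M i) (N i) 0 (q0 i)) :
    Res l N (fun i => Lp g (M i)) (fun i => Op (u i)) 0 (fun i => Lam g (M i) (q0 i * q0 i)) (fun z => GC g (z ^ 2)) := by
  obtain ⟨hM1, hM2⟩ := a_mainA l g μ N M u hF hW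
  obtain ⟨c0, C0, hc0, hC0, hOe⟩ := a_oeb l g μ N M u hF hW q0 hq0
  have hgn : ∀ᶠ i in l, ∀ j, 0 ≤ g j := by
    filter_upwards [hF.pm] with i hi j
    exact (lt_of_lt_of_le hi.pos (hi.mono.monotone (Nat.zero_le j))).le
  have hd : ∀ᶠ i in l, 0 < Lam g (M i) (q0 i * q0 i) := by
    filter_upwards [hF.pm, hq0] with i h1 h2
    refine h1.dfn _ h2.1 ?_
    rintro h3
    have h4 := h2.2.1
    rw [h3] at h4
    simp at h4
  have hLe : ∀ᶠ i in l, ∀ q : ℝ[X], Lp g (M i) (q.comp (X ^ 2)) = Lam g (M i) (q * q) := by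
    filter_upwards [hgn] with i hi q
    exact Lp_even g (M i) hi q
  have hOev : ∀ i, ∀ q : ℝ[X], Op (u i) (q.comp (X ^ 2)) = Oe (u i) q := by
    intro i q
    unfold Op Oe
    refine integral_congr_ae (Eventually.of_forall fun x => ?_)
    simp only [eval_comp, eval_pow, eval_X]
  obtain ⟨r, c, hr, hrg, hc, hlow⟩ := hW.low
  obtain ⟨K, hK, hnb⟩ := hNB l g μ N M u hF hW q0 hq0
  have hfull : ∀ᶠ i in l, (∀ P : ℝ[X], P ≠ 0 → Gr g (M i) (u i) (N i) P → P.eval 0 ≠ 0 ∧ (∀ z : ℂ, aeval z P = 0 → z.im = 0) ∧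
      ∃ q : ℝ[X], q ≠ 0 ∧ q.natDegree ≤ N i ∧ P = q.comp (X ^ 2) ∧
        Lam g (M i) (q * q) * Oe (u i) (q0 i) ≤ Lam g (M i) (q0 i * q0 i) * Oe (u i) q) ∧
      (∀ P P' : ℝ[X], P ≠ 0 → Gr g (M i) (u i) (N i) P → Gr g (M i) (u i) (N i) P' → ∃ c : ℝ, P' = C c * P) := by
    filter_upwards [hF.pm, hq0, hlow, hW.int, a_odd l g μ N M u hF hW q0 hq0, a_even l g μ N M u hF hW q0 hq0 0 1 one_pos] with
      i h1 h2 h3 h4 h5 h6
    refine a_uni g (M i) (N i) (u i) h1 (hW.nonneg i) (hW.even i) (hW.cont i) ?_ h4 (q0 i) h2 h5 ?_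
    · have := h3 0 (by simpa using hr.le)
      linarith
    · intro q hq hd hle
      exact (h6 q hq hd hle).1
  refine ⟨hd, ?_, fun P hP => ?_, ?_, fun K' => ?_⟩
  · filter_upwards [hM1] with i hi P hP hG
    obtain ⟨h1, h2, h3⟩ := hi P hP hG
    rw [coeff_zero_eq_eval_zero, pow_zero, one_mul]
    exact ⟨h1, h2, h3⟩
  · have h1 := hM2 P hP
    simp only [coeff_zero_eq_eval_zero]
    exact h1
  · refine ⟨max K (max (K / c0) (1 / c0)), lt_max_of_lt_left hK, ?_⟩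
    filter_upwards [hfull, hnb, hLe, hOe, hd, hF.pm] with i h1 h2 h3 h4 h5 hpm P hP hG
    obtain ⟨h6, h7, q, hq0', hqd, hPq, hle⟩ := h1.1 P hP hG
    have e1 : Lp g (M i) P = Lam g (M i) (q * q) := by rw [hPq, h3]
    have e2 : Op (u i) P = Oe (u i) q := by rw [hPq, hOev]
    have e3 : P.coeff 0 = q.eval 0 := by
      rw [coeff_zero_eq_eval_zero, hPq]
      simp
    have h8 := h2 q hqd hle
    have hOe0 : 0 ≤ Oe (u i) q := by
      unfold Oe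
      exact integral_nonneg fun x => mul_nonneg (sq_nonneg _) (hW.nonneg i x)
    have hL0 : 0 ≤ Lam g (M i) (q * q) := Lam_sq_nonneg hpm.nonneg q
    have h9 : Lam g (M i) (q * q) * c0 ≤ Lam g (M i) (q0 i * q0 i) * Oe (u i) q :=
      (mul_le_mul_of_nonneg_left h4.1 hL0).trans hle
    have h10 : Lam g (M i) (q * q) ≤ 1 / c0 * Lam g (M i) (q0 i * q0 i) * Oe (u i) q := by
      have e : 1 / c0 * Lam g (M i) (q0 i * q0 i) * Oe (u i) q = (Lam g (M i) (q0 i * q0 i) * Oe (u i) q) / c0 := by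
        field_simp
      rw [e, le_div_iff₀ hc0]
      exact h9
    have hsq : 0 ≤ q.eval 0 ^ 2 := sq_nonneg _
    have hc0' : 0 < 1 / c0 := by positivity
    have k1 : K ≤ max K (max (K / c0) (1 / c0)) := le_max_left _ _
    have k2 : K / c0 ≤ max K (max (K / c0) (1 / c0)) := (le_max_left _ _).trans (le_max_right _ _)
    have k3 : 1 / c0 ≤ max K (max (K / c0) (1 / c0)) := (le_max_right _ _).trans (le_max_right _ _)
    rw [e1, e2, e3]
    refine ⟨h8.trans (mul_le_mul_of_nonneg_right k1 hsq), ?_, h10.trans ?_⟩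
    · calc Lam g (M i) (q * q) ≤ 1 / c0 * Lam g (M i) (q0 i * q0 i) * Oe (u i) q := h10
        _ ≤ 1 / c0 * Lam g (M i) (q0 i * q0 i) * (K * q.eval 0 ^ 2) := mul_le_mul_of_nonneg_left h8 (by positivity)
        _ = K / c0 * Lam g (M i) (q0 i * q0 i) * q.eval 0 ^ 2 := by ring
        _ ≤ _ := by
          refine mul_le_mul_of_nonneg_right (mul_le_mul_of_nonneg_right k2 h5.le) hsq
    · exact mul_le_mul_of_nonneg_right (mul_le_mul_of_nonneg_right k3 h5.le) hOe0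
  · exact hGapC l g μ N M u hF hW q0 hq0 K' |>.mono fun i hi P hP hd' hc' => hi P hP hd' (by rwa [coeff_zero_eq_eval_zero] at hc')

end Pool.Agent.Q240.CG
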