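import Pool.Agent.Q240.CG.Res

set_option autoImplicit false

/-! # Project CG: part A for real polynomials with a central zero -/

open Polynomial Filter Topology Finset MeasureTheory

namespace Pool.Agent.Q240.CG

open Pool.Agent.Q240.CD

lemma tlu_const {ι : Type} (l : Filter ι) (G : ℂ → ℂ) : TendstoLocallyUniformly (fun _ : ι => G) G l := by
  intro u hu x
  exact ⟨Set.univ, univ_mem, Eventually.of_forall fun i y _ => refl_mem_uniformity hu⟩

lemma Oo_pos {u : ℝ → ℝ} {r : ℝ[X]} : Op u (X * r.comp (X ^ 2)) = Oo u r := by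
  unfold Op Oo
  refine integral_congr_ae (Eventually.of_forall fun x => ?_)
  simp only [eval_mul, eval_X, eval_comp, eval_pow]
  ring

lemma Lp0_odd {c : ℝ} {g M : ℕ → ℝ} (hg : ∀ j, 0 ≤ g j) (r : ℝ[X]) :
    Lp0 c g M (X * r.comp (X ^ 2)) = Lam g (fun j => g j * M j) (r * r) := by
  unfold Lp0 CD.Lp Lam
  have e0 : (X * r.comp (X ^ 2)).eval 0 = 0 := by simp
  rw [e0]
  simp only [ne_eq, OfNat.ofNat_ne_zero, not_false_eq_true, zero_pow, mul_zero, zero_add]
  refine tsum_congr fun j => ?_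
  have h1 : Real.sqrt (g j) ^ 2 = g j := Real.sq_sqrt (hg j)
  simp only [eval_mul, eval_X, eval_comp, eval_pow, neg_sq, h1, neg_mul]
  rw [mul_pow, h1]
  ring

/-- the case of a central zero -/
theorem resA0 (hGapC0 : S_GapC0) (hCl0 : S_Cl0) (hOeb0 : S_Oeb0) (hUni0 : S_Uni0) {ι : Type} (l : Filter ι) (c : ℝ) (g μ : ℕ → ℝ)
    (N : ι → ℕ) (M : ι → ℕ → ℝ) (u : ι → ℝ → ℝ) (hc : 0 < c) (hF : Fam0 l g μ N M) (hW : Wts l g N u) (hW4 : Wt4 l g N u)
    (r0 : ι → ℝ[X]) (hr0 : ∀ᶠ i in l, Ex g (fun j => g j * M i j) (N i - 1) 0 (r0 i)) :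
    Res l N (fun i => Lp0 c g (M i)) (fun i => Op (u i)) 1 (fun i => Lam g (fun j => g j * M i j) (r0 i * r0 i))
      (fun z => z * GC g (z ^ 2)) := by
  classical
  by_cases hl : l = ⊥
  · subst hl
    refine ⟨by simp, by simp, fun P _ => ?_, ⟨1, one_pos, by simp⟩, fun K => by simp⟩
    intro v hv x
    exact ⟨Set.univ, univ_mem, by simp⟩
  have hne : l.NeBot := ⟨hl⟩
  obtain ⟨i0, hi0⟩ := hF.fam.pm.exists
  have hmono := hi0.mono
  have hpos := hi0.pos
  have hgn : ∀ j, 0 ≤ g j := fun j => (lt_of_lt_of_le hpos (hmono.monotone (Nat.zero_le j))).le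
  obtain ⟨r, c', hr, hrg, hc', hlow⟩ := hW.low
  obtain ⟨c1, C1, hc1, hC1, hOo⟩ := hOeb0 l g μ N M u hF hW r0 hr0
  obtain ⟨⟨K1, hK1, hcl1⟩, hcl2⟩ := hCl0 l c g μ N M u hc hF hW hW4 r0 hr0
  have hd : ∀ᶠ i in l, 0 < Lam g (fun j => g j * M i j) (r0 i * r0 i) := by
    filter_upwards [hF.fam'.pm, hr0] with i h1 h2
    refine h1.dfn _ h2.1 ?_
    rintro h3
    have h4 := h2.2.1
    rw [h3] at h4
    simp at h4
  have hN1 : ∀ᶠ i in l, 1 ≤ N i := hF.fam.top.eventually_ge_atTop 1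
  have main : ∀ᶠ i in l, (∀ P : ℝ[X], P ≠ 0 → Gr0 c g (M i) (u i) (N i) P → P.coeff 1 ≠ 0 ∧ (∀ z : ℂ, aeval z P = 0 → z.im = 0) ∧
      ∃ r : ℝ[X], r ≠ 0 ∧ r.natDegree + 1 ≤ N i ∧ P = X * r.comp (X ^ 2) ∧
        Lam g (fun j => g j * M i j) (r * r) * Oo (u i) (r0 i) ≤ Lam g (fun j => g j * M i j) (r0 i * r0 i) * Oo (u i) r) ∧
      (∀ P P' : ℝ[X], P ≠ 0 → Gr0 c g (M i) (u i) (N i) P → Gr0 c g (M i) (u i) (N i) P' → ∃ k : ℝ, P' = C k * P) := by
    filter_upwards [hF.fam.pm, hr0, hlow, hW.int, hGapC0 l c g μ N M u hc hF hW hW4 r0 hr0 (1 / c1), hOo, hd, hN1] with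
      i h1 h2 h3 h4 h5 h6 h7 h8
    refine hUni0 c g (M i) (N i) (u i) hc h8 h1 (hW.nonneg i) (hW.even i) (hW.cont i) ?_ h4 (r0 i) h2 ?_
    · have := h3 0 (by simpa using hr.le)
      linarith
    · intro P hP hPd hPc
      have h9 := h5 P hP hPd hPc
      have hO : 0 < Oo (u i) (r0 i) := lt_of_lt_of_le hc1 h6.1
      have hOp : 0 ≤ Op (u i) P := by
        unfold Op
        exact integral_nonneg fun x => mul_nonneg (sq_nonneg _) (hW.nonneg i x)
      have h10 : 1 ≤ 1 / c1 * Oo (u i) (r0 i) := by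
        rw [div_mul_eq_mul_div, one_mul, le_div_iff₀ hc1, one_mul]
        exact h6.1
      calc Lam g (fun j => g j * M i j) (r0 i * r0 i) * Op (u i) P
          ≤ (1 / c1 * Oo (u i) (r0 i)) * (Lam g (fun j => g j * M i j) (r0 i * r0 i) * Op (u i) P) :=
            le_mul_of_one_le_left (mul_nonneg h7.le hOp) h10
        _ = (1 / c1 * Lam g (fun j => g j * M i j) (r0 i * r0 i) * Op (u i) P) * Oo (u i) (r0 i) := by ring
        _ < _ := mul_lt_mul_of_pos_right h9 hO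
  refine ⟨hd, ?_, fun P hP => ?_, ?_, fun K => ?_⟩
  · filter_upwards [main] with i hi P hP hG
    obtain ⟨h1, h2, q, h3, h4, h5, h6⟩ := hi.1 P hP hG
    refine ⟨h1, ?_, fun P' hP' => hi.2 P P' hP hG hP'⟩
    rw [h5, mul_comp, comp_assoc, pow_one]
    simp
  · have hq : ∃ q : ι → ℝ[X], ∀ᶠ i in l, q i ≠ 0 ∧ (q i).natDegree + 1 ≤ N i ∧ P i = X * (q i).comp (X ^ 2) ∧
        Lam g (fun j => g j * M i j) (q i * q i) * Oo (u i) (r0 i) ≤ Lam g (fun j => g j * M i j) (r0 i * r0 i) * Oo (u i) (q i) ∧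
        (∀ z : ℂ, aeval z (P i) = 0 → z.im = 0) ∧ (P i).coeff 1 ≠ 0 := by
      refine ⟨fun i => if h : ∃ q : ℝ[X], q ≠ 0 ∧ q.natDegree + 1 ≤ N i ∧ P i = X * q.comp (X ^ 2) ∧
        Lam g (fun j => g j * M i j) (q * q) * Oo (u i) (r0 i) ≤ Lam g (fun j => g j * M i j) (r0 i * r0 i) * Oo (u i) q
        then Classical.choose h else 0, ?_⟩
      filter_upwards [main, hP] with i hi hPi
      obtain ⟨h1, h2, h3⟩ := hi.1 (P i) hPi.1 hPi.2
      rw [dif_pos h3]
      have h4 := Classical.choose_spec h3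
      exact ⟨h4.1, h4.2.1, h4.2.2.1, h4.2.2.2, h2, h1⟩
    obtain ⟨q, hq⟩ := hq
    have hc0 : ∀ i, P i = X * (q i).comp (X ^ 2) → (P i).coeff 1 = (q i).eval 0 := by
      intro i h
      have h1 : (X * (q i).comp (X ^ 2)).coeff (0 + 1) = ((q i).comp (X ^ 2)).coeff 0 := coeff_X_mul _ _
      rw [h]
      rw [zero_add] at h1
      rw [h1, coeff_zero_eq_eval_zero]
      simp
    obtain ⟨hGd, hG0, hGz, hGd', hGr, hGc⟩ := a_gcb g hmono hpos hF.fam.gsum
    set T : ℝ := g 0 / 2 with hT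
    have hT0 : 0 < T := by positivity
    have hTg : T < g 0 := by rw [hT]; linarith
    have hmin : ∃ m : ℝ, 0 < m ∧ ∀ t : ℝ, 0 ≤ t → t ≤ T → m ≤ GG g t := by
      obtain ⟨t0, ht0, hmin⟩ := isCompact_Icc.exists_isMinOn (Set.nonempty_Icc.2 hT0.le) hGc.continuousOn
      refine ⟨GG g t0, ?_, fun t h0 h1 => hmin ⟨h0, h1⟩⟩
      obtain ⟨i, hi1, hi2⟩ := (hF.fam'.pm.and hr0).exists
      exact (a_low g _ (N i - 1) hi1 hF.fam.gsum (r0 i) hi2 t0 ht0.1 (lt_of_le_of_lt ht0.2 hTg)).1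
    obtain ⟨m, hm, hmin⟩ := hmin
    have hev : ∀ ε : ℝ, 0 < ε → ∀ᶠ i in l, ∀ t : ℝ, 0 ≤ t → t ≤ T →
        |(C (1 / (q i).eval 0) * q i).eval t - (r0 i).eval t| ≤ ε := by
      intro ε hε
      filter_upwards [hq, hcl2 T ε hε] with i hi hi2 t h0 h1
      obtain ⟨h3, h4⟩ := hi2 (q i) hi.1 hi.2.1 hi.2.2.2.1
      have h5 := h4 t h0 h1
      have h6 : 0 < |(q i).eval 0| := abs_pos.2 h3
      have e : (C (1 / (q i).eval 0) * q i).eval t - (r0 i).eval t =
          ((q i).eval t - (q i).eval 0 * (r0 i).eval t) / (q i).eval 0 := by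
        rw [eval_mul, eval_C]
        field_simp
      rw [e, abs_div, div_le_iff₀ h6]
      exact h5
    have hq00 : ∀ᶠ i in l, (q i).eval 0 ≠ 0 := by
      filter_upwards [hq] with i hi
      rw [← hc0 i hi.2.2.1]
      exact hi.2.2.2.2.2
    have hv := a_vit l g hmono hpos hF.fam.gsum (fun i => C (1 / (q i).eval 0) * q i) T hT0 ?_ ?_ ?_
    · have h1 : TendstoLocallyUniformly (fun i (z : ℂ) => aeval (z ^ 2) (C (1 / (q i).eval 0) * q i)) (fun z => GC g (z ^ 2)) l := by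
        have := hv.comp (fun z : ℂ => z ^ 2) (by fun_prop)
        exact this
      have h2 := (tlu_const l (fun z : ℂ => z)).mul₀ h1 continuous_id (hGd.continuous.comp (by fun_prop))
      refine tlu_congr h2 ?_
      filter_upwards [hq, hq00] with i hi h0 z
      rw [hc0 i hi.2.2.1, hi.2.2.1]
      simp only [Pi.mul_apply, map_mul, aeval_C, aeval_comp, aeval_X, map_pow]
      have h3 : ((1 / (q i).eval 0 : ℝ) : ℂ) = 1 / (((q i).eval 0 : ℝ) : ℂ) := by push_cast; rfl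
      have h4 : (algebraMap ℝ ℂ) (1 / (q i).eval 0) = ((1 / (q i).eval 0 : ℝ) : ℂ) := rfl
      rw [h4, h3]
      ring
    · filter_upwards [hq00] with i h0
      rw [eval_mul, eval_C]
      field_simp
    · filter_upwards [hq, hq00, hev (m / 2) (by positivity), hF.fam'.pm, hr0] with i hi h0 h1 hpm hqi z hz
      have hz' : aeval z (q i) = 0 := by
        rw [map_mul, aeval_C] at hz
        rcases mul_eq_zero.1 hz with h | h
        · exfalso
          have : (1 / (q i).eval 0 : ℝ) = 0 := by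
            have h2 : ((1 / (q i).eval 0 : ℝ) : ℂ) = 0 := h
            exact_mod_cast h2
          exact (one_div_ne_zero h0) this
        · exact h
      obtain ⟨w, hw⟩ : ∃ w : ℂ, w ^ 2 = z := IsAlgClosed.exists_pow_nat_eq z (by norm_num)
      have hw0 : aeval w (P i) = 0 := by
        rw [hi.2.2.1, map_mul, aeval_comp]
        simp only [map_pow, aeval_X]
        rw [hw, hz', mul_zero]
      have hwim := hi.2.2.2.2.1 w hw0
      have hwr : w = (w.re : ℂ) := by
        apply Complex.ext <;> simp [hwim]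
      have hzr : z = ((w.re ^ 2 : ℝ) : ℂ) := by
        rw [← hw, hwr]; push_cast; simp
      have hzre : z.re = w.re ^ 2 := by rw [hzr, Complex.ofReal_re]
      refine ⟨by rw [hzr, Complex.ofReal_im], ?_⟩
      by_contra hcon
      push Not at hcon
      have h2 : 0 ≤ z.re := by rw [hzre]; positivity
      have h3 := h1 z.re h2 hcon
      have h4 : (q i).eval z.re = 0 := by
        have h5 : aeval z (q i) = (((q i).eval z.re : ℝ) : ℂ) := by
          have : z = ((z.re : ℝ) : ℂ) := by rw [hzre]; exact hzr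
          conv_lhs => rw [this]
          exact aeval_ofReal' (q i) z.re
        rw [h5] at hz'
        exact_mod_cast hz'
      rw [eval_mul, h4, mul_zero, zero_sub, abs_neg] at h3
      have h6 := (a_low g _ (N i - 1) hpm hF.fam.gsum (r0 i) hqi z.re h2 (lt_of_le_of_lt hcon hTg)).2.1
      have h7 := hmin z.re h2 hcon
      have h8 := le_abs_self ((r0 i).eval z.re)
      linarith
    · intro t h0 h1
      have h2 := a_q0 l g _ _ _ hF.fam' r0 hr0 t
      have h3 : Tendsto (fun i => (C (1 / (q i).eval 0) * q i).eval t - (r0 i).eval t) l (𝓝 0) := by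
        rw [Metric.tendsto_nhds]
        intro ε hε
        filter_upwards [hev (ε / 2) (by positivity)] with i hi
        rw [Real.dist_eq, sub_zero]
        linarith [hi t h0 h1]
      have h4 := h3.add h2
      rw [zero_add] at h4
      refine h4.congr fun i => by ring
  · refine ⟨max K1 (max (K1 / c1) (1 / c1)), lt_max_of_lt_left hK1, ?_⟩
    filter_upwards [main, hcl1, hOo, hd, hF.fam'.pm] with i h1 h2 h4 h5 hpm P hP hG
    obtain ⟨h6, h7, q, hq0', hqd, hPq, hle⟩ := h1.1 P hP hG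
    have e1 : Lp0 c g (M i) P = Lam g (fun j => g j * M i j) (q * q) := by rw [hPq, Lp0_odd hgn]
    have e2 : Op (u i) P = Oo (u i) q := by rw [hPq, Oo_pos]
    have e3 : P.coeff 1 = q.eval 0 := by
      have h1 : (X * q.comp (X ^ 2)).coeff (0 + 1) = (q.comp (X ^ 2)).coeff 0 := coeff_X_mul _ _
      rw [hPq]
      rw [zero_add] at h1
      rw [h1, coeff_zero_eq_eval_zero]
      simp
    have h8 := h2 q hqd hle
    have hOe0 : 0 ≤ Oo (u i) q := by
      unfold Oo
      exact integral_nonneg fun x => mul_nonneg (by positivity) (hW.nonneg i x)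
    have hL0 : 0 ≤ Lam g (fun j => g j * M i j) (q * q) := Lam_sq_nonneg hpm.nonneg q
    have h9 : Lam g (fun j => g j * M i j) (q * q) * c1 ≤ Lam g (fun j => g j * M i j) (r0 i * r0 i) * Oo (u i) q :=
      (mul_le_mul_of_nonneg_left h4.1 hL0).trans hle
    set Λ0 : ℝ := Lam g (fun j => g j * M i j) (r0 i * r0 i) with hΛ0
    have h10 : Lam g (fun j => g j * M i j) (q * q) ≤ 1 / c1 * Λ0 * Oo (u i) q := by
      have e : 1 / c1 * Λ0 * Oo (u i) q = (Λ0 * Oo (u i) q) / c1 := by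
        field_simp
      rw [e, le_div_iff₀ hc1]
      exact h9
    have hsq : 0 ≤ q.eval 0 ^ 2 := sq_nonneg _
    have hc0' : 0 < 1 / c1 := by positivity
    have k1 : K1 ≤ max K1 (max (K1 / c1) (1 / c1)) := le_max_left _ _
    have k2 : K1 / c1 ≤ max K1 (max (K1 / c1) (1 / c1)) := (le_max_left _ _).trans (le_max_right _ _)
    have k3 : 1 / c1 ≤ max K1 (max (K1 / c1) (1 / c1)) := (le_max_right _ _).trans (le_max_right _ _)
    rw [e1, e2, e3]
    refine ⟨h8.trans (mul_le_mul_of_nonneg_right k1 hsq), ?_, h10.trans ?_⟩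
    · calc Lam g (fun j => g j * M i j) (q * q) ≤ 1 / c1 * Λ0 * Oo (u i) q := h10
        _ ≤ 1 / c1 * Λ0 * (K1 * q.eval 0 ^ 2) := mul_le_mul_of_nonneg_left h8 (by positivity)
        _ = K1 / c1 * Λ0 * q.eval 0 ^ 2 := by ring
        _ ≤ _ := by
          refine mul_le_mul_of_nonneg_right (mul_le_mul_of_nonneg_right k2 h5.le) hsq
    · exact mul_le_mul_of_nonneg_right (mul_le_mul_of_nonneg_right k3 h5.le) hOe0
  · exact (hGapC0 l c g μ N M u hc hF hW hW4 r0 hr0 K).mono fun i hi P hP hd' hc' => hi P hP hd' hc'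

end Pool.Agent.Q240.CG
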