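import Pool.Agent.Q240.CG.Def
import Pool.Agent.Q240.CD.Stm3

set_option autoImplicit false
set_option linter.unusedVariables false

/-!
# Project CG: statements of the lemma jobs

Every statement is a `def S_xxx : Prop`; prove `theorem xxx : S_xxx` in a file of your own. You may use the other statements as
hypotheses `h1 : S_yyy`, and everything in `CD/All.lean` (`CD.a_kb`, ... all proved).
-/

open Polynomial Filter Topology Finset MeasureTheory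

namespace Pool.Agent.Q240.CG

open Pool.Agent.Q240.CD

/-! ### Ports: the statements of project CD on the strip `|Im z| ≤ 1` and for general zero data -/

/-- **DomK1**: port of `CD.S_DomK` (proof in `Pool/Agent/Q289/CD/Dom.lean`) to `|Im z| ≤ 1`. -/
def S_DomK1 : Prop := ∀ (n : ℝ → ℕ) (κ : ℝ), 0 < κ → Tendsto (fun a : ℝ => (n a : ℝ) / a ^ 2) atTop (𝓝 κ) →
  ∀ K : ℕ, ∃ C : ℝ, 0 < C ∧ ∀ᶠ a in atTop, ∀ z : ℂ, |z.im| ≤ 1 → ‖Sp a (n a) z‖ ^ 2 ≤ C / (1 + ‖z‖) ^ K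

/-- **LimSum1**: port of `CD.S_LimSum` (proof in `Pool/Agent/Q289/CD/Lim.lean`) to `|Im z| ≤ 1`. Uses `S_DomK1`. -/
def S_LimSum1 : Prop := ∀ (n : ℝ → ℕ) (κ : ℝ), 0 < κ → Tendsto (fun a : ℝ => (n a : ℝ) / a ^ 2) atTop (𝓝 κ) →
  ∀ {β : Type} (m : β → ℝ) (z : β → ℂ), (∀ b, 0 ≤ m b) → (∀ b, |(z b).im| ≤ 1) → (Summable fun b => m b / (1 + ‖z b‖) ^ 2) →
    ∀ p : ℂ[X], (∀ᶠ a in atTop, Summable fun b => (m b : ℂ) * (p.eval (z b) * Sp a (n a) (z b) ^ 2)) ∧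
      (Summable fun b => (m b : ℂ) * (p.eval (z b) * Complex.exp (-(2 * ck κ * z b ^ 2)))) ∧
      Tendsto (fun a : ℝ => ∑' b, (m b : ℂ) * (p.eval (z b) * Sp a (n a) (z b) ^ 2)) atTop
        (𝓝 (∑' b, (m b : ℂ) * (p.eval (z b) * Complex.exp (-(2 * ck κ * z b ^ 2)))))

/-- **Inty1**: port of the first part of `CD.S_Inty` (proof in `Pool/Agent/Q202/CD/Inty.lean`) to `|Im z| ≤ 1`. -/
def S_Inty1 : Prop := ∀ (a : ℝ) (n : ℕ), 0 < a →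
  ∃ C : ℝ, 0 < C ∧ ∀ z : ℂ, |z.im| ≤ 1 → ‖Sp a n z‖ ^ 2 ≤ C / (1 + ‖z‖) ^ (4 * n + 2)

/-- **SumGG**: port of `CD.S_SumZ` (proof in `Pool/Agent/Q24/CD/SumZ.lean`) to zero data. Uses `S_Inty1`. -/
def S_SumGG : Prop := ∀ [D : Y23.G.ZD],
  (Summable fun ρ : Y23.G.Zt => (Y23.G.mu (ρ : ℂ) : ℝ) / (1 + ‖zg ρ‖) ^ (7 / 4 : ℝ)) ∧
  (Summable fun ρ : Y23.G.Zt => (Y23.G.mu (ρ : ℂ) : ℝ) / (1 + ‖zg ρ‖) ^ 2) ∧ (∀ ρ : Y23.G.Zt, |(zg ρ).im| ≤ 1) ∧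
  ∀ (a : ℝ) (n : ℕ) (p : ℝ[X]), 0 < a → p.natDegree ≤ 4 * n →
    Summable fun ρ : Y23.G.Zt => (Y23.G.mu (ρ : ℂ) : ℝ) * (aeval (zg ρ) p * Sp a n (zg ρ) ^ 2).re

/-- **LinG**: port of `CD.S_Lin` (proof in `Pool/Agent/Q24/CD/Lin.lean`). Uses `S_SumGG`, `CD.S_Inty`. -/
def S_LinG : Prop := ∀ [D : Y23.G.ZD] (a : ℝ) (n : ℕ), 0 < a → ∃ L O : ℝ[X] →ₗ[ℝ] ℝ,
  ∀ p : ℝ[X], p.natDegree ≤ 4 * n → L p = LG a n p ∧ O p = OZ a n p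

/-- **FormG**: port of `CD.S_Form` (proof in `Pool/Agent/Q24/CD/Lin.lean`). Uses `CD.S_SpB`, `S_SumGG`, `CD.S_Inty`. -/
def S_FormG : Prop := ∀ [D : Y23.G.ZD] (a : ℝ) (n : ℕ) (f : ℝ → ℂ) (A B : ℝ[X]), 0 < a → Y23.G.F.Hn a (n : ℕ∞) f →
  A.natDegree ≤ 2 * n → B.natDegree ≤ 2 * n →
  (∀ z : ℂ, Y23.TT f (Complex.I * z) = (aeval z A + Complex.I * aeval z B) * Sp a n z) →
  Y23.G.QQ f = LG a n (A * A) + LG a n (B * B) ∧ Y23.N2 f = OZ a n (A * A) + OZ a n (B * B)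

/-- **LimLG**: port of `CD.S_LimLZ` (proof in `Pool/Agent/Q24/CD/Lin.lean`). Uses `S_LimSum1`, `S_SumGG`. -/
def S_LimLG : Prop := ∀ [D : Y23.G.ZD] (n : ℝ → ℕ) (κ : ℝ), 0 < κ → Tendsto (fun a : ℝ => (n a : ℝ) / a ^ 2) atTop (𝓝 κ) →
  ∀ p : ℝ[X], Tendsto (fun a : ℝ => LG a (n a) p) atTop (𝓝 (LJ κ p))

/-- **PosG**: port of `CD.S_PosZ` (proof in `Pool/Agent/Q24/CD/PosZ.lean`); use `Y23.G.F.exists_data` and `GData.all` (file `Y23/F/Al.lean`) instead of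
`Z.structure_n`, and for `Kn` of the translates the definition `Kn a ν f = Hn a ν f ∧ bq (Gn a ν) f = 0` (here `Gn = 0`, as `QQ ≥ 0` and `QQ f = 0`). -/
def S_PosG : Prop := ∀ [D : Y23.G.ZD] [Y23.G.ZC], (∀ ρ : Y23.G.Zt, (ρ : ℂ).re = 1 / 2) → ∀ (a : ℝ) (ν : ℕ∞) (f : ℝ → ℂ), 0 < a →
  Y23.G.F.Hn a ν f → Y23.G.QQ f ≤ 0 → ∀ w, Y23.TT f w = 0

/-- **EnumG**: port of `CD.S_Enum` (proof in `Pool/Agent/Q177/CD2/Enum.lean`): the positive ordinates in increasing order; here there may be a zero at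
`1/2`. Uses `S_PosG`, `CD.S_RepInv`, `S_SumGG`. The sum over all zeros is that over the pairs `± γ j` and the central zero, with weight `m0`. -/
def S_EnumG : Prop := ∀ [D : Y23.G.ZD] [Y23.G.ZC] [SD], (∀ ρ : Y23.G.Zt, (ρ : ℂ).re = 1 / 2) → ∃ γ : ℕ → ℝ, StrictMono γ ∧ 0 < γ 0 ∧
  (∀ z : ℂ, (1 / 2 + Complex.I * z) ∈ D.Zs ↔ (z = 0 ∧ (1 / 2 : ℂ) ∈ D.Zs) ∨ ∃ j, z = (γ j : ℂ) ∨ z = -(γ j : ℂ)) ∧
  (∀ j, 1 ≤ mg (γ j : ℂ)) ∧ (Summable fun j => (mg (γ j : ℂ) : ℝ) / (γ j ^ 2) ^ (7 / 8 : ℝ)) ∧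
  ∀ F : ℂ → ℝ, (Summable fun ρ : Y23.G.Zt => (Y23.G.mu (ρ : ℂ) : ℝ) * F (zg ρ)) →
    HasSum (fun j => (mg (γ j : ℂ) : ℝ) * (F (γ j) + F (-(γ j : ℂ)))) (∑' ρ : Y23.G.Zt, (Y23.G.mu (ρ : ℂ) : ℝ) * F (zg ρ) - m0 * F 0)

/-! ### The case of a central zero (pure real analysis, no L-functions)

`Lp0 c g M P = c P(0)² + Lp g M P`.  Write `P = q(x²) + x r(x²)`.  For odd polynomials `Lp g M (x r(x²)) = Lam g M (X r r) = Lam g M' (r r)` with the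
masses `M' j = g j * M j`, and the ground state is now odd.  `r0` is the extremal polynomial at `0` for the masses `M'` in degree `N - 1`,
`δ' = Lam g M' (r0 r0)`. -/

/-- **GapE**: `CD.S_Gap` (proof in `Pool/Agent/Q16/CD/Gap.lean`) for polynomials of degree at most `N i` (instead of `N i - 1`) under one more moment: the same
proof with `m = N i` in `S_Kb`. Note that `Lam g M (X h h)` converges by the additional hypothesis. -/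
def S_GapE : Prop := ∀ {ι : Type} (l : Filter ι) (g μ : ℕ → ℝ) (N : ι → ℕ) (M : ι → ℕ → ℝ), Fam l g μ N M →
  (∀ᶠ i in l, Summable fun j => M i j * (1 + g j) ^ (2 * N i + 1)) →
  ∀ q0 : ι → ℝ[X], (∀ᶠ i in l, Ex g (M i) (N i) 0 (q0 i)) →
    ∀ T C ε : ℝ, 0 < ε → ∀ᶠ i in l, ∀ h : ℝ[X], h.natDegree ≤ N i →
      Lam g (M i) (X * h * h) ≤ C * Lam g (M i) (q0 i * q0 i) → ∀ t : ℝ, 0 ≤ t → t ≤ T → h.eval t ^ 2 ≤ ε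

/-- **Oeb0**: the norm of `x r0(x²)`. Uses `CD.a_kb`, `CD.a_low` for the masses `g j * M j`.
Proof: from below: for `r/2 ≤ |x| ≤ r` (`Wts.low`) `r0(x²) ≥ GG g (r²) > 0`. From above: by `S_Kb` for the masses `g j * M j`, `m = N i - 1`:
`r0(t)² ≤ Cg (1+t)² mj g (N - 2) t ^ 2`, so `x² r0(x²)² u ≤ Cg MJ u`; `Wts.tail` and `Wts.bdd`. (Compare `Pool/Agent/Q61/CD/Oeb.lean`.) -/
def S_Oeb0 : Prop := ∀ {ι : Type} (l : Filter ι) (g μ : ℕ → ℝ) (N : ι → ℕ) (M : ι → ℕ → ℝ) (u : ι → ℝ → ℝ),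
  Fam0 l g μ N M → Wts l g N u → ∀ r0 : ι → ℝ[X], (∀ᶠ i in l, Ex g (fun j => g j * M i j) (N i - 1) 0 (r0 i)) →
    ∃ c C : ℝ, 0 < c ∧ 0 < C ∧ ∀ᶠ i in l, c ≤ Oo (u i) (r0 i) ∧ Oo (u i) (r0 i) ≤ C

/-- **GapC0**: a polynomial without linear term has a much larger quotient than `x r0(x²)`. Uses `S_GapE`, `CD.a_kb`, `CD.a_gap`.
Proof: `P = q(x²) + x r(x²)`, `r(0) = P.coeff 1 = 0`, `r = X h₁`, `q = q(0) + X h₂`, `deg h₁ ≤ N - 2`, `deg h₂ ≤ N - 1`. Suppose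
`Lp0 c g M P ≤ C δ' Op P`, normalised `Op P = Oe q + Oo r = 1`. So `c q(0)² + Lam g M (q q) + Lam g M' (r r) ≤ C δ'`, where `δ' → 0` (`CD.a_del`).
`Lam g M' (X h₁ h₁) ≤ Lam g M' (r r) / g 0 ≤ C δ' / g 0`, so `h₁(t)² ≤ ε` for `t ≤ T` (`CD.a_gap` for `M'`, `N - 1`).
`Lam g M' (X h₂ h₂) = Lam g M ((q - q(0))²) ≤ 2 Lam g M (q q) + 2 q(0)² Lam g M 1 ≤ C₂ δ'` (`q(0)² ≤ C δ' / c`, `Lam g M 1` is bounded by `Fam.limP`), so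
`h₂(t)² ≤ ε` for `t ≤ T` (`S_GapE` for `M'`, `N - 1`; the moment: `g j M j (1+g j)^(2(N-1)+1) ≤ M j (1+g j)^(2N)`).
Tails by `S_Kb` for `M'` (`m = N - 1`): `r(t)² δ' ≤ Cg (1+t)² mj g (N-2) t ^ 2 Lam g M' (r r)`, so `x² r(x²)² u ≤ C' MJ u`; the same bound for `h₂` with
`Lam g M' (h₂ h₂) ≤ Lam g M' (X h₂ h₂) / g 0`, so `q(x²)² u ≤ 2 q(0)² u + 2 x⁴ h₂(x²)² u ≤ 2 q(0)² u + C' MJ4 u`. So for suitable `X` the integral over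
`|x| > X` is at most `1/2`, and that over `|x| ≤ X` tends to `0`: contradiction to `Op P = 1`. (`N i ≥ 2` eventually.) -/
def S_GapC0 : Prop := ∀ {ι : Type} (l : Filter ι) (c : ℝ) (g μ : ℕ → ℝ) (N : ι → ℕ) (M : ι → ℕ → ℝ) (u : ι → ℝ → ℝ), 0 < c →
  Fam0 l g μ N M → Wts l g N u → Wt4 l g N u → ∀ r0 : ι → ℝ[X], (∀ᶠ i in l, Ex g (fun j => g j * M i j) (N i - 1) 0 (r0 i)) →
    ∀ C : ℝ, ∀ᶠ i in l, ∀ P : ℝ[X], P ≠ 0 → P.natDegree ≤ 2 * N i → P.coeff 1 = 0 →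
      C * Lam g (fun j => g j * M i j) (r0 i * r0 i) * Op (u i) P < Lp0 c g (M i) P

/-- **Cl0**: odd almost minimisers are close to `r0`, and their norm is bounded by the linear coefficient. Uses `S_GapC0`, `S_Oeb0`, `CD.a_gap`.
Proof: write `r = r(0) r0 + X h`; orthogonality: `Lam g M' (r r) = r(0)² δ' + Lam g M' (X h X h)`. For `P = x (X h)(x²)` (`P.coeff 1 = 0`)
`Lp0 c g M P = Lam g M' (X h X h)`, `Op P = Oo (X h)`; so by `S_GapC0`, constant `K`: `K δ' Oo (X h) ≤ Lam g M' (X h X h) ≤ Lam g M' (r r) ≤ δ' Oo r / Oo r0`, so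
`Oo (X h) ≤ Oo r / (c₁ K)` and hence `Oo r ≤ C r(0)²` (`√Oo r ≤ |r(0)| √Oo r0 + √Oo (X h)`), in particular `r(0) ≠ 0`; then
`Lam g M' (X h h) ≤ Lam g M' (X h X h) / g 0 ≤ C' δ' r(0)²`, so `(h(t)/r(0))² ≤ ε'` by `CD.a_gap` (degree of `h` plus one at most `N - 1`). -/
def S_Cl0 : Prop := ∀ {ι : Type} (l : Filter ι) (c : ℝ) (g μ : ℕ → ℝ) (N : ι → ℕ) (M : ι → ℕ → ℝ) (u : ι → ℝ → ℝ), 0 < c →
  Fam0 l g μ N M → Wts l g N u → Wt4 l g N u → ∀ r0 : ι → ℝ[X], (∀ᶠ i in l, Ex g (fun j => g j * M i j) (N i - 1) 0 (r0 i)) →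
    (∃ C : ℝ, 0 < C ∧ ∀ᶠ i in l, ∀ r : ℝ[X], r.natDegree + 1 ≤ N i →
      Lam g (fun j => g j * M i j) (r * r) * Oo (u i) (r0 i) ≤ Lam g (fun j => g j * M i j) (r0 i * r0 i) * Oo (u i) r →
      Oo (u i) r ≤ C * r.eval 0 ^ 2) ∧
    ∀ T ε : ℝ, 0 < ε → ∀ᶠ i in l, ∀ r : ℝ[X], r ≠ 0 → r.natDegree + 1 ≤ N i →
      Lam g (fun j => g j * M i j) (r * r) * Oo (u i) (r0 i) ≤ Lam g (fun j => g j * M i j) (r0 i * r0 i) * Oo (u i) r →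
      r.eval 0 ≠ 0 ∧ ∀ t : ℝ, 0 ≤ t → t ≤ T → |r.eval t - r.eval 0 * (r0 i).eval t| ≤ ε * |r.eval 0|

/-- **Uni0**: the ground states are odd, real-rooted, unique: algebra, like `CD.S_Uni` (proof in `Pool/Agent/Q16/CD/Uni.lean`).
Proof: `R0 = x r0(x²)` has `Lp0 R0 = δ'`, `Op R0 = Oo r0 > 0`, degree `≤ 2 n`. Let `P ≠ 0` be a ground state, `λ = Lp0 P / Op P ≤ δ' / Oo r0`. The even part `q(x²)` and the odd
part of `P` have quotients `≥ λ` (if nonzero) and the forms split, so both have quotient `λ` (if nonzero); the even part has no linear term, so `hH` shows that it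
is `0`. So `P = x r(x²)`. Also `P.coeff 1 ≠ 0` by `hH`. If `P, P'` are ground states, `P.coeff 1 • P' - P'.coeff 1 • P` is `0` or a ground state (kernel of the
nonnegative form `Lp0 - λ Op`) without linear term, so `0`. Real zeros: as in `S_Uni` (`P (x - conj v)/(x - v) = A + i B`). -/
def S_Uni0 : Prop := ∀ (c : ℝ) (g M : ℕ → ℝ) (n : ℕ) (u : ℝ → ℝ), 0 < c → 1 ≤ n → PM g M n → (∀ x, 0 ≤ u x) → (∀ x, u (-x) = u x) → Continuous u →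
  0 < u 0 → Integrable (fun x => (1 + x ^ 2) ^ (2 * n) * u x) → ∀ r0 : ℝ[X], Ex g (fun j => g j * M j) (n - 1) 0 r0 →
  (∀ P : ℝ[X], P ≠ 0 → P.natDegree ≤ 2 * n → P.coeff 1 = 0 →
    Lam g (fun j => g j * M j) (r0 * r0) * Op u P < Lp0 c g M P * Oo u r0) →
  (∀ P : ℝ[X], P ≠ 0 → Gr0 c g M u n P → P.coeff 1 ≠ 0 ∧ (∀ z : ℂ, aeval z P = 0 → z.im = 0) ∧
      ∃ r : ℝ[X], r ≠ 0 ∧ r.natDegree + 1 ≤ n ∧ P = X * r.comp (X ^ 2) ∧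
        Lam g (fun j => g j * M j) (r * r) * Oo u r0 ≤ Lam g (fun j => g j * M j) (r0 * r0) * Oo u r) ∧
  (∀ P P' : ℝ[X], P ≠ 0 → Gr0 c g M u n P → Gr0 c g M u n P' → ∃ k : ℝ, P' = C k * P)

/-- **Fam0Z**: the concrete masses satisfy `Fam0`. Uses `CD.a_famZ` and its ingredients (proof in `Pool/Agent/Q128/CD/FamZ.lean`): the masses
`g j * M a j`, degree `n a - 1`; `sum`: `g j M j (1+g j)^(2(n-1)) ≤ M j (1+g j)^(2n)`; definiteness: `Lam g M' (q q) = Lam g M (X q q) = 0` would imply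
`M j q(g j)² = 0` for all `j`, so `Lam g M (q q) = 0`; `limP`: `Lam g M' p = Lam g M (X * p)`; `msum`, `maj`: one more power of `g j`, absorbed by the Gaussian factor. -/
def S_Fam0Z : Prop := ∀ (g m : ℕ → ℝ), StrictMono g → 0 < g 0 → (∀ j, 1 ≤ m j) → (Summable fun j => m j / g j ^ (7 / 8 : ℝ)) →
  ∀ (n : ℝ → ℕ) (κ : ℝ), 0 < κ → Tendsto (fun a : ℝ => (n a : ℝ) / a ^ 2) atTop (𝓝 κ) →
    (∀ᶠ a in atTop, ∀ q : ℝ[X], q.natDegree ≤ n a → q ≠ 0 →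
      0 < Lam g (fun j => 2 * m j * Sr a (n a) (Real.sqrt (g j)) ^ 2) (q * q)) →
    Fam0 atTop g (fun j => 2 * m j * Real.exp (-(2 * ck κ * g j))) n (fun a j => 2 * m j * Sr a (n a) (Real.sqrt (g j)) ^ 2)

/-- **Wt4Z**: the concrete weights satisfy `Wt4`. The same proof as `CD.S_WtsZ` (`Pool/Agent/Q225/CD/WtsZ.lean`): for `|x| ≤ x_{n+1}` the Gaussian bound; for
`|x| = θ x_{n+1}`, `θ ≥ 1`: `(1+x²)^4 mj g (n-2) (x²)² ≤ (1+X₁²)^4 θ^8 θ^(4(n-2)) exp (...) = (...) θ^(4n)`. -/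
def S_Wt4Z : Prop := ∀ g : ℕ → ℝ, StrictMono g → 0 < g 0 → (Summable fun j => 1 / g j ^ (7 / 8 : ℝ)) →
  ∀ (n : ℝ → ℕ) (κ : ℝ), 0 < κ → Tendsto (fun a : ℝ => (n a : ℝ) / a ^ 2) atTop (𝓝 κ) → Wt4 atTop g n (wt n)

/-- **Rate1**: the analogue of `CE.S_Rate0` for the masses `g j * M j`, degree `n - 1`.
Proof: `Q = ∏_{j<n-1} (1 - X / γ_j²)`, `Lam g M' (r0 r0) ≤ Lam g M' (Q Q) = ∑_{i ≥ n-1} γ_i² M_i Q(γ_i²)²`, `M_i = 2 m_i S(γ_i)²`. With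
`sin (a γ) = a γ ∏_{k=1}^n (1 - γ²/x_k²) S(γ)`: `γ |Q(γ²) S(γ)| = |sin (a γ)| / a * ∏_{j<n-1} |1 - γ²/γ_j²| / |1 - γ²/x_{j+2}²| * 1/|1 - γ²/x_1²|` for `γ = γ_i`, `i ≥ n-1`;
`x_{j+2} ≤ (C log (n+3)/a) γ_j`, so every factor of the product is at most `(x_{j+2}/γ_j)²`, and `|1 - γ²/x_1²|⁻¹ ≤ 2 x_1²/γ²`. So the sum is at most
`∑ 2 m_i 4 x_1⁴ / (a² γ_i⁴) (C log (n+3)/a)^(4(n-1))`. -/
def S_Rate1 : Prop := ∀ (γ m : ℕ → ℝ), StrictMono γ → 0 < γ 0 → (∀ j, 1 ≤ m j) → (Summable fun j => m j / (γ j ^ 2) ^ (7 / 8 : ℝ)) →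
  (∃ c0 : ℝ, 0 < c0 ∧ ∀ j : ℕ, c0 * (j + 1) / Real.log (j + 3) ≤ γ j) →
  ∀ (n : ℝ → ℕ) (κ c : ℝ), 0 < κ → c < 4 * κ → Tendsto (fun a : ℝ => (n a : ℝ) / a ^ 2) atTop (𝓝 κ) →
    ∀ᶠ a : ℝ in atTop, ∀ r0 : ℝ[X], PM (fun j => γ j ^ 2) (fun j => γ j ^ 2 * (2 * m j * Sr a (n a) (Real.sqrt (γ j ^ 2)) ^ 2)) (n a - 1) →
      Ex (fun j => γ j ^ 2) (fun j => γ j ^ 2 * (2 * m j * Sr a (n a) (Real.sqrt (γ j ^ 2)) ^ 2)) (n a - 1) 0 r0 →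
      Lam (fun j => γ j ^ 2) (fun j => γ j ^ 2 * (2 * m j * Sr a (n a) (Real.sqrt (γ j ^ 2)) ^ 2)) (r0 * r0) ≤ Real.exp (-(c * a ^ 2 * Real.log a))

end Pool.Agent.Q240.CG
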