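import Pool.Agent.TH839.NA.Inst

set_option autoImplicit false
set_option linter.unusedVariables false

/-!
# Project CG: the product of two L-functions (statement of a lemma job)
-/

open Complex

namespace Pool.Agent.Q240.CG

open Pool.Agent.TH839.NA (RawTL)

/-- **RawMul**: the product of two L-functions.
`RawTL θ l r N b c X` is `RawT θ l.length r N (fun j => l.get j) b c X` (file `Pool/Agent/TH839/NA/Raw.lean`).
Proof: `b = b1 ⍟ b2` (Dirichlet convolution, Mathlib: `LSeries.convolution`, `b n = ∑_{(d, e), d e = n} b1 d * b2 e`), `c = c1 + c2`, root number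
`ε1 ε2`. `one`, `cb`, `entire`, `order` (`A (1+x)^ρ + A' (1+x)^ρ' ≤ (|A| + |A'|) (1+x)^(max ρ ρ')`), `fe`, `re_ge`, `hN`, `hr` are clear (product over
`l1 ++ l2`: `List.prod` or `Fin` sums; `∏ j, f (l.get j) = (l.map f).prod`). `conv`: `Conv b c` says `b n log n = ∑_{d | n} Λ(d) c(d) b(n/d)`, i.e. in
`ArithmeticFunction ℂ` `D b = (Λ c) * b` with the derivation `D b = b · log`: `D (b1 * b2) = D b1 * b2 + b1 * D b2 = (Λ (c1 + c2)) * (b1 * b2)`.
`eq`: for large real part both series are summable (`RawT.coef`, see `RawTL.out`) and `LSeries (b1 ⍟ b2) = LSeries b1 * LSeries b2`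
(Mathlib: `LSeries_convolution'`). -/
def S_RawMul : Prop := ∀ (θ : ℝ) (l1 l2 : List ℂ) (r1 r2 : ℕ) (N1 N2 : ℝ) (b1 c1 : ℕ → ℂ) (X1 : ℂ → ℂ) (b2 c2 : ℕ → ℂ) (X2 : ℂ → ℂ),
  RawTL θ l1 r1 N1 b1 c1 X1 → RawTL θ l2 r2 N2 b2 c2 X2 →
    RawTL θ (l1 ++ l2) (r1 + r2) (N1 * N2) (LSeries.convolution b1 b2) (fun n => c1 n + c2 n) (fun s => X1 s * X2 s)

end Pool.Agent.Q240.CG
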