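import Pool.Agent.Q240.CG.Tri
import Pool.Agent.Y23.No

set_option autoImplicit false
set_option linter.unusedSectionVars false

/-! # Project CG: the symmetrisation of zero data with respect to the real line -/

open Filter Topology MeasureTheory
open scoped ComplexConjugate

namespace Pool.Agent.Q240.CG

open Pool.Agent.Q240.CD
open Y23.G (Lg)

open Classical in
/-- the weight of a point -/
noncomputable def wtD (D : Y23.G.ZD) (s : ℂ) : ℕ := if s ∈ D.Zs then D.mul s else 0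

lemma wtD_refl (D : Y23.G.ZD) (s : ℂ) : wtD D (1 - conj s) = wtD D s := by
  unfold wtD
  by_cases h : s ∈ D.Zs
  · rw [if_pos h, if_pos (D.refl s h), D.mrefl s h]
  · rw [if_neg h, if_neg]
    intro h1
    have h2 := D.refl _ h1
    rw [map_sub, map_one, Complex.conj_conj, sub_sub_cancel] at h2
    exact h h2

lemma wtD_cnt (D : Y23.G.ZD) : ∃ C : ℝ, 0 < C ∧ ∀ t : ℝ, ∀ S : Finset ℂ, (∀ s ∈ S, |s.im - t| ≤ 1) →
    ((∑ s ∈ S, wtD D s : ℕ) : ℝ) ≤ C * Lg t := by
  classical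
  obtain ⟨C, hC, h⟩ := D.cnt
  refine ⟨C, hC, fun t S hS => ?_⟩
  have h1 := h t (S.filter fun s => s ∈ D.Zs) (fun s hs => ⟨(Finset.mem_filter.1 hs).2, hS s (Finset.mem_filter.1 hs).1⟩)
  have h2 : ∑ s ∈ S, wtD D s = ∑ s ∈ S.filter (fun s => s ∈ D.Zs), D.mul s := by
    rw [Finset.sum_filter]
    rfl
  rw [h2]
  exact h1

/-- the symmetrised data -/
@[reducible] noncomputable def symD (D : Y23.G.ZD) : Y23.G.ZD where
  Zs := {s | s ∈ D.Zs ∨ conj s ∈ D.Zs}
  mul := fun s => wtD D s + wtD D (conj s)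
  strip := by
    rintro s (h | h)
    · exact D.strip s h
    · have := D.strip _ h
      rwa [Complex.conj_re] at this
  refl := by
    rintro s (h | h)
    · exact Or.inl (D.refl s h)
    · right
      have := D.refl _ h
      rwa [Complex.conj_conj, ← map_one (starRingEnd ℂ), ← Complex.conj_conj s, ← map_sub] at this
  mrefl := by
    intro s _
    rw [wtD_refl]
    congr 1
    have h := wtD_refl D (conj s)
    rw [Complex.conj_conj] at h
    rw [map_sub, map_one, Complex.conj_conj]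
    exact h
  mpos := by
    rintro s (h | h)
    · have : 1 ≤ wtD D s := by
        unfold wtD
        rw [if_pos h]
        exact D.mpos s h
      omega
    · have : 1 ≤ wtD D (conj s) := by
        unfold wtD
        rw [if_pos h]
        exact D.mpos _ h
      omega
  cnt := by
    classical
    obtain ⟨C, hC, h⟩ := wtD_cnt D
    refine ⟨2 * C, by positivity, fun t S hS => ?_⟩
    rw [Finset.sum_add_distrib]
    have h1 := h t S fun s hs => (hS s hs).2
    have h2 := h (-t) (S.image conj) (by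
      intro s hs
      obtain ⟨s', hs', rfl⟩ := Finset.mem_image.1 hs
      have h3 := (hS s' hs').2
      rw [Complex.conj_im, ← abs_neg]
      have e : -(-s'.im - -t) = s'.im - t := by ring
      rw [e]
      exact h3)
    rw [Finset.sum_image fun x _ y _ hxy => (starRingEnd ℂ).injective hxy] at h2
    have h3 : Lg (-t) = Lg t := by
      unfold Y23.G.Lg
      rw [abs_neg]
    rw [h3] at h2
    push_cast at h1 h2 ⊢
    linarith

instance sdS (D : Y23.G.ZD) : @SD (symD D) := by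
  refine @SD.mk (symD D) ?_ ?_
  · rintro s (h | h)
    · right
      rwa [Complex.conj_conj]
    · left
      exact h
  · intro s _
    show wtD D (conj s) + wtD D (conj (conj s)) = wtD D s + wtD D (conj s)
    rw [Complex.conj_conj, add_comm]

/-- sums over the zeros as sums over the plane -/
lemma tsum_zt (D : Y23.G.ZD) (F : ℂ → ℝ) :
    ∑' ρ : Y23.G.Zt (D := D), (Y23.G.mu (D := D) (ρ : ℂ) : ℝ) * F ρ = ∑' s : ℂ, (wtD D s : ℝ) * F s := by
  have h1 := tsum_subtype (D.Zs) (fun s : ℂ => (wtD D s : ℝ) * F s)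
  have h2 : (D.Zs.indicator fun s : ℂ => (wtD D s : ℝ) * F s) = fun s => (wtD D s : ℝ) * F s := by
    funext s
    by_cases h : s ∈ D.Zs
    · rw [Set.indicator_of_mem h]
    · rw [Set.indicator_of_notMem h]
      unfold wtD
      rw [if_neg h, Nat.cast_zero, zero_mul]
  rw [h2] at h1
  rw [← h1]
  refine tsum_congr fun ρ => ?_
  unfold wtD
  rw [if_pos ρ.2]
  rfl

lemma summ_zt (D : Y23.G.ZD) (F : ℂ → ℝ) :
    (Summable fun ρ : Y23.G.Zt (D := D) => (Y23.G.mu (D := D) (ρ : ℂ) : ℝ) * F ρ) ↔ Summable fun s : ℂ => (wtD D s : ℝ) * F s := by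
  have h1 := summable_subtype_iff_indicator (f := fun s : ℂ => (wtD D s : ℝ) * F s) (s := D.Zs)
  have h2 : (D.Zs.indicator fun s : ℂ => (wtD D s : ℝ) * F s) = fun s => (wtD D s : ℝ) * F s := by
    funext s
    by_cases h : s ∈ D.Zs
    · rw [Set.indicator_of_mem h]
    · rw [Set.indicator_of_notMem h]
      unfold wtD
      rw [if_neg h, Nat.cast_zero, zero_mul]
  rw [h2] at h1
  rw [← h1]
  refine summable_congr fun ρ => ?_
  simp only [Function.comp]
  unfold wtD
  rw [if_pos ρ.2]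
  rfl

lemma wtD_sym (D : Y23.G.ZD) (s : ℂ) : wtD (symD D) s = wtD D s + wtD D (conj s) := by
  classical
  have h0 : wtD (symD D) s = if s ∈ (symD D).Zs then wtD D s + wtD D (conj s) else 0 := by
    unfold wtD
    congr
  rw [h0]
  by_cases h : s ∈ (symD D).Zs
  · rw [if_pos h]
  · rw [if_neg h]
    have h1 : ¬ (s ∈ D.Zs ∨ conj s ∈ D.Zs) := h
    push Not at h1
    unfold wtD
    rw [if_neg h1.1, if_neg h1.2]

/-- the conjugation as an equivalence -/
noncomputable def cjE : ℂ ≃ ℂ := ⟨fun s => conj s, fun s => conj s, fun s => Complex.conj_conj s, fun s => Complex.conj_conj s⟩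

lemma conj_sub_half (s : ℂ) : conj s - 1 / 2 = conj (s - 1 / 2) := by
  rw [map_sub, map_div₀, map_one, map_ofNat]

lemma GG_cj (f : ℝ → ℂ) (w : ℂ) : (Y23.G.GG (fun x => conj (f x)) (fun x => conj (f x)) (conj w)).re = (Y23.G.GG f f w).re := by
  unfold Y23.G.GG
  rw [Y23.TT_cj, Y23.TT_cj, Complex.conj_conj, map_neg, Complex.conj_conj]
  simp only [Complex.mul_re, Complex.conj_re, Complex.conj_im]
  ring

/-- the domains -/
lemma dom_sym {D : Y23.G.ZD} {f : ℝ → ℂ} (h : Y23.G.Dom (D := symD D) f) :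
    Y23.G.Dom (D := D) f ∧ Y23.G.Dom (D := D) fun x => conj (f x) := by
  have h1 := (summ_zt (symD D) fun s => ‖Y23.TT f (s - 1 / 2)‖ ^ 2).1 h
  simp only [wtD_sym, Nat.cast_add, add_mul] at h1
  constructor
  · refine (summ_zt D fun s => ‖Y23.TT f (s - 1 / 2)‖ ^ 2).2 ?_
    exact Summable.of_nonneg_of_le (fun s => by positivity) (fun s => le_add_of_nonneg_right (by positivity)) h1
  · refine (summ_zt D fun s => ‖Y23.TT (fun x => conj (f x)) (s - 1 / 2)‖ ^ 2).2 ?_
    have h2 : Summable fun s : ℂ => (wtD D (conj s) : ℝ) * ‖Y23.TT f (s - 1 / 2)‖ ^ 2 :=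
      Summable.of_nonneg_of_le (fun s => by positivity) (fun s => le_add_of_nonneg_left (by positivity)) h1
    rw [← cjE.summable_iff] at h2
    refine h2.congr fun s => ?_
    simp only [Function.comp]
    have e : (cjE s) = conj s := rfl
    rw [e, Complex.conj_conj, Y23.TT_cj, RCLike.norm_conj, conj_sub_half]

lemma summ_GG {D : Y23.G.ZD} {f : ℝ → ℂ} (h : Y23.G.Dom (D := D) f) :
    Summable fun s : ℂ => (wtD D s : ℝ) * (Y23.G.GG f f (s - 1 / 2)).re := by
  rw [← summ_zt D fun s => (Y23.G.GG f f (s - 1 / 2)).re]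
  have hs : Summable (fun ρ : Y23.G.Zt (D := D) => 1 * ((Y23.G.mu (D := D) (ρ : ℂ) : ℝ) * ‖Y23.TT f ((ρ : ℂ) - 1 / 2)‖ ^ 2 +
      (Y23.G.mu (D := D) (ρ : ℂ) : ℝ) * ‖Y23.TT f (-conj ((ρ : ℂ) - 1 / 2))‖ ^ 2)) := (h.add (Y23.G.Dom.refl h)).mul_left _
  refine Summable.of_norm_bounded hs fun ρ => ?_
  rw [Real.norm_eq_abs, abs_mul, abs_of_nonneg (Nat.cast_nonneg _ : (0 : ℝ) ≤ (Y23.G.mu (D := D) (ρ : ℂ) : ℝ)), one_mul, ← mul_add]
  refine mul_le_mul_of_nonneg_left ?_ (Nat.cast_nonneg _)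
  refine (Complex.abs_re_le_norm _).trans ?_
  unfold Y23.G.GG
  rw [norm_mul, RCLike.norm_conj]
  set A := ‖Y23.TT f ((ρ : ℂ) - 1 / 2)‖
  set B := ‖Y23.TT f (-conj ((ρ : ℂ) - 1 / 2))‖
  nlinarith [sq_nonneg (A - B), sq_nonneg (A + B)]

/-- the form of the symmetrised data -/
theorem QQ_sym {D : Y23.G.ZD} {f : ℝ → ℂ} (h : Y23.G.Dom (D := symD D) f) :
    Y23.G.QQ (D := symD D) f = Y23.G.QQ (D := D) f + Y23.G.QQ (D := D) fun x => conj (f x) := by
  obtain ⟨h1, h2⟩ := dom_sym h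
  have e0 : Y23.G.QQ (D := symD D) f = ∑' s : ℂ, (wtD (symD D) s : ℝ) * (Y23.G.GG f f (s - 1 / 2)).re :=
    tsum_zt (symD D) fun s => (Y23.G.GG f f (s - 1 / 2)).re
  have e1 : Y23.G.QQ (D := D) f = ∑' s : ℂ, (wtD D s : ℝ) * (Y23.G.GG f f (s - 1 / 2)).re :=
    tsum_zt D fun s => (Y23.G.GG f f (s - 1 / 2)).re
  have e2 : Y23.G.QQ (D := D) (fun x => conj (f x)) = ∑' s : ℂ, (wtD D s : ℝ) *
      (Y23.G.GG (fun x => conj (f x)) (fun x => conj (f x)) (s - 1 / 2)).re :=
    tsum_zt D fun s => (Y23.G.GG (fun x => conj (f x)) (fun x => conj (f x)) (s - 1 / 2)).re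
  have e3 : ∑' s : ℂ, (wtD D s : ℝ) * (Y23.G.GG (fun x => conj (f x)) (fun x => conj (f x)) (s - 1 / 2)).re =
      ∑' s : ℂ, (wtD D (conj s) : ℝ) * (Y23.G.GG f f (s - 1 / 2)).re := by
    rw [← cjE.tsum_eq]
    refine tsum_congr fun s => ?_
    have e : (cjE s) = conj s := rfl
    rw [e, conj_sub_half, GG_cj]
  have s1 := summ_GG h1
  have s2 : Summable fun s : ℂ => (wtD D (conj s) : ℝ) * (Y23.G.GG f f (s - 1 / 2)).re := by
    have h3 := summ_GG h2
    rw [← cjE.summable_iff] at h3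
    refine h3.congr fun s => ?_
    simp only [Function.comp]
    have e : (cjE s) = conj s := rfl
    rw [e, conj_sub_half, GG_cj]
  rw [e0, e1, e2, e3, ← s1.tsum_add s2]
  refine tsum_congr fun s => ?_
  rw [wtD_sym, Nat.cast_add, add_mul]

/-- the form of self-dual data is invariant under the conjugation -/
theorem QQ_cj {D : Y23.G.ZD} [S : @SD D] (f : ℝ → ℂ) : Y23.G.QQ (D := D) (fun x => conj (f x)) = Y23.G.QQ (D := D) f := by
  have hw : ∀ s : ℂ, wtD D (conj s) = wtD D s := by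
    intro s
    unfold wtD
    by_cases h : s ∈ D.Zs
    · rw [if_pos h, if_pos (S.cj s h), S.mcj s h]
    · rw [if_neg h, if_neg]
      intro h1
      have h2 := S.cj _ h1
      rw [Complex.conj_conj] at h2
      exact h h2
  have e1 : Y23.G.QQ (D := D) f = ∑' s : ℂ, (wtD D s : ℝ) * (Y23.G.GG f f (s - 1 / 2)).re :=
    tsum_zt D fun s => (Y23.G.GG f f (s - 1 / 2)).re
  have e2 : Y23.G.QQ (D := D) (fun x => conj (f x)) = ∑' s : ℂ, (wtD D s : ℝ) *
      (Y23.G.GG (fun x => conj (f x)) (fun x => conj (f x)) (s - 1 / 2)).re :=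
    tsum_zt D fun s => (Y23.G.GG (fun x => conj (f x)) (fun x => conj (f x)) (s - 1 / 2)).re
  rw [e1, e2, ← cjE.tsum_eq]
  refine tsum_congr fun s => ?_
  have e : (cjE s) = conj s := rfl
  rw [e, conj_sub_half, GG_cj, hw]

lemma Lg_even (v : ℝ) : Lg (-v) = Lg v := by
  unfold Y23.G.Lg
  rw [abs_neg]

/-- coercivity -/
instance zcS (D : Y23.G.ZD) [EC : @Y23.G.ZC D] : @Y23.G.ZC (symD D) := @Y23.G.ZC.mk (symD D) <| by
    intro a ha
    obtain ⟨C, hC, h⟩ := EC.co a ha
    refine ⟨2 * C, by positivity, fun f hf hD => ?_⟩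
    obtain ⟨h1, h2⟩ := dom_sym hD
    obtain ⟨h3, h4⟩ := h f hf h1
    obtain ⟨h5, h6⟩ := h (fun x => conj (f x)) (Y23.Fa_cj hf) h2
    refine ⟨h3, ?_⟩
    have e1 : ∫ v : ℝ, Lg v * ‖Y23.TT (fun x => conj (f x)) (v * Complex.I)‖ ^ 2 = ∫ v : ℝ, Lg v * ‖Y23.TT f (v * Complex.I)‖ ^ 2 := by
      rw [← integral_neg_eq_self]
      refine integral_congr_ae (Eventually.of_forall fun v => ?_)
      simp only
      rw [Y23.TT_cj, RCLike.norm_conj, Lg_even]
      congr 4
      simp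
    have e2 : Y23.N2 (fun x => conj (f x)) = Y23.N2 f := Y23.N2_cj f
    rw [e1, e2] at h6
    rw [QQ_sym hD]
    have h7 : 0 ≤ ∫ v : ℝ, Lg v * ‖Y23.TT f (v * Complex.I)‖ ^ 2 := Y23.G.LL_nonneg f
    have hpi := Real.pi_pos
    linarith

end Pool.Agent.Q240.CG
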