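import Pool.Agent.Q240.CG.Stm
import Pool.Agent.Q240.CD.ThB
import Pool.Agent.Q240.CE.Lyap

set_option autoImplicit false

/-! # Project CG: assembly of part B for general zero data -/

open Polynomial Filter Topology Finset MeasureTheory

namespace Pool.Agent.Q240.CG

open Pool.Agent.Q240.CD

section

variable [D : Y23.G.ZD]

/-- a ground state of degree at most `n` -/
def GdG (a : ℝ) (n : ℕ) (f : ℝ → ℂ) : Prop := Y23.G.F.Hn a (n : ℕ∞) f ∧
  ∀ h : ℝ → ℂ, Y23.G.F.Hn a (n : ℕ∞) h → Y23.G.QQ f * Y23.N2 h ≤ Y23.G.QQ h * Y23.N2 f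

lemma LG_zero (a : ℝ) (n : ℕ) : LG a n 0 = 0 := by simp [LG]

lemma real_elemG (hRepInv : S_RepInv) (hForm : S_FormG) {a : ℝ} {n : ℕ} (ha : 0 < a) (A : ℝ[X]) (hA : A.natDegree ≤ 2 * n) :
    ∃ f : ℝ → ℂ, Y23.G.F.Hn a (n : ℕ∞) f ∧ Y23.G.QQ f = LG a n (A * A) ∧ Y23.N2 f = OZ a n (A * A) ∧
      ∀ z : ℂ, Y23.TT f (Complex.I * z) = aeval z A * Sp a n z := by
  obtain ⟨f, hf, h1⟩ := hRepInv a n (A.map (algebraMap ℝ ℂ)) ha ((natDegree_map_le).trans hA)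
  have h2 : ∀ z : ℂ, Y23.TT f (Complex.I * z) = aeval z A * Sp a n z := by
    intro z
    rw [h1, eval_map_algebraMap]
  have h3 := hForm a n f A 0 ha hf hA (by simp) (fun z => by rw [h2]; simp)
  rw [mul_zero, LG_zero, OZ_zero, add_zero, add_zero] at h3
  exact ⟨f, hf, h3.1, h3.2, h2⟩

variable [EC : Y23.G.ZC]

lemma Kn_min {a : ℝ} (ha : 0 < a) {ν : ℕ∞} {e : ℝ → ℂ} (he : Y23.G.F.Kn a ν e) :
    ∀ g : ℝ → ℂ, Y23.G.F.Hn a ν g → Y23.G.QQ e * Y23.N2 g ≤ Y23.G.QQ g * Y23.N2 e := by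
  intro g hg
  have h1 : Y23.G.QQ e - Y23.G.F.Gn a ν * Y23.N2 e = 0 := he.2
  have h2 : 0 ≤ Y23.G.QQ g - Y23.G.F.Gn a ν * Y23.N2 g := Y23.G.F.bq_nonneg ha hg
  have h3 := Y23.N2_nonneg e
  have h4 := Y23.N2_nonneg g
  have h5 : Y23.G.QQ e = Y23.G.F.Gn a ν * Y23.N2 e := by linarith
  rw [h5]
  nlinarith

/-- the quadrature -/
lemma quadG (hRepInv : S_RepInv) (hRep : S_Rep) (hLin : S_LinG) (hForm : S_FormG) (hQuad : S_Quad) (a : ℝ) (n : ℕ) (ha : 0 < a) :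
    ∃ (lam : ℝ) (Z : Finset ℝ) (w : ℝ → ℝ), (∀ z, 0 ≤ w z) ∧
      (∀ h : ℝ → ℂ, Y23.G.F.Hn a (n : ℕ∞) h → lam * Y23.N2 h ≤ Y23.G.QQ h) ∧
      (∀ P : ℝ[X], P.natDegree + 1 ≤ 2 * n → LG a n (P * P) - lam * OZ a n (P * P) = ∑ z ∈ Z, w z * P.eval z ^ 2) ∧
      ∀ f : ℝ → ℂ, GdG a n f → ∀ z ∈ Z, Y23.TT f (Complex.I * z) = 0 := by
  obtain ⟨e, hK, hN0⟩ := Y23.G.F.exists_ground (ν := (n : ℕ∞)) ha
  have hN : Y23.N2 e ≠ 0 := hN0.ne'
  have heH : Y23.G.F.Hn a (n : ℕ∞) e := hK.1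
  have hmin := Kn_min ha hK
  set lam : ℝ := Y23.G.QQ e / Y23.N2 e with hlam
  have hQe : Y23.G.QQ e = lam * Y23.N2 e := by rw [hlam]; field_simp
  have hlow : ∀ h : ℝ → ℂ, Y23.G.F.Hn a (n : ℕ∞) h → lam * Y23.N2 h ≤ Y23.G.QQ h := by
    intro h hh
    have h1 := hmin h hh
    rw [hlam, div_mul_eq_mul_div, div_le_iff₀ hN0]
    exact h1
  obtain ⟨L, O, hLO⟩ := hLin a n ha
  set Q : ℝ[X] →ₗ[ℝ] ℝ := L - lam • O with hQ
  have hQv : ∀ p : ℝ[X], p.natDegree ≤ 4 * n → Q p = LG a n p - lam * OZ a n p := by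
    intro p hp
    rw [hQ, LinearMap.sub_apply, LinearMap.smul_apply, (hLO p hp).1, (hLO p hp).2, smul_eq_mul]
  have hQ0 : ∀ P : ℝ[X], P.natDegree ≤ 2 * n → 0 ≤ Q (P * P) := by
    intro P hP
    obtain ⟨f, hf, h1, h2, -⟩ := real_elemG hRepInv hForm ha P hP
    rw [hQv _ (natDegree_mul_self_le hP), ← h1, ← h2]
    have := hlow f hf
    linarith
  -- the null polynomials of a ground state
  have hnull : ∀ f : ℝ → ℂ, Y23.G.F.Hn a (n : ℕ∞) f → Y23.G.QQ f ≤ lam * Y23.N2 f → ∃ A B : ℝ[X], A.natDegree ≤ 2 * n ∧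
      B.natDegree ≤ 2 * n ∧ Q (A * A) = 0 ∧ Q (B * B) = 0 ∧
      (∀ z : ℂ, Y23.TT f (Complex.I * z) = (aeval z A + Complex.I * aeval z B) * Sp a n z) ∧
      Y23.N2 f = OZ a n (A * A) + OZ a n (B * B) := by
    intro f hf hle
    obtain ⟨P, hP, h1⟩ := hRep a n f ha hf
    obtain ⟨A, B, hA, hB, h2⟩ := split_re _ P hP
    have h3 : ∀ z : ℂ, Y23.TT f (Complex.I * z) = (aeval z A + Complex.I * aeval z B) * Sp a n z := by
      intro z
      rw [h1, h2]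
    obtain ⟨h4, h5⟩ := hForm a n f A B ha hf hA hB h3
    have h6 := hQ0 A hA
    have h7 := hQ0 B hB
    have h8 : Q (A * A) + Q (B * B) ≤ 0 := by
      rw [hQv _ (natDegree_mul_self_le hA), hQv _ (natDegree_mul_self_le hB)]
      rw [h4, h5] at hle
      linarith
    exact ⟨A, B, hA, hB, by linarith, by linarith, h3, h5⟩
  obtain ⟨A, B, hA, hB, hA0, hB0, -, hNe⟩ := hnull e heH hQe.le
  have hex : ∃ P : ℝ[X], P ≠ 0 ∧ P.natDegree ≤ 2 * n ∧ Q (P * P) = 0 := by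
    by_cases h : A = 0
    · by_cases h' : B = 0
      · exfalso
        rw [h, h', mul_zero, OZ_zero] at hNe
        simp at hNe
        exact hN hNe
      · exact ⟨B, h', hB, hB0⟩
    · exact ⟨A, h, hA, hA0⟩
  obtain ⟨Z, w, hw, hq, hz⟩ := hQuad (2 * n) Q hQ0 hex
  refine ⟨lam, Z, w, hw, hlow, fun P hP => ?_, fun f hf z hzZ => ?_⟩
  · rw [← hq P hP, hQv _ (natDegree_mul_self_le (by omega))]
  · have h1 : Y23.G.QQ f ≤ lam * Y23.N2 f := by
      have h2 := hf.2 e heH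
      rw [hlam, div_mul_eq_mul_div, le_div_iff₀ hN0]
      exact h2
    obtain ⟨A', B', hA', hB', h3, h4, h5, -⟩ := hnull f hf.1 h1
    rw [h5, aeval_real, aeval_real, hz A' hA' h3 z hzZ, hz B' hB' h4 z hzZ]
    simp

end

/-- part B: if the Riemann hypothesis fails, the lowest eigenvalue tends to minus infinity, and the zeros are dense -/
def S_ThBG : Prop := ∀ [_D : Y23.G.ZD] [Y23.G.ZC], (∃ ρ : Y23.G.Zt, (ρ : ℂ).re ≠ 1 / 2) →
  ∀ (n : ℝ → ℕ) (κ : ℝ), 0 < κ → Tendsto (fun a : ℝ => (n a : ℝ) / a ^ 2) atTop (𝓝 κ) →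
  ∀ n' : ℝ → ℕ, (∀ᶠ a in atTop, n a ≤ n' a) →
    (∀ B : ℝ, ∀ᶠ a in atTop, ∃ f : ℝ → ℂ, Y23.G.F.Hn a (n' a : ℕ∞) f ∧ 0 < Y23.N2 f ∧ Y23.G.QQ f < -B * Y23.N2 f) ∧
    ∀ (s t : ℝ) (C : ℕ), s < t → ∀ᶠ a in atTop, ∀ f : ℝ → ℂ, GdG a (n' a) f →
      ∃ S : Finset ℝ, C ≤ S.card ∧ ∀ x ∈ S, s < x ∧ x < t ∧ Y23.TT f (Complex.I * x) = 0

lemma sq_over {n : ℝ → ℕ} {κ : ℝ} (hκ : 0 < κ) (hn : Tendsto (fun a : ℝ => (n a : ℝ) / a ^ 2) atTop (𝓝 κ)) :
    Tendsto (fun a : ℝ => (n a : ℝ) / a) atTop atTop := by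
  have h1 : Tendsto (fun a : ℝ => (n a : ℝ) / a ^ 2 * a) atTop atTop := Tendsto.pos_mul_atTop hκ hn tendsto_id
  refine h1.congr' ?_
  filter_upwards [eventually_gt_atTop 0] with a ha
  field_simp

theorem thBG (hTest : CE.S_Test) (hSpB : S_SpB) (hRepInv : S_RepInv) (hRep : S_Rep) (hLin : S_LinG) (hForm : S_FormG) (hLimLG : S_LimLG)
    (hLimInt : S_LimInt) (hQuad : S_Quad) (hDense : S_Dense) (hSpR : S_SpR) : S_ThBG := by
  rintro D EC ⟨ρ0, hρ0⟩ n κ hκ hn n' hn'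
  have htop := n_top hκ hn
  have hck : 0 < ck κ := by unfold ck; positivity
  have hover : Tendsto (fun a : ℝ => (n' a : ℝ) / a) atTop atTop := by
    refine tendsto_atTop_mono' _ ?_ (sq_over hκ hn)
    filter_upwards [hn', eventually_gt_atTop 0] with a h1 h2
    exact div_le_div_of_nonneg_right (by exact_mod_cast h1) h2.le
  have part1 : ∀ B : ℝ, ∀ᶠ a in atTop, ∃ f : ℝ → ℂ, Y23.G.F.Hn a (n' a : ℕ∞) f ∧ 0 < Y23.N2 f ∧ Y23.G.QQ f < -B * Y23.N2 f := by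
    intro B
    -- a zero to the right of the line
    obtain ⟨s0, hs0, hs1⟩ : ∃ s ∈ D.Zs, 1 / 2 < s.re := by
      rcases lt_or_gt_of_ne hρ0 with h | h
      · refine ⟨1 - (starRingEnd ℂ) (ρ0 : ℂ), D.refl _ ρ0.2, ?_⟩
        simp
        linarith
      · exact ⟨ρ0, ρ0.2, h⟩
    set σ : ℝ := (s0.re - 1 / 2) / 2 with hσ
    have hσ0 : 0 < σ := by rw [hσ]; linarith
    have hE : ((1 : ℕ) : ℕ∞) ≤ {s : ℂ | s ∈ D.Zs ∧ σ < s.re - 1 / 2}.encard := by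
      rw [Nat.cast_one, Set.one_le_encard_iff_nonempty]
      exact ⟨s0, hs0, by rw [hσ]; linarith⟩
    have h1 := CE.evs_test (D := D) hTest n' hover 1 σ hσ0.le hE
    have h2 : ∀ᶠ a : ℝ in atTop, B < Real.exp (2 * σ * a) :=
      (Real.tendsto_exp_atTop.comp (tendsto_id.const_mul_atTop (by positivity : 0 < 2 * σ))).eventually_gt_atTop B
    filter_upwards [h1, h2, eventually_gt_atTop 0] with a ⟨V, hV, hk, hx⟩ hB ha
    have hfd : FiniteDimensional ℂ V := Module.finite_of_finrank_pos (by omega)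
    have hnt : Nontrivial V := Module.nontrivial_of_finrank_pos (R := ℂ) (by omega)
    obtain ⟨f, hf⟩ := exists_ne (0 : V)
    have hf0 : (f : ℝ → ℂ) ≠ 0 := fun h => hf (Subtype.ext h)
    have h3 := CE.Tg_pos ha (hV f f.2) hf0
    refine ⟨f, Tg_Hn ha (hV f f.2), h3, ?_⟩
    have h4 := hx f f.2
    nlinarith
  refine ⟨part1, ?_⟩
  intro s t C hst
  have H : ∀ a : ℝ, 0 < a → ∃ (lam : ℝ) (Z : Finset ℝ) (w : ℝ → ℝ), (∀ z, 0 ≤ w z) ∧
      (∀ h : ℝ → ℂ, Y23.G.F.Hn a (n' a : ℕ∞) h → lam * Y23.N2 h ≤ Y23.G.QQ h) ∧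
      (∀ P : ℝ[X], P.natDegree + 1 ≤ 2 * n' a → LG a (n' a) (P * P) - lam * OZ a (n' a) (P * P) = ∑ z ∈ Z, w z * P.eval z ^ 2) ∧
      ∀ f : ℝ → ℂ, GdG a (n' a) f → ∀ z ∈ Z, Y23.TT f (Complex.I * z) = 0 :=
    fun a ha => quadG hRepInv hRep hLin hForm hQuad a (n' a) ha
  choose! lam Z w hw hlow hsum hgd using H
  have hlam : Tendsto lam atTop atBot := by
    rw [tendsto_atBot]
    intro b
    filter_upwards [part1 (-b), eventually_gt_atTop 0] with a ⟨f, hf, hN, hq⟩ ha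
    have h1 := hlow a ha f hf
    have h2 : lam a * Y23.N2 f < b * Y23.N2 f := by rw [neg_neg] at hq; exact lt_of_le_of_lt h1 hq
    exact (lt_of_mul_lt_mul_right h2 hN.le).le
  set R : ℝ → ℝ[X] := fun a => Rf a (n a) (n' a - n a) with hR
  have hpi := Real.pi_pos
  have hnn : ∀ a z, 0 ≤ 2 * Real.pi * |w a z| * (R a).eval z ^ 2 / |lam a| := fun a z => by positivity
  have hten : ∀ P : ℝ[X], Tendsto (fun a => ∑ z ∈ Z a, 2 * Real.pi * |w a z| * (R a).eval z ^ 2 / |lam a| * P.eval z ^ 2) atTop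
      (𝓝 (∫ x : ℝ, P.eval x ^ 2 * Real.exp (-(2 * ck κ * x ^ 2)))) := by
    intro P
    have h1 := hLimLG n κ hκ hn (P * P)
    have h2 := hLimInt n κ hκ hn (P * P)
    have h3 : Tendsto (fun a => 2 * Real.pi * (LG a (n a) (P * P) / |lam a|) + 2 * Real.pi * OZ a (n a) (P * P)) atTop
        (𝓝 (2 * Real.pi * 0 + 2 * Real.pi * (1 / (2 * Real.pi) * ∫ x : ℝ, (P * P).eval x * Real.exp (-(2 * ck κ * x ^ 2))))) := by
      refine (Tendsto.const_mul _ ?_).add (h2.const_mul _)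
      refine h1.div_atTop ?_
      exact tendsto_abs_atBot_atTop.comp hlam
    have h4 : 2 * Real.pi * 0 + 2 * Real.pi * (1 / (2 * Real.pi) * ∫ x : ℝ, (P * P).eval x * Real.exp (-(2 * ck κ * x ^ 2))) =
        ∫ x : ℝ, P.eval x ^ 2 * Real.exp (-(2 * ck κ * x ^ 2)) := by
      have : (fun x : ℝ => (P * P).eval x * Real.exp (-(2 * ck κ * x ^ 2))) =
          fun x : ℝ => P.eval x ^ 2 * Real.exp (-(2 * ck κ * x ^ 2)) := by
        funext x
        rw [eval_mul, ← sq]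
      rw [this]
      field_simp
      ring
    rw [h4] at h3
    refine h3.congr' ?_
    filter_upwards [hlam.eventually_lt_atBot 0, eventually_gt_atTop 0, hn', htop.eventually_ge_atTop (P.natDegree + 1)] with
      a hl ha hnn' hdeg
    have hRd := Rf_deg a (n a) (n' a - n a)
    have h5 := hsum a ha (P * R a) (by
      have := natDegree_mul_le (p := P) (q := R a)
      simp only [hR] at this ⊢
      omega)
    have hS : ∀ z : ℂ, aeval z (R a) * Sp a (n' a) z = Sp a (n a) z := by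
      intro z
      rw [hSpR a (n a) (n' a - n a) z ha, Nat.add_sub_cancel' hnn', hR, Rf_aeval]
    have h6 : LG a (n' a) (P * R a * (P * R a)) = LG a (n a) (P * P) := by
      unfold LG
      refine tsum_congr fun ρ => ?_
      rw [← hS (zg ρ)]
      congr 2
      simp only [map_mul]
      ring
    have h7 : OZ a (n' a) (P * R a * (P * R a)) = OZ a (n a) (P * P) := by
      unfold OZ
      congr 1
      refine integral_congr_ae (Eventually.of_forall fun x => ?_)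
      have h8 : (R a).eval x * Sr a (n' a) x = Sr a (n a) x := by
        have h9 := hS (x : ℂ)
        rw [aeval_real, (hSpB a (n' a)).2.2.2.1, (hSpB a (n a)).2.2.2.1] at h9
        exact_mod_cast h9
      simp only
      rw [← h8]
      simp only [eval_mul]
      ring
    rw [h6, h7] at h5
    have h10 : 0 < |lam a| := abs_pos.2 hl.ne
    have h11 : |lam a| = -lam a := abs_of_neg hl
    have h12 : ∑ z ∈ Z a, 2 * Real.pi * |w a z| * (R a).eval z ^ 2 / |lam a| * P.eval z ^ 2 =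
        2 * Real.pi / |lam a| * ∑ z ∈ Z a, w a z * (P * R a).eval z ^ 2 := by
      rw [mul_sum]
      refine sum_congr rfl fun z _ => ?_
      rw [abs_of_nonneg (hw a ha z), eval_mul]
      ring
    rw [h12, ← h5]
    field_simp
    rw [h11]
    ring
  filter_upwards [hDense atTop (ck κ) hck Z _ hnn hten s t C hst, eventually_gt_atTop 0] with a h1 ha f hf
  refine ⟨_, h1, fun x hx => ?_⟩
  rw [mem_filter] at hx
  exact ⟨hx.2.1, hx.2.2, hgd a ha f hf x hx.1⟩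

end Pool.Agent.Q240.CG
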