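import Pool.Agent.Q240.CG.Res0
import Pool.Agent.Q240.CG.ThB
import Pool.Agent.Q24.CD.PosZ

set_option autoImplicit false

/-! # Project CG: part A for general self-dual zero data -/

open Polynomial Filter Topology Finset MeasureTheory

namespace Pool.Agent.Q240.CG

open Pool.Agent.Q240.CD

/-- the data of the enumeration of the positive ordinates -/
structure ENG [D : Y23.G.ZD] (γ : ℕ → ℝ) : Prop where
  mono : StrictMono γ
  pos : 0 < γ 0
  zer : ∀ z : ℂ, (1 / 2 + Complex.I * z) ∈ D.Zs ↔ (z = 0 ∧ (1 / 2 : ℂ) ∈ D.Zs) ∨ ∃ j, z = (γ j : ℂ) ∨ z = -(γ j : ℂ)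
  m1 : ∀ j, 1 ≤ mg (γ j : ℂ)
  sum : Summable fun j => (mg (γ j : ℂ) : ℝ) / (γ j ^ 2) ^ (7 / 8 : ℝ)
  tot : ∀ F : ℂ → ℝ, (Summable fun ρ : Y23.G.Zt => (Y23.G.mu (ρ : ℂ) : ℝ) * F (zg ρ)) →
    HasSum (fun j => (mg (γ j : ℂ) : ℝ) * (F (γ j) + F (-(γ j : ℂ)))) (∑' ρ : Y23.G.Zt, (Y23.G.mu (ρ : ℂ) : ℝ) * F (zg ρ) - m0 * F 0)

lemma even_zero {a : ℝ} (ha : 0 < a) {n : ℕ} {q : ℝ[X]} {f : ℝ → ℂ} (h1 : ∀ w, Y23.TT f w = 0)
    (h2 : ∀ z : ℂ, Y23.TT f (Complex.I * z) = aeval z (q.comp (X ^ 2)) * Sp a n z) : q = 0 := by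
  by_contra hq0
  have hx1 : 0 < xk a (n + 1) := by unfold xk; positivity
  have h5 : ∀ x : ℝ, x ∈ Set.Ioo 0 (xk a (n + 1)) → (q.comp (X ^ 2)).eval x = 0 := by
    intro x hx
    have h6 := h2 (x : ℂ)
    rw [h1, aeval_real] at h6
    rcases mul_eq_zero.1 h6.symm with h7 | h7
    · exact_mod_cast h7
    · exfalso
      obtain ⟨k, -, hk⟩ := ((a_spB a n).2.2.2.2.2.2 (x : ℂ)).1 h7
      have h8 : x ^ 2 = xk a (n + 1 + k) ^ 2 := by exact_mod_cast hk
      have h9 : xk a (n + 1) ≤ xk a (n + 1 + k) := by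
        unfold xk
        refine div_le_div_of_nonneg_right ?_ ha.le
        refine mul_le_mul_of_nonneg_left ?_ Real.pi_pos.le
        push_cast
        have : (0 : ℝ) ≤ k := Nat.cast_nonneg k
        linarith
      have h10 : x ^ 2 < xk a (n + 1 + k) ^ 2 := pow_lt_pow_left₀ (lt_of_lt_of_le hx.2 h9) hx.1.le two_ne_zero
      exact h10.ne h8
  have h6 : q.comp (X ^ 2) = 0 := by
    refine Polynomial.eq_zero_of_infinite_isRoot _ ((Set.Ioo_infinite hx1).mono fun x hx => ?_)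
    exact h5 x hx
  rcases comp_eq_zero_iff.1 h6 with h7 | h7
  · exact hq0 h7
  · have h8 := h7.2
    have h9 := congrArg natDegree h8
    rw [natDegree_X_pow, natDegree_C] at h9
    omega

section

variable [D : Y23.G.ZD]

lemma ENG.gpos {γ : ℕ → ℝ} (h : ENG γ) (j : ℕ) : 0 < γ j := lt_of_lt_of_le h.pos (h.mono.monotone (Nat.zero_le j))

/-- the parity of the ground state -/
noncomputable def par : ℕ := if (m0 : ℕ) = 0 then 0 else 1

/-- the masses -/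
noncomputable def MG (γ : ℕ → ℝ) (n : ℝ → ℕ) (a : ℝ) (j : ℕ) : ℝ :=
  2 * (mg (γ j : ℂ) : ℝ) * Sr a (n a) (Real.sqrt (γ j ^ 2)) ^ 2

lemma LG_Lp0 (hSum : S_SumGG) {γ : ℕ → ℝ} (h : ENG γ) (n : ℝ → ℕ) {a : ℝ} (ha : 0 < a) (P : ℝ[X]) (hP : P.natDegree ≤ 2 * n a) :
    LG a (n a) (P * P) = Lp0 m0 (fun j => γ j ^ 2) (MG γ n a) P := by
  have h1 := h.tot (fun z => (aeval z (P * P) * Sp a (n a) z ^ 2).re) (hSum.2.2.2 a (n a) (P * P) ha (natDegree_mul_self_le hP))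
  have h0 : (aeval (0 : ℂ) (P * P) * Sp a (n a) 0 ^ 2).re = P.eval 0 ^ 2 := by
    have h2 := aeval_real (P * P) 0
    rw [Complex.ofReal_zero] at h2
    rw [h2, (a_spB a (n a)).2.2.1, one_pow, mul_one, Complex.ofReal_re, eval_mul, sq]
  have h2 : LG a (n a) (P * P) = (LG a (n a) (P * P) - m0 * P.eval 0 ^ 2) + m0 * P.eval 0 ^ 2 := by ring
  rw [h0] at h1
  have h3 : CD.Lp (fun j => γ j ^ 2) (MG γ n a) P = LG a (n a) (P * P) - m0 * P.eval 0 ^ 2 := by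
    rw [LG, ← h1.tsum_eq]
    unfold CD.Lp MG
    refine tsum_congr fun j => ?_
    have e0 : Real.sqrt (γ j ^ 2) = γ j := Real.sqrt_sq (h.gpos j).le
    have hev : Sp a (n a) (-(γ j : ℂ)) = Sp a (n a) (γ j : ℂ) := (a_spB a (n a)).2.2.2.2.1 _
    have e1 : ∀ x : ℝ, (aeval (x : ℂ) (P * P) * ((Sr a (n a) (γ j) : ℝ) : ℂ) ^ 2).re = P.eval x ^ 2 * Sr a (n a) (γ j) ^ 2 := by
      intro x
      rw [aeval_real, ← Complex.ofReal_pow, ← Complex.ofReal_mul, Complex.ofReal_re, eval_mul]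
      ring
    have e2 : (-(γ j : ℂ)) = ((-γ j : ℝ) : ℂ) := by push_cast; rfl
    simp only
    rw [hev, (a_spB a (n a)).2.2.2.1 (γ j), e1, e2, e1, e0]
    ring
  unfold Lp0
  rw [h3]
  ring

/-- a transform which vanishes at all zeros except possibly the central one is zero -/
lemma unique_set (hPos : S_PosG) [EC : Y23.G.ZC] (hRH : ∀ ρ : Y23.G.Zt, (ρ : ℂ).re = 1 / 2) {a : ℝ} (ha : 0 < a) {ν : ℕ∞} {f : ℝ → ℂ}
    (hf : Y23.G.F.Hn a ν f) (h0 : ∀ s ∈ D.Zs, s ≠ 1 / 2 → Y23.TT f (s - 1 / 2) = 0) (w : ℂ) : Y23.TT f w = 0 := by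
  have h1 := Q24.CD.Hn_shift hf (τ := 1) (by simp)
  have h2 := Q24.CD.Hn_shift hf (τ := -1) (by simp)
  have h3 := h1.sub h2
  have hT : ∀ w, Y23.TT (fun x => f (x - 1) - f (x - -1)) w = (Complex.exp w - Complex.exp (-w)) * Y23.TT f w := by
    intro w
    have e := Y23.TT_sub h1.1 h2.1 w
    rw [e, Q24.CD.TT_shift, Q24.CD.TT_shift]
    push_cast
    ring_nf
  have hQ : Y23.G.QQ (fun x => f (x - 1) - f (x - -1)) ≤ 0 := by
    unfold Y23.G.QQ
    have h4 : ∀ ρ : Y23.G.Zt, Y23.TT (fun x => f (x - 1) - f (x - -1)) ((ρ : ℂ) - 1 / 2) = 0 := by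
      intro ρ
      rw [hT]
      by_cases h : (ρ : ℂ) = 1 / 2
      · rw [h]; simp
      · rw [h0 _ ρ.2 h, mul_zero]
    have h5 : (fun ρ : Y23.G.Zt => (Y23.G.mu (ρ : ℂ) : ℝ) *
        (Y23.G.GG (fun x => f (x - 1) - f (x - -1)) (fun x => f (x - 1) - f (x - -1)) ((ρ : ℂ) - 1 / 2)).re) = fun _ => 0 := by
      funext ρ
      unfold Y23.G.GG
      rw [h4]
      simp
    rw [h5, tsum_zero]
  have h5 := hPos hRH (a + 1) ⊤ _ (by linarith) h3 hQ
  have hc : Continuous (Y23.TT f) := (Y23.differentiable_TT hf.1).continuous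
  have h6 : ∀ w : ℂ, w ∈ {w : ℂ | w.re ≠ 0} → Y23.TT f w = 0 := by
    intro w hw
    have h7 := h5 w
    rw [hT] at h7
    refine (mul_eq_zero.1 h7).resolve_left fun h8 => hw ?_
    have h9 := congrArg norm (sub_eq_zero.1 h8)
    rw [Complex.norm_exp, Complex.norm_exp, Real.exp_eq_exp, Complex.neg_re] at h9
    linarith
  have hdense : Dense {w : ℂ | w.re ≠ 0} := by
    intro w
    by_cases hw : w.re = 0
    · refine mem_closure_of_tendsto (f := fun k : ℕ => w + ((1 / ((k : ℝ) + 1) : ℝ) : ℂ)) (b := atTop) ?_ ?_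
      · have h7 := (Complex.continuous_ofReal.tendsto 0).comp (tendsto_one_div_add_atTop_nhds_zero_nat (𝕜 := ℝ))
        have h8 := h7.const_add w
        simpa using h8
      · refine Eventually.of_forall fun k => ?_
        have : (0 : ℝ) < 1 / ((k : ℝ) + 1) := by positivity
        show (w + ((1 / ((k : ℝ) + 1) : ℝ) : ℂ)).re ≠ 0
        rw [Complex.add_re, Complex.ofReal_re, hw, zero_add]
        exact this.ne'
    · exact subset_closure hw
  exact congrFun (Continuous.ext_on hdense hc continuous_const fun w hw => h6 w hw) w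

/-- the results of part A for real polynomials -/
theorem resG (hSum : S_SumGG) (hPos : S_PosG) (hForm : S_FormG) (hGapC : CE.S_GapC) (hNB : CE.S_NB) (hGapC0 : S_GapC0) (hCl0 : S_Cl0)
    (hOeb0 : S_Oeb0) (hUni0 : S_Uni0) (hFam0 : S_Fam0Z) (hWt4 : S_Wt4Z) (hR0 : CE.S_Rate0) (hR1 : S_Rate1) (hCnt : CE.S_CntG)
    (hRepInv : S_RepInv) [EC : Y23.G.ZC] (hRH : ∀ ρ : Y23.G.Zt, (ρ : ℂ).re = 1 / 2) {γ : ℕ → ℝ} (h : ENG γ) {n : ℝ → ℕ} {κ : ℝ} (hκ : 0 < κ)
    (hn : Tendsto (fun a : ℝ => (n a : ℝ) / a ^ 2) atTop (𝓝 κ)) :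
    ∃ δ : ℝ → ℝ, (∀ c : ℝ, c < 4 * κ → ∀ᶠ a : ℝ in atTop, δ a ≤ Real.exp (-(c * a ^ 2 * Real.log a))) ∧
      Res atTop n (fun a P => LG a (n a) (P * P)) (fun a P => OZ a (n a) (P * P)) par δ
        (fun z => z ^ (par : ℕ) * GC (fun j => γ j ^ 2) (z ^ 2)) := by
  classical
  have hγ := h.gpos
  set g : ℕ → ℝ := fun j => γ j ^ 2 with hg
  have hgm : StrictMono g := fun i j hij => pow_lt_pow_left₀ (h.mono hij) (hγ i).le two_ne_zero
  have hg0 : 0 < g 0 := by simp only [hg]; exact pow_pos (hγ 0) 2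
  have hgn : ∀ j, 0 ≤ g j := fun j => sq_nonneg _
  have hm1' : ∀ j, (1 : ℝ) ≤ (mg (γ j : ℂ) : ℝ) := fun j => by exact_mod_cast h.m1 j
  have hs1 : Summable fun j => 1 / g j ^ (7 / 8 : ℝ) := by
    refine Summable.of_nonneg_of_le (fun j => ?_) (fun j => ?_) h.sum
    · exact div_nonneg zero_le_one (Real.rpow_nonneg (hgn j) _)
    · exact div_le_div_of_nonneg_right (hm1' j) (Real.rpow_nonneg (hgn j) _)
  have hW := a_wtsZ g hgm hg0 hs1 n κ hκ hn
  have hsqrt : ∀ j, Real.sqrt (g j) = γ j := fun j => Real.sqrt_sq (hγ j).le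
  have hdef : ∀ᶠ a in atTop, ∀ q : ℝ[X], q.natDegree ≤ n a → q ≠ 0 →
      0 < Lam g (fun j => 2 * (mg (γ j : ℂ) : ℝ) * Sr a (n a) (Real.sqrt (g j)) ^ 2) (q * q) := by
    filter_upwards [eventually_gt_atTop 0] with a ha q hq hq0
    by_contra hcon
    push Not at hcon
    have hd : (q.comp (X ^ 2)).natDegree ≤ 2 * n a := by
      rw [natDegree_comp, natDegree_X_pow]
      omega
    obtain ⟨f, hf, h1, -, h2⟩ := real_elemG hRepInv hForm ha (q.comp (X ^ 2)) hd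
    set F : ℂ → ℝ := fun z => (aeval z (q.comp (X ^ 2) * q.comp (X ^ 2)) * Sp a (n a) z ^ 2).re with hF
    have ht := h.tot F (hSum.2.2.2 a (n a) _ ha (natDegree_mul_self_le hd))
    have hFr : ∀ x : ℝ, F x = (q.eval (x ^ 2)) ^ 2 * Sr a (n a) x ^ 2 := by
      intro x
      simp only [hF]
      rw [aeval_real, (a_spB a (n a)).2.2.2.1, ← Complex.ofReal_pow, ← Complex.ofReal_mul, Complex.ofReal_re]
      simp only [eval_mul, eval_comp, eval_pow, eval_X]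
      ring
    have hFn : ∀ j, F (-(γ j : ℂ)) = F (γ j) := by
      intro j
      have e2 : (-(γ j : ℂ)) = ((-γ j : ℝ) : ℂ) := by push_cast; rfl
      have e3 : Sr a (n a) (-γ j) ^ 2 = Sr a (n a) (γ j) ^ 2 := by
        have h3 := (a_spB a (n a)).2.2.2.2.1 (γ j : ℂ)
        rw [e2, (a_spB a (n a)).2.2.2.1, (a_spB a (n a)).2.2.2.1] at h3
        have h4 : Sr a (n a) (-γ j) = Sr a (n a) (γ j) := by exact_mod_cast h3
        rw [h4]
      rw [e2, hFr, hFr, neg_sq, e3]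
    have hterm : (fun j => (mg (γ j : ℂ) : ℝ) * (F (γ j) + F (-(γ j : ℂ)))) = fun j =>
        2 * (mg (γ j : ℂ) : ℝ) * Sr a (n a) (Real.sqrt (g j)) ^ 2 * (q * q).eval (g j) := by
      funext j
      rw [hFn, hFr, hsqrt, eval_mul]
      simp only [hg]
      ring
    rw [hterm] at ht
    have hnn : ∀ j, 0 ≤ 2 * (mg (γ j : ℂ) : ℝ) * Sr a (n a) (Real.sqrt (g j)) ^ 2 * (q * q).eval (g j) := by
      intro j
      rw [eval_mul]
      exact mul_nonneg (by positivity) (mul_self_nonneg _)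
    have h0 : ∀ j, 2 * (mg (γ j : ℂ) : ℝ) * Sr a (n a) (Real.sqrt (g j)) ^ 2 * (q * q).eval (g j) = 0 := by
      have h3 : HasSum (fun j => 2 * (mg (γ j : ℂ) : ℝ) * Sr a (n a) (Real.sqrt (g j)) ^ 2 * (q * q).eval (g j)) 0 := by
        have h4 := ht.summable.hasSum
        have h5 : ∑' j, 2 * (mg (γ j : ℂ) : ℝ) * Sr a (n a) (Real.sqrt (g j)) ^ 2 * (q * q).eval (g j) = 0 :=
          le_antisymm hcon (tsum_nonneg hnn)
        rwa [h5] at h4
      exact fun j => congrFun ((hasSum_zero_iff_of_nonneg hnn).1 h3) j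
    have hz : ∀ j, q.eval (γ j ^ 2) * Sr a (n a) (γ j) = 0 := by
      intro j
      have h3 := h0 j
      rw [hsqrt, eval_mul] at h3
      have h4 : 0 < (mg (γ j : ℂ) : ℝ) := by linarith [hm1' j]
      have h5 : (q.eval (γ j ^ 2) * Sr a (n a) (γ j)) ^ 2 = 0 := by
        have h6 : 2 * (mg (γ j : ℂ) : ℝ) * (q.eval (γ j ^ 2) * Sr a (n a) (γ j)) ^ 2 = 0 := by
          rw [← h3]
          ring
        exact (mul_eq_zero.1 h6).resolve_left (by positivity)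
      exact pow_eq_zero_iff two_ne_zero |>.1 h5
    have hTz : ∀ w, Y23.TT f w = 0 := by
      refine unique_set hPos hRH ha hf fun s hs hs2 => ?_
      have e : (1 / 2 + Complex.I * (-Complex.I * (s - 1 / 2)) : ℂ) = s := by
        rw [← mul_assoc, mul_neg, Complex.I_mul_I]
        ring
      have e2 : Complex.I * (-Complex.I * (s - 1 / 2)) = s - 1 / 2 := by
        rw [← mul_assoc, mul_neg, Complex.I_mul_I]
        ring
      have h3 := (h.zer (-Complex.I * (s - 1 / 2))).1 (by rw [e]; exact hs)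
      have h4 : ∀ j, Y23.TT f (Complex.I * (γ j : ℂ)) = 0 ∧ Y23.TT f (Complex.I * -(γ j : ℂ)) = 0 := by
        intro j
        have h5 := hz j
        have e3 : (-(γ j : ℂ)) = ((-γ j : ℝ) : ℂ) := by push_cast; rfl
        constructor
        · rw [h2, aeval_real, (a_spB a (n a)).2.2.2.1, ← Complex.ofReal_mul]
          simp only [eval_comp, eval_pow, eval_X]
          rw [h5, Complex.ofReal_zero]
        · rw [h2, (a_spB a (n a)).2.2.2.2.1, e3, aeval_real, (a_spB a (n a)).2.2.2.1, ← Complex.ofReal_mul]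
          simp only [eval_comp, eval_pow, eval_X, neg_sq]
          rw [h5, Complex.ofReal_zero]
      rcases h3 with ⟨h3, -⟩ | ⟨j, h3 | h3⟩
      · exfalso
        rw [h3] at e2
        apply hs2
        rw [mul_zero] at e2
        linear_combination -e2
      · rw [← e2, h3]; exact (h4 j).1
      · rw [← e2, h3]; exact (h4 j).2
    exact hq0 (even_zero ha hTz h2)
  obtain ⟨c0, hc0, hcnt⟩ := hCnt (D := D) γ h.mono h.pos fun j => (h.zer _).2 (Or.inr ⟨j, Or.inl rfl⟩)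
  have hL : ∀ᶠ a : ℝ in atTop, ∀ P : ℝ[X], P.natDegree ≤ 2 * n a →
      LG a (n a) (P * P) = Lp0 m0 g (fun j => 2 * (mg (γ j : ℂ) : ℝ) * Sr a (n a) (Real.sqrt (g j)) ^ 2) P ∧
      OZ a (n a) (P * P) = Op (wt n a) P := by
    filter_upwards [eventually_gt_atTop 0] with a ha P hP
    exact ⟨LG_Lp0 hSum h n ha P hP, OZ_Op n a P⟩
  by_cases hm0 : (m0 : ℕ) = 0
  · have hFm := a_famZ g (fun j => (mg (γ j : ℂ) : ℝ)) hgm hg0 hm1' h.sum n κ hκ hn hdef
    have hex : ∃ q0 : ℝ → ℝ[X], ∀ᶠ a in atTop, Ex g (fun j => 2 * (mg (γ j : ℂ) : ℝ) * Sr a (n a) (Real.sqrt (g j)) ^ 2) (n a) 0 (q0 a) := by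
      refine ⟨fun a => if h : PM g (fun j => 2 * (mg (γ j : ℂ) : ℝ) * Sr a (n a) (Real.sqrt (g j)) ^ 2) (n a) then
        Classical.choose (a_ext g _ (n a) h 0) else 0, ?_⟩
      filter_upwards [hFm.pm] with a ha
      rw [dif_pos ha]
      exact Classical.choose_spec (a_ext g _ (n a) ha 0)
    obtain ⟨q0, hq0⟩ := hex
    have hR := resA hGapC hNB atTop g _ n _ (wt n) hFm hW q0 hq0
    refine ⟨fun a => Lam g (fun j => 2 * (mg (γ j : ℂ) : ℝ) * Sr a (n a) (Real.sqrt (g j)) ^ 2) (q0 a * q0 a), fun c hc => ?_, ?_⟩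
    · filter_upwards [hR0 γ (fun j => (mg (γ j : ℂ) : ℝ)) h.mono h.pos hm1' h.sum ⟨c0, hc0, hcnt⟩ n κ c hκ hc hn, hFm.pm, hq0] with
        a h1 h2 h3
      exact h1 (q0 a) h2 h3
    · have hp : (par : ℕ) = 0 := by unfold par; rw [if_pos hm0]
      rw [hp]
      simp only [pow_zero, one_mul]
      refine hR.congr ?_
      filter_upwards [hL] with a h1 P hP
      obtain ⟨h2, h3⟩ := h1 P hP
      refine ⟨?_, h3⟩
      rw [h2]
      unfold Lp0
      rw [hm0, Nat.cast_zero, zero_mul, zero_add]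
  · have hFm := hFam0 g (fun j => (mg (γ j : ℂ) : ℝ)) hgm hg0 hm1' h.sum n κ hκ hn hdef
    have hW4 := hWt4 g hgm hg0 hs1 n κ hκ hn
    have hmc : (0 : ℝ) < (m0 : ℕ) := by exact_mod_cast Nat.pos_of_ne_zero hm0
    have hex : ∃ r0 : ℝ → ℝ[X], ∀ᶠ a in atTop,
        Ex g (fun j => g j * (2 * (mg (γ j : ℂ) : ℝ) * Sr a (n a) (Real.sqrt (g j)) ^ 2)) (n a - 1) 0 (r0 a) := by
      refine ⟨fun a => if h : PM g (fun j => g j * (2 * (mg (γ j : ℂ) : ℝ) * Sr a (n a) (Real.sqrt (g j)) ^ 2)) (n a - 1) then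
        Classical.choose (a_ext g _ (n a - 1) h 0) else 0, ?_⟩
      filter_upwards [hFm.fam'.pm] with a ha
      rw [dif_pos ha]
      exact Classical.choose_spec (a_ext g _ (n a - 1) ha 0)
    obtain ⟨r0, hr0⟩ := hex
    have hR := resA0 hGapC0 hCl0 hOeb0 hUni0 atTop ((m0 : ℕ) : ℝ) g _ n _ (wt n) hmc hFm hW hW4 r0 hr0
    refine ⟨fun a => Lam g (fun j => g j * (2 * (mg (γ j : ℂ) : ℝ) * Sr a (n a) (Real.sqrt (g j)) ^ 2)) (r0 a * r0 a), fun c hc => ?_, ?_⟩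
    · filter_upwards [hR1 γ (fun j => (mg (γ j : ℂ) : ℝ)) h.mono h.pos hm1' h.sum ⟨c0, hc0, hcnt⟩ n κ c hκ hc hn, hFm.fam'.pm, hr0] with
        a h1 h2 h3
      exact h1 (r0 a) h2 h3
    · have hp : (par : ℕ) = 1 := by unfold par; rw [if_neg hm0]
      rw [hp]
      simp only [pow_one]
      exact hR.congr hL

end

end Pool.Agent.Q240.CG
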