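import Pool.Agent.Q240.CG.All
import Pool.Agent.Q240.CD.Dg

set_option autoImplicit false
set_option linter.unusedSectionVars false

/-! # Project CG: the trichotomy for self-dual zero data -/

open Polynomial Filter Topology MeasureTheory

namespace Pool.Agent.Q240.CG

open Pool.Agent.Q240.CD

/-- the Gaussian factor -/
noncomputable def GsG (κ : ℝ) (s : ℂ) : ℂ := Complex.exp ((s - 1 / 2) ^ 2 / (Real.pi ^ 2 * κ))

lemma gauss_eqG (κ : ℝ) (s : ℂ) : Complex.exp ((ck κ : ℝ) * (s - 1 / 2) ^ 2) = GsG κ s := by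
  unfold ck GsG
  congr 1
  push_cast
  ring

lemma GsG_ne (κ : ℝ) (s : ℂ) : GsG κ s ≠ 0 := Complex.exp_ne_zero _

section

variable [D : Y23.G.ZD]

/-- ground states with respect to the functional `W` -/
def Gnd (W : ℝ → (ℝ → ℂ) → ℝ) (a : ℝ) (n : ℕ) (f : ℝ → ℂ) : Prop :=
  Tg a n f ∧ Y23.N2 f ≠ 0 ∧ ∀ g : ℝ → ℂ, Tg a n g → W a f * Y23.N2 g ≤ W a g * Y23.N2 f

/-- `W` is Weil's form -/
def IsW (W : ℝ → (ℝ → ℂ) → ℝ) : Prop := ∀ a : ℝ, 0 < a → ∀ (n : ℕ) (f : ℝ → ℂ), Tg a n f → W a f = Y23.G.QQ f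

/-- the product over the distinct zeros in the upper half plane -/
noncomputable def XrG (s : ℂ) : ℂ := ∏' ρ : {s : ℂ // s ∈ D.Zs ∧ 0 < s.im}, (1 - (s - 1 / 2) ^ 2 / ((ρ : ℂ) - 1 / 2) ^ 2)

/-- all zeros are on the critical line -/
def RHG : Prop := ∀ s ∈ D.Zs, s.re = 1 / 2

lemma RHG.zt (h : RHG) : ∀ ρ : Y23.G.Zt, (ρ : ℂ).re = 1 / 2 := fun ρ => h ρ ρ.2

lemma gnd_iff {W : ℝ → (ℝ → ℂ) → ℝ} (hW : IsW W) {a : ℝ} (ha : 0 < a) {n : ℕ} {f : ℝ → ℂ} :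
    Gnd W a n f ↔ Tg a n f ∧ Y23.N2 f ≠ 0 ∧ GdG a n f := by
  constructor
  · rintro ⟨h1, h2, h3⟩
    refine ⟨h1, h2, (GdG_iff a_rep a_trigInv ha h1).2 fun g hg => ?_⟩
    have := h3 g hg
    rwa [hW a ha n f h1, hW a ha n g hg] at this
  · rintro ⟨h1, h2, h3⟩
    refine ⟨h1, h2, fun g hg => ?_⟩
    rw [hW a ha n f h1, hW a ha n g hg]
    exact (GdG_iff a_rep a_trigInv ha h1).1 h3 g hg

lemma evs_W {W : ℝ → (ℝ → ℂ) → ℝ} (hW : IsW W) {a : ℝ} (ha : 0 < a) (n k : ℕ) :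
    CE.evs (W a) Y23.N2 (Tg a n) k = CE.evs Y23.G.QQ Y23.N2 (Tg a n) k := by
  unfold CE.evs
  ext x
  constructor
  · rintro ⟨V, h1, h2, h3⟩
    refine ⟨V, h1, h2, fun f hf => ?_⟩
    rw [← hW a ha n f (h1 f hf)]
    exact h3 f hf
  · rintro ⟨V, h1, h2, h3⟩
    refine ⟨V, h1, h2, fun f hf => ?_⟩
    rw [hW a ha n f (h1 f hf)]
    exact h3 f hf

lemma ENG.isZ {γ : ℕ → ℝ} (h : ENG γ) (j : ℕ) : (1 / 2 + Complex.I * (γ j : ℂ)) ∈ D.Zs := (h.zer _).2 (Or.inr ⟨j, Or.inl rfl⟩)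

/-- the enumeration of the zeros in the upper half plane -/
noncomputable def ENG.eqv {γ : ℕ → ℝ} (h : ENG γ) : ℕ ≃ {s : ℂ // s ∈ D.Zs ∧ 0 < s.im} :=
  Equiv.ofBijective (fun j => ⟨1 / 2 + Complex.I * (γ j : ℂ), h.isZ j, by simpa using h.gpos j⟩) (by
    constructor
    · intro i j hij
      have h1 : (1 / 2 + Complex.I * (γ i : ℂ) : ℂ) = 1 / 2 + Complex.I * (γ j : ℂ) := congrArg Subtype.val hij
      have h2 := congrArg Complex.im h1
      simp at h2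
      exact h.mono.injective h2
    · rintro ⟨ρ, hρ, hρ2⟩
      have e : (1 / 2 + Complex.I * (-Complex.I * (ρ - 1 / 2)) : ℂ) = ρ := by
        rw [I_back]
        ring
      have h1 := (h.zer (-Complex.I * (ρ - 1 / 2))).1 (by rw [e]; exact hρ)
      rcases h1 with ⟨h1, -⟩ | ⟨j, h2 | h2⟩
      · exfalso
        have h3 : ρ - 1 / 2 = 0 := by
          rcases mul_eq_zero.1 h1 with h | h
          · exact absurd h (neg_ne_zero.2 Complex.I_ne_zero)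
          · exact h
        have h4 := congrArg Complex.im h3
        simp at h4
        linarith
      · refine ⟨j, ?_⟩
        apply Subtype.ext
        simp only
        rw [← h2, e]
      · exfalso
        have h3 : ρ - 1 / 2 = Complex.I * (-(γ j : ℂ)) := by rw [← h2, I_back]
        have h4 := congrArg Complex.im h3
        simp at h4
        have := h.gpos j
        linarith)

lemma ENG.xred {γ : ℕ → ℝ} (h : ENG γ) (s : ℂ) : XrG s = GC (fun j => γ j ^ 2) (-(s - 1 / 2) ^ 2) := by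
  unfold XrG GC
  rw [← h.eqv.tprod_eq]
  refine tprod_congr fun j => ?_
  have e : ((h.eqv j : {s : ℂ // s ∈ D.Zs ∧ 0 < s.im}) : ℂ) = 1 / 2 + Complex.I * (γ j : ℂ) := rfl
  rw [e, add_sub_cancel_left, mul_pow, Complex.I_sq]
  push_cast
  rw [neg_one_mul, div_neg, neg_div]

lemma XrG_half : XrG (1 / 2) = 1 := by
  unfold XrG
  simp

/-- near the centre the product does not vanish -/
lemma XrG_ne : ∃ r : ℝ, 0 < r ∧ ∀ s : ℂ, ‖s - 1 / 2‖ < r → XrG s ≠ 0 := by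
  obtain ⟨-, hsum, hfin⟩ := Pool.Agent.Q280.CE.sumG (D := D)
  -- a lower bound for the distances
  have hr : ∃ r : ℝ, 0 < r ∧ ∀ s ∈ D.Zs, 0 < s.im → r ≤ ‖s - 1 / 2‖ := by
    have hf : {s : ℂ | s ∈ D.Zs ∧ ‖s - 1 / 2‖ ≤ 1 ∧ 0 < s.im}.Finite := (hfin 1).subset fun s hs => ⟨hs.1, hs.2.1⟩
    by_cases hne : {s : ℂ | s ∈ D.Zs ∧ ‖s - 1 / 2‖ ≤ 1 ∧ 0 < s.im}.Nonempty
    · obtain ⟨s0, hs0, hmin⟩ := hf.exists_minimalFor (fun s => ‖s - 1 / 2‖) _ hne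
      refine ⟨‖s0 - 1 / 2‖, ?_, fun s hs him => ?_⟩
      · rw [norm_pos_iff]
        intro h0
        have h1 := hs0.2.2
        have h2 := congrArg Complex.im h0
        simp at h2
        linarith
      · by_contra hcon
        push Not at hcon
        have h3 := hmin (j := s) ⟨hs, hcon.le.trans hs0.2.1, him⟩ hcon.le
        simp only at h3
        linarith
    · refine ⟨1, one_pos, fun s hs him => ?_⟩
      by_contra hcon
      push Not at hcon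
      exact hne ⟨s, hs, hcon.le, him⟩
  obtain ⟨r, hr0, hr⟩ := hr
  refine ⟨r, hr0, fun s hs => ?_⟩
  unfold XrG
  have h1 : ∀ ρ : {s : ℂ // s ∈ D.Zs ∧ 0 < s.im}, (1 - (s - 1 / 2) ^ 2 / ((ρ : ℂ) - 1 / 2) ^ 2 : ℂ) =
      1 + -((s - 1 / 2) ^ 2 / ((ρ : ℂ) - 1 / 2) ^ 2) := fun ρ => by ring
  simp only [h1]
  have hpos : ∀ ρ : {s : ℂ // s ∈ D.Zs ∧ 0 < s.im}, 0 < ‖(ρ : ℂ) - 1 / 2‖ := fun ρ => lt_of_lt_of_le hr0 (hr ρ ρ.2.1 ρ.2.2)
  refine tprod_one_add_ne_zero_of_summable (fun ρ => ?_) ?_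
  · rw [← h1, sub_ne_zero]
    intro h2
    have h3 : (s - 1 / 2) ^ 2 = ((ρ : ℂ) - 1 / 2) ^ 2 := by
      have h4 : ((ρ : ℂ) - 1 / 2) ^ 2 ≠ 0 := pow_ne_zero 2 (norm_pos_iff.1 (hpos ρ))
      rw [eq_div_iff h4, one_mul] at h2
      exact h2.symm
    have h4 := congrArg norm h3
    rw [norm_pow, norm_pow] at h4
    have h5 : ‖s - 1 / 2‖ < ‖(ρ : ℂ) - 1 / 2‖ := lt_of_lt_of_le hs (hr ρ ρ.2.1 ρ.2.2)
    have h6 := pow_lt_pow_left₀ h5 (norm_nonneg _) two_ne_zero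
    exact h6.ne h4
  · -- summability
    have hinj : Function.Injective (fun ρ : {s : ℂ // s ∈ D.Zs ∧ 0 < s.im} => (⟨(ρ : ℂ), ρ.2.1⟩ : Y23.G.Zt)) := by
      intro ρ ρ' h
      exact Subtype.ext (congrArg (fun x : Y23.G.Zt => (x : ℂ)) h)
    have h2 := (hsum.comp_injective hinj).mul_left (‖s - 1 / 2‖ ^ 2 * ((1 + r) / r) ^ 2)
    refine Summable.of_nonneg_of_le (fun ρ => norm_nonneg _) (fun ρ => ?_) h2
    rw [norm_neg, norm_div, norm_pow, norm_pow, mul_assoc]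
    simp only [Function.comp]
    set x := ‖(ρ : ℂ) - 1 / 2‖ with hx
    have hxr : r ≤ x := hr ρ ρ.2.1 ρ.2.2
    have hx0 : 0 < x := hpos ρ
    have hm : (1 : ℝ) ≤ (Y23.G.mu (ρ : ℂ) : ℝ) := by
      have := D.mpos (ρ : ℂ) ρ.2.1
      exact_mod_cast this
    rw [div_eq_mul_one_div]
    refine mul_le_mul_of_nonneg_left ?_ (by positivity)
    have h3 : 1 + x ≤ (1 + r) / r * x := by
      rw [div_mul_eq_mul_div, le_div_iff₀ hr0]
      nlinarith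
    have h4 : (1 + x) ^ 2 ≤ ((1 + r) / r) ^ 2 * x ^ 2 := by
      rw [← mul_pow]
      exact pow_le_pow_left₀ (by positivity) h3 2
    rw [← mul_div_assoc, div_le_div_iff₀ (by positivity) (by positivity), one_mul]
    have h5 : ((1 + r) / r) ^ 2 * x ^ 2 ≤ ((1 + r) / r) ^ 2 * (Y23.G.mu (ρ : ℂ) : ℝ) * x ^ 2 := by
      refine mul_le_mul_of_nonneg_right ?_ (by positivity)
      exact le_mul_of_one_le_right (by positivity) hm
    linarith

variable [EC : Y23.G.ZC]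

/-- ground states exist -/
lemma exists_gnd {W : ℝ → (ℝ → ℂ) → ℝ} (hW : IsW W) {a : ℝ} (ha : 0 < a) (n : ℕ) : ∃ f, Gnd W a n f := by
  obtain ⟨e, hK, hN⟩ := Y23.G.F.exists_ground (ν := (n : ℕ∞)) ha
  have heH : Y23.G.F.Hn a (n : ℕ∞) e := hK.1
  have hmin := Kn_min ha hK
  obtain ⟨f, hf, h1⟩ := Hn_Tg a_rep a_trigInv ha heH
  have hN2 : Y23.N2 f = Y23.N2 e := N2_congr (Tg_Hn ha hf).1 heH.1 h1
  refine ⟨f, (gnd_iff hW ha).2 ⟨hf, ?_, ?_⟩⟩
  · rw [hN2]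
    exact hN.ne'
  · refine ⟨Tg_Hn ha hf, fun g hg => ?_⟩
    rw [QQG_congr h1, hN2]
    exact hmin g hg

/-- the convergence in terms of `s` -/
lemma conv_G {W : ℝ → (ℝ → ℂ) → ℝ} (hW : IsW W) {γ : ℕ → ℝ} (h : ENG γ) {n : ℝ → ℕ} {κ : ℝ} (hA : GSA γ n κ) {f : ℝ → ℝ → ℂ}
    (hf : ∀ a, 0 < a → Gnd W a (n a) (f a)) :
    TendstoLocallyUniformly (fun a s => Y23.TT (f a) (s - 1 / 2) / iteratedDeriv par (Y23.TT (f a)) 0)
      (fun s => (s - 1 / 2) ^ (par : ℕ) * XrG s * GsG κ s) atTop := by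
  have h1 := hA.tlu f (by
    filter_upwards [eventually_gt_atTop 0] with a ha
    have h2 := (gnd_iff hW ha).1 (hf a ha)
    exact ⟨h2.2.2, h2.2.1⟩)
  have h2 := h1.comp (fun s : ℂ => s - 1 / 2) (by fun_prop)
  have e1 : ((fun w : ℂ => w ^ (par : ℕ) * GC (fun j => γ j ^ 2) (-w ^ 2) * Complex.exp (ck κ * w ^ 2)) ∘ fun s : ℂ => s - 1 / 2) =
      fun s => (s - 1 / 2) ^ (par : ℕ) * XrG s * GsG κ s := by
    funext s
    simp only [Function.comp]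
    rw [gauss_eqG, h.xred]
  rw [e1] at h2
  exact h2

lemma diff_TT {W : ℝ → (ℝ → ℂ) → ℝ} {a : ℝ} (ha : 0 < a) {n : ℕ} {f : ℝ → ℂ} (hf : Gnd W a n f) :
    Differentiable ℂ fun s : ℂ => Y23.TT f (s - 1 / 2) :=
  (Y23.differentiable_TT (Tg_Hn ha hf.1).1).comp (by fun_prop)

omit EC in
lemma gdeg {n m : ℝ → ℕ} {κ : ℝ} (hκ : 0 < κ) (hn : Tendsto (fun a : ℝ => (n a : ℝ) / a ^ 2) atTop (𝓝 κ))
    (hm : ∀ᶠ a in atTop, n a ≤ m a) : Tendsto (fun a : ℝ => (m a : ℝ) / a) atTop atTop := by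
  refine tendsto_atTop_mono' _ ?_ (sq_over hκ hn)
  filter_upwards [hm, eventually_gt_atTop 0] with a h1 h2
  exact div_le_div_of_nonneg_right (by exact_mod_cast h1) h2.le

/-- convergence to a function which does not vanish identically near the centre implies the Riemann hypothesis -/
lemma RH_ofG {W : ℝ → (ℝ → ℂ) → ℝ} (hW : IsW W) {κ : ℝ} (hκ : 0 < κ) {n m : ℝ → ℕ}
    (hn : Tendsto (fun a : ℝ => (n a : ℝ) / a ^ 2) atTop (𝓝 κ)) (hm : ∀ᶠ a in atTop, n a ≤ m a)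
    {G : ℂ → ℂ} {t0 : ℝ} (h0 : G (1 / 2 + t0 * Complex.I) ≠ 0) (b : (ℝ → ℂ) → ℂ)
    (hf : ∀ f : ℝ → ℝ → ℂ, (∀ a, 0 < a → Gnd W a (m a) (f a)) →
      TendstoLocallyUniformly (fun a s => Y23.TT (f a) (s - 1 / 2) / b (f a)) G atTop) : RHG := by
  by_contra hRH
  unfold RHG at hRH
  push Not at hRH
  obtain ⟨s1, hs1, hs2⟩ := hRH
  choose! f hfG using fun (a : ℝ) (ha : 0 < a) => exists_gnd hW ha (m a)
  have h1 := hf f hfG
  have hcont : Continuous G := by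
    refine h1.continuous (Eventually.frequently ?_)
    filter_upwards [eventually_gt_atTop 0] with a ha
    exact (diff_TT ha (hfG a ha)).continuous.div_const _
  obtain ⟨δ, hδ, h2⟩ := tlu_nozero h1 hcont.continuousAt h0
  have h3 := (jb.thB (_D := D) ⟨⟨s1, hs1⟩, hs2⟩ n κ hκ hn m hm).2 (t0 - δ) (t0 + δ) 1 (by linarith)
  obtain ⟨a, h4, h5, ha⟩ := (h2.and (h3.and (eventually_gt_atTop 0))).exists
  obtain ⟨S, hS, h6⟩ := h5 (f a) ((gnd_iff hW ha).1 (hfG a ha)).2.2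
  obtain ⟨x, hx⟩ := Finset.card_pos.1 hS
  obtain ⟨h7, h8, h9⟩ := h6 x hx
  refine h4 (1 / 2 + x * Complex.I) ?_ ?_
  · have e : (1 / 2 + (x : ℂ) * Complex.I - (1 / 2 + t0 * Complex.I)) = ((x - t0 : ℝ) : ℂ) * Complex.I := by push_cast; ring
    rw [e, norm_mul, Complex.norm_I, mul_one, Complex.norm_real, Real.norm_eq_abs, abs_lt]
    constructor <;> linarith
  · have e : (1 / 2 + (x : ℂ) * Complex.I - 1 / 2) = Complex.I * x := by ring
    rw [e, h9, zero_div]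

variable [SD]

/-- the parity -/
lemma par_zero (h : (1 / 2 : ℂ) ∉ D.Zs) : (par : ℕ) = 0 := by
  unfold par m0
  rw [if_neg h, if_pos rfl]

lemma par_one (h : (1 / 2 : ℂ) ∈ D.Zs) : (par : ℕ) = 1 := by
  unfold par m0
  rw [if_pos h, if_neg]
  have := D.mpos (1 / 2) h
  omega

/-- the even case -/
theorem tri_even {W : ℝ → (ℝ → ℂ) → ℝ} (hW : IsW W) {κ : ℝ} (hκ : 0 < κ) {n : ℝ → ℕ}
    (hn : Tendsto (fun a : ℝ => (n a : ℝ) / a ^ 2) atTop (𝓝 κ)) :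
    (RHG ∧ (1 / 2 : ℂ) ∉ D.Zs) ↔ ∀ f : ℝ → ℝ → ℂ, (∀ a, 0 < a → Gnd W a (n a) (f a)) →
      TendstoLocallyUniformly (fun a s => Y23.TT (f a) (s - 1 / 2) / Y23.TT (f a) (1 / 2 - 1 / 2))
        (fun s => XrG s * GsG κ s) atTop := by
  constructor
  · rintro ⟨hRH, h0⟩ f hf
    obtain ⟨γ, hE, hG⟩ := jb.gsa hRH.zt
    have h1 := conv_G hW hE (hG n κ hκ hn) hf
    rw [par_zero h0] at h1
    simp only [pow_zero, one_mul, iteratedDeriv_zero] at h1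
    rw [sub_self]
    exact h1
  · intro h
    have h0 : (fun s => XrG s * GsG κ s) (1 / 2 + ((0 : ℝ) : ℂ) * Complex.I) ≠ 0 := by
      simp only
      rw [Complex.ofReal_zero, zero_mul, add_zero, XrG_half, one_mul]
      exact GsG_ne κ _
    have hRH : RHG := RH_ofG hW hκ hn (Eventually.of_forall fun a => le_rfl) h0 (fun f => Y23.TT f (1 / 2 - 1 / 2)) h
    refine ⟨hRH, fun hc => ?_⟩
    obtain ⟨γ, hE, hG⟩ := jb.gsa hRH.zt
    have hA := hG n κ hκ hn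
    choose! f hfG using fun (a : ℝ) (ha : 0 < a) => exists_gnd hW ha (n a)
    have h1 := (tendstoLocallyUniformlyOn_univ.2 (h f hfG)).tendsto_at (Set.mem_univ (1 / 2))
    have h2 : Tendsto (fun a => Y23.TT (f a) (1 / 2 - 1 / 2) / Y23.TT (f a) (1 / 2 - 1 / 2)) atTop (𝓝 0) := by
      refine tendsto_const_nhds.congr' ?_
      filter_upwards [hA.gr, eventually_gt_atTop 0] with a h3 ha
      obtain ⟨h4, h5, h6⟩ := (gnd_iff hW ha).1 (hfG a ha)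
      obtain ⟨-, h7, -⟩ := h3 (f a) h6 h5
      have h8 := h7 0
      rw [neg_zero, par_one hc, pow_one, neg_one_mul] at h8
      have h9 : Y23.TT (f a) 0 = 0 := by
        have h10 : (2 : ℂ) * Y23.TT (f a) 0 = 0 := by linear_combination h8
        exact (mul_eq_zero.1 h10).resolve_left two_ne_zero
      rw [sub_self, h9, zero_div]
    have h3 := tendsto_nhds_unique h1 h2
    rw [XrG_half, one_mul] at h3
    exact GsG_ne κ _ h3

/-- the odd case -/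
theorem tri_odd {W : ℝ → (ℝ → ℂ) → ℝ} (hW : IsW W) {κ : ℝ} (hκ : 0 < κ) {n : ℝ → ℕ}
    (hn : Tendsto (fun a : ℝ => (n a : ℝ) / a ^ 2) atTop (𝓝 κ)) :
    (RHG ∧ (1 / 2 : ℂ) ∈ D.Zs) ↔ ∀ f : ℝ → ℝ → ℂ, (∀ a, 0 < a → Gnd W a (n a) (f a)) →
      TendstoLocallyUniformly (fun a s => Y23.TT (f a) (s - 1 / 2) / deriv (fun s => Y23.TT (f a) (s - 1 / 2)) (1 / 2))
        (fun s => (s - 1 / 2) * XrG s * GsG κ s) atTop := by
  have hder : ∀ f : ℝ → ℂ, deriv (fun s => Y23.TT f (s - 1 / 2)) (1 / 2) = iteratedDeriv 1 (Y23.TT f) 0 := by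
    intro f
    rw [iteratedDeriv_one]
    have h1 : deriv (fun s => Y23.TT f (s - 1 / 2)) (1 / 2) = deriv (Y23.TT f) (1 / 2 - 1 / 2) := deriv_comp_sub_const (f := Y23.TT f) (1 / 2) (1 / 2)
    rw [h1, sub_self]
  obtain ⟨r, hr, hXr⟩ := XrG_ne (D := D)
  have hpt : ∀ t : ℝ, 0 < t → t < r → (fun s => (s - 1 / 2) * XrG s * GsG κ s) (1 / 2 + (t : ℂ) * Complex.I) ≠ 0 := by
    intro t ht htr
    simp only
    have e : (1 / 2 + (t : ℂ) * Complex.I - 1 / 2) = t * Complex.I := by ring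
    refine mul_ne_zero (mul_ne_zero ?_ ?_) (GsG_ne κ _)
    · rw [e]
      exact mul_ne_zero (by exact_mod_cast ht.ne') Complex.I_ne_zero
    · refine hXr _ ?_
      rw [e, norm_mul, Complex.norm_I, mul_one, Complex.norm_real, Real.norm_eq_abs, abs_of_pos ht]
      exact htr
  constructor
  · rintro ⟨hRH, h0⟩ f hf
    obtain ⟨γ, hE, hG⟩ := jb.gsa hRH.zt
    have h1 := conv_G hW hE (hG n κ hκ hn) hf
    rw [par_one h0] at h1
    simp only [pow_one] at h1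
    refine tlu_congr h1 (Eventually.of_forall fun a s => ?_)
    rw [hder]
  · intro h
    have hRH : RHG := RH_ofG hW hκ hn (Eventually.of_forall fun a => le_rfl) (hpt (r / 2) (by positivity) (by linarith))
      (fun f => deriv (fun s => Y23.TT f (s - 1 / 2)) (1 / 2)) h
    refine ⟨hRH, ?_⟩
    by_contra hc
    obtain ⟨γ, hE, hG⟩ := jb.gsa hRH.zt
    have hA := hG n κ hκ hn
    choose! f hfG using fun (a : ℝ) (ha : 0 < a) => exists_gnd hW ha (n a)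
    have h1 := (tendstoLocallyUniformlyOn_univ.2 (h f hfG)).tendsto_at (Set.mem_univ (1 / 2 + ((r / 2 : ℝ) : ℂ) * Complex.I))
    have h2 : Tendsto (fun a => Y23.TT (f a) (1 / 2 + ((r / 2 : ℝ) : ℂ) * Complex.I - 1 / 2) /
        deriv (fun s => Y23.TT (f a) (s - 1 / 2)) (1 / 2)) atTop (𝓝 0) := by
      refine tendsto_const_nhds.congr' ?_
      filter_upwards [hA.gr, eventually_gt_atTop 0] with a h3 ha
      obtain ⟨h4, h5, h6⟩ := (gnd_iff hW ha).1 (hfG a ha)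
      obtain ⟨-, h7, -⟩ := h3 (f a) h6 h5
      rw [par_zero hc] at h7
      simp only [pow_zero, one_mul] at h7
      have h8 : deriv (Y23.TT (f a)) 0 = 0 := by
        have h9 : deriv (fun w => Y23.TT (f a) (-w)) 0 = -deriv (Y23.TT (f a)) (-0) := deriv_comp_neg (Y23.TT (f a)) 0
        have h10 : (fun w => Y23.TT (f a) (-w)) = Y23.TT (f a) := funext h7
        rw [h10, neg_zero] at h9
        have h11 : (2 : ℂ) * deriv (Y23.TT (f a)) 0 = 0 := by linear_combination h9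
        exact (mul_eq_zero.1 h11).resolve_left two_ne_zero
      rw [hder, iteratedDeriv_one, h8, div_zero]
    exact hpt (r / 2) (by positivity) (by linarith) (tendsto_nhds_unique h1 h2)

/-- the structure of the ground states under the Riemann hypothesis -/
theorem tri_struct {W : ℝ → (ℝ → ℂ) → ℝ} (hW : IsW W) {κ : ℝ} (hκ : 0 < κ) {n : ℝ → ℕ}
    (hn : Tendsto (fun a : ℝ => (n a : ℝ) / a ^ 2) atTop (𝓝 κ)) (hRH : RHG) :
    (∃ A : ℝ, ∀ a, A ≤ a → ∀ f, Gnd W a (n a) f →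
      ((1 / 2 : ℂ) ∉ D.Zs → Y23.TT f (1 / 2 - 1 / 2) ≠ 0 ∧ ∀ x, f (-x) = f x) ∧
      ((1 / 2 : ℂ) ∈ D.Zs → deriv (fun s => Y23.TT f (s - 1 / 2)) (1 / 2) ≠ 0 ∧ ∀ x, f (-x) = -f x) ∧
      ∀ g, Gnd W a (n a) g → ∃ c : ℂ, ∀ x, g x = c * f x) ∧
    (∀ c : ℝ, c < 4 * κ → ∃ A : ℝ, ∀ a, A ≤ a → ∀ f, Gnd W a (n a) f →
      0 < W a f ∧ W a f ≤ Real.exp (-(c * a ^ 2 * Real.log a)) * Y23.N2 f) ∧
    (∀ B : ℝ, ∃ A : ℝ, ∀ a, A ≤ a → ∀ f, Gnd W a (n a) f → ∀ x ∈ CE.evs (W a) Y23.N2 (Tg a (n a)) 2, B * W a f ≤ x * Y23.N2 f) ∧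
    (∀ ρ ∈ D.Zs, ∀ c : ℝ, c < 2 * κ → ∃ A : ℝ, ∀ a, A ≤ a → ∀ f, Gnd W a (n a) f →
      ∃ t : ℝ, Y23.TT f (1 / 2 + t * Complex.I - 1 / 2) = 0 ∧ |t - ρ.im| ≤ Real.exp (-(c * a ^ 2 * Real.log a))) := by
  obtain ⟨γ, hE, hG⟩ := jb.gsa hRH.zt
  have hA := hG n κ hκ hn
  refine ⟨?_, fun c hc => ?_, fun B => ?_, fun ρ hρ c hc => ?_⟩
  · obtain ⟨A, hA'⟩ := eventually_atTop.1 (hA.gr.and (eventually_gt_atTop 0))
    refine ⟨A, fun a ha f hf => ?_⟩
    obtain ⟨h1, ha0⟩ := hA' a ha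
    obtain ⟨h2, h3, h4⟩ := (gnd_iff hW ha0).1 hf
    obtain ⟨h5, h6, h7⟩ := h1 f h4 h3
    refine ⟨fun h0 => ?_, fun h0 => ?_, fun g hg => ?_⟩
    · rw [par_zero h0] at h5 h6
      rw [iteratedDeriv_zero] at h5
      refine ⟨by rwa [sub_self], ?_⟩
      have h8 : (fun x => f (-x)) = f := by
        refine Tg_ext ha0 (Tg_neg h2) h2 fun w => ?_
        rw [Y23.TT_rf, h6, pow_zero, one_mul]
      exact congrFun h8
    · rw [par_one h0] at h5 h6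
      constructor
      · have h1 : deriv (fun s => Y23.TT f (s - 1 / 2)) (1 / 2) = deriv (Y23.TT f) (1 / 2 - 1 / 2) :=
          deriv_comp_sub_const (f := Y23.TT f) (1 / 2) (1 / 2)
        rw [h1, sub_self, ← iteratedDeriv_one]
        exact h5
      · have h8 : (fun x => f (-x)) = fun x => (-1) * f x := by
          refine Tg_ext ha0 (Tg_neg h2) (Tg_smul h2 (-1)) fun w => ?_
          rw [Y23.TT_rf, h6, Y23.TT_smul, pow_one]
        intro x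
        rw [congrFun h8 x, neg_one_mul]
    · obtain ⟨h8, h9, h10⟩ := (gnd_iff hW ha0).1 hg
      obtain ⟨c, hc⟩ := h7 g h10
      refine ⟨c, fun x => ?_⟩
      have h11 : g = fun x => c * f x := by
        refine Tg_ext ha0 h8 (Tg_smul h2 c) fun w => ?_
        rw [Y23.TT_smul, hc]
      rw [h11]
  · obtain ⟨A, hA'⟩ := eventually_atTop.1 ((hA.ev c hc).and (eventually_gt_atTop 0))
    refine ⟨A, fun a ha f hf => ?_⟩
    obtain ⟨h1, ha0⟩ := hA' a ha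
    obtain ⟨h2, h3, h4⟩ := (gnd_iff hW ha0).1 hf
    rw [hW a ha0 _ f h2]
    exact h1 f h4 h3
  · obtain ⟨A, hA'⟩ := eventually_atTop.1 ((hA.gap B).and (eventually_gt_atTop 0))
    refine ⟨A, fun a ha f hf x hx => ?_⟩
    obtain ⟨h1, ha0⟩ := hA' a ha
    obtain ⟨h2, h3, h4⟩ := (gnd_iff hW ha0).1 hf
    rw [hW a ha0 _ f h2]
    rw [evs_W hW ha0] at hx
    exact h1 f h4 h3 x hx
  · have h1 := (hE.zer (-Complex.I * (ρ - 1 / 2))).1 (by
      rw [I_back]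
      have e : (1 / 2 + (ρ - 1 / 2) : ℂ) = ρ := by ring
      rw [e]
      exact hρ)
    have him : ∀ x : ℝ, -Complex.I * (ρ - 1 / 2) = (x : ℂ) → ρ.im = x := by
      intro x hx
      have h2 := congrArg Complex.re hx
      simp at h2
      exact h2
    have hflip : ∀ t : ℝ, (1 / 2 + (t : ℂ) * Complex.I - 1 / 2) = Complex.I * t := fun t => by ring
    simp only [hflip]
    rcases h1 with ⟨h1, h1'⟩ | ⟨j, h1 | h1⟩
    · rw [him 0 (by rw [h1]; push_cast; rfl)]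
      obtain ⟨A, hA'⟩ := eventually_atTop.1 (hA.gr.and (eventually_gt_atTop 0))
      refine ⟨A, fun a ha f hf => ⟨0, ?_, ?_⟩⟩
      · obtain ⟨h2, ha0⟩ := hA' a ha
        obtain ⟨h3, h4, h5⟩ := (gnd_iff hW ha0).1 hf
        obtain ⟨-, h7, -⟩ := h2 f h5 h4
        have h8 := h7 0
        rw [neg_zero, par_one h1', pow_one, neg_one_mul] at h8
        rw [Complex.ofReal_zero, mul_zero]
        have h10 : (2 : ℂ) * Y23.TT f 0 = 0 := by linear_combination h8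
        exact (mul_eq_zero.1 h10).resolve_left two_ne_zero
      · rw [sub_self, abs_zero]
        exact (Real.exp_pos _).le
    · rw [him _ h1]
      obtain ⟨A, hA'⟩ := eventually_atTop.1 ((hA.zer j c hc).and (eventually_gt_atTop 0))
      refine ⟨A, fun a ha f hf => ?_⟩
      obtain ⟨h2, ha0⟩ := hA' a ha
      obtain ⟨h3, h4, h5⟩ := (gnd_iff hW ha0).1 hf
      exact h2 f h5 h4
    · rw [him (-γ j) (by rw [h1]; push_cast; rfl)]
      obtain ⟨A, hA'⟩ := eventually_atTop.1 ((hA.zer j c hc).and (hA.gr.and (eventually_gt_atTop 0)))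
      refine ⟨A, fun a ha f hf => ?_⟩
      obtain ⟨h2, h2', ha0⟩ := hA' a ha
      obtain ⟨h3, h4, h5⟩ := (gnd_iff hW ha0).1 hf
      obtain ⟨t, ht, ht2⟩ := h2 f h5 h4
      obtain ⟨-, h6, -⟩ := h2' f h5 h4
      refine ⟨-t, ?_, ?_⟩
      · push_cast
        rw [mul_neg, h6, ht, mul_zero]
      · have e : -t - -γ j = -(t - γ j) := by ring
        rw [e, abs_neg]
        exact ht2

/-- the ordinates in `(u, v)` of the zeros of the transform on the critical line -/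
def OrdG (f : ℝ → ℂ) (u v : ℝ) : Set ℝ := {t : ℝ | u < t ∧ t < v ∧ Y23.TT f (1 / 2 + t * Complex.I - 1 / 2) = 0}

omit [SD] in
/-- if the Riemann hypothesis fails -/
theorem tri_not {W : ℝ → (ℝ → ℂ) → ℝ} (hW : IsW W) {κ : ℝ} (hκ : 0 < κ) {n m : ℝ → ℕ}
    (hn : Tendsto (fun a : ℝ => (n a : ℝ) / a ^ 2) atTop (𝓝 κ)) (hm : ∀ᶠ a in atTop, n a ≤ m a) (hRH : ¬ RHG) :
    (∀ B : ℝ, ∃ A : ℝ, ∀ a, A ≤ a → ∀ f, Gnd W a (m a) f → W a f < -B * Y23.N2 f) ∧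
    ∀ (u v : ℝ) (C : ℕ), u < v → ∃ A : ℝ, ∀ a, A ≤ a → ∀ f, Gnd W a (m a) f → (C : ℕ∞) ≤ (OrdG f u v).encard := by
  unfold RHG at hRH
  push Not at hRH
  obtain ⟨s1, hs1, hs2⟩ := hRH
  obtain ⟨h1, h2⟩ := jb.thB (_D := D) ⟨⟨s1, hs1⟩, hs2⟩ n κ hκ hn m hm
  refine ⟨fun B => ?_, fun u v C huv => ?_⟩
  · obtain ⟨A, hA⟩ := eventually_atTop.1 ((h1 B).and (eventually_gt_atTop 0))
    refine ⟨A, fun a ha f hf => ?_⟩
    obtain ⟨⟨g, hg, hg0, hgq⟩, ha0⟩ := hA a ha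
    obtain ⟨h3, h4, h5⟩ := (gnd_iff hW ha0).1 hf
    have h6 := h5.2 g hg
    have h7 : 0 < Y23.N2 f := lt_of_le_of_ne (Y23.N2_nonneg f) (Ne.symm h4)
    rw [hW a ha0 _ f h3]
    have h8 : Y23.G.QQ f * Y23.N2 g < -B * Y23.N2 f * Y23.N2 g := by
      refine lt_of_le_of_lt h6 ?_
      have := mul_lt_mul_of_pos_right hgq h7
      linarith
    exact lt_of_mul_lt_mul_right h8 hg0.le
  · obtain ⟨A, hA⟩ := eventually_atTop.1 ((h2 u v C huv).and (eventually_gt_atTop 0))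
    refine ⟨A, fun a ha f hf => ?_⟩
    obtain ⟨h3, ha0⟩ := hA a ha
    obtain ⟨S, hS, h4⟩ := h3 f ((gnd_iff hW ha0).1 hf).2.2
    have h5 : (S : Set ℝ) ⊆ OrdG f u v := by
      intro x hx
      obtain ⟨h6, h7, h8⟩ := h4 x hx
      refine ⟨h6, h7, ?_⟩
      have e : (1 / 2 + (x : ℂ) * Complex.I - 1 / 2) = Complex.I * x := by ring
      rw [e, h8]
    calc (C : ℕ∞) ≤ (S.card : ℕ∞) := by exact_mod_cast hS
      _ = (S : Set ℝ).encard := by rw [Set.encard_coe_eq_coe_finsetCard]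
      _ ≤ _ := Set.encard_le_encard h5

/-- the Riemann hypothesis in terms of the number of zeros -/
theorem tri_ord {W : ℝ → (ℝ → ℂ) → ℝ} (hW : IsW W) {κ : ℝ} (hκ : 0 < κ) {n : ℝ → ℕ}
    (hn : Tendsto (fun a : ℝ => (n a : ℝ) / a ^ 2) atTop (𝓝 κ)) :
    RHG ↔ ∃ (u v : ℝ) (C : ℕ), u < v ∧ ∀ A : ℝ, ∃ a, A ≤ a ∧ ∃ f, Gnd W a (n a) f ∧ (OrdG f u v).encard ≤ (C : ℕ∞) := by
  constructor
  · intro hRH
    obtain ⟨γ, hE, hG⟩ := jb.gsa hRH.zt
    choose! f hfG using fun (a : ℝ) (ha : 0 < a) => exists_gnd hW ha (n a)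
    have h1 := conv_G hW hE (hG n κ hκ hn) hfG
    have hcont : Continuous fun s => (s - 1 / 2) ^ (par : ℕ) * XrG s * GsG κ s := by
      refine h1.continuous (Eventually.frequently ?_)
      filter_upwards [eventually_gt_atTop 0] with a ha
      exact (diff_TT ha (hfG a ha)).continuous.div_const _
    obtain ⟨r, hr, hXr⟩ := XrG_ne (D := D)
    have hpt : (fun s => (s - 1 / 2) ^ (par : ℕ) * XrG s * GsG κ s) (1 / 2 + ((r / 2 : ℝ) : ℂ) * Complex.I) ≠ 0 := by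
      simp only
      have e : (1 / 2 + ((r / 2 : ℝ) : ℂ) * Complex.I - 1 / 2) = ((r / 2 : ℝ) : ℂ) * Complex.I := by ring
      refine mul_ne_zero (mul_ne_zero ?_ ?_) (GsG_ne κ _)
      · rw [e]
        refine pow_ne_zero _ (mul_ne_zero ?_ Complex.I_ne_zero)
        exact_mod_cast (by positivity : (r / 2 : ℝ) ≠ 0)
      · refine hXr _ ?_
        rw [e, norm_mul, Complex.norm_I, mul_one, Complex.norm_real, Real.norm_eq_abs, abs_of_pos (by positivity)]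
        linarith
    obtain ⟨δ, hδ, h2⟩ := tlu_nozero h1 hcont.continuousAt hpt
    refine ⟨r / 2 - δ, r / 2 + δ, 0, by linarith, fun A => ?_⟩
    obtain ⟨a, h3, h4, h5⟩ := (h2.and ((eventually_ge_atTop A).and (eventually_gt_atTop 0))).exists
    refine ⟨a, h4, f a, hfG a h5, ?_⟩
    rw [Nat.cast_zero, nonpos_iff_eq_zero, Set.encard_eq_zero, Set.eq_empty_iff_forall_notMem]
    rintro t ⟨h6, h7, h8⟩
    refine h3 (1 / 2 + t * Complex.I) ?_ ?_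
    · have e : (1 / 2 + (t : ℂ) * Complex.I - (1 / 2 + ((r / 2 : ℝ) : ℂ) * Complex.I)) = ((t - r / 2 : ℝ) : ℂ) * Complex.I := by
        push_cast; ring
      rw [e, norm_mul, Complex.norm_I, mul_one, Complex.norm_real, Real.norm_eq_abs, abs_lt]
      constructor <;> linarith
    · rw [h8, zero_div]
  · rintro ⟨u, v, C, huv, h⟩
    by_contra hRH
    obtain ⟨A, hA⟩ := (tri_not hW hκ hn (Eventually.of_forall fun a => le_rfl) hRH).2 u v (C + 1) huv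
    obtain ⟨a, ha, f, hf, hle⟩ := h A
    have h1 := (hA a ha f hf).trans hle
    have h2 : C + 1 ≤ C := by exact_mod_cast h1
    omega

/-- the Riemann hypothesis in terms of the lowest eigenvalue -/
theorem tri_low {W : ℝ → (ℝ → ℂ) → ℝ} (hW : IsW W) {κ : ℝ} (hκ : 0 < κ) {n : ℝ → ℕ}
    (hn : Tendsto (fun a : ℝ => (n a : ℝ) / a ^ 2) atTop (𝓝 κ)) :
    RHG ↔ ∃ B : ℝ, ∀ A : ℝ, ∃ a, A ≤ a ∧ ∃ f, Gnd W a (n a) f ∧ -B * Y23.N2 f ≤ W a f := by
  constructor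
  · intro hRH
    refine ⟨0, fun A => ?_⟩
    obtain ⟨A', hA'⟩ := (tri_struct hW hκ hn hRH).2.1 0 (by positivity)
    have ha : 0 < max (max A A') 1 := lt_of_lt_of_le one_pos (le_max_right _ _)
    obtain ⟨f, hf⟩ := exists_gnd hW ha (n (max (max A A') 1))
    refine ⟨_, (le_max_left _ _).trans (le_max_left _ _), f, hf, ?_⟩
    rw [neg_zero, zero_mul]
    exact (hA' _ ((le_max_right _ _).trans (le_max_left _ _)) f hf).1.le
  · rintro ⟨B, h⟩
    by_contra hRH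
    obtain ⟨A, hA⟩ := (tri_not hW hκ hn (Eventually.of_forall fun a => le_rfl) hRH).1 B
    obtain ⟨a, ha, f, hf, hle⟩ := h A
    exact absurd (hA a ha f hf) (not_lt.2 hle)

end

end Pool.Agent.Q240.CG
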