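import Pool.Agent.Q240.CG.JB
import Pool.Agent.Y23.Z.Z5
import Pool.Agent.Q240.CD.AllZ

set_option autoImplicit false

/-! # Project CG: the zeta function -/

open Polynomial Filter Topology Finset MeasureTheory
open Pool.Agent.H24R2.JP (XX)

namespace Pool.Agent.Q240.CG

open Pool.Agent.Q240.CD

attribute [local instance] Y23.Z.ZL

lemma Zs_zeta (s : ℂ) : s ∈ (Y23.G.zd (L := Y23.Z.ZL)).Zs ↔ Y23.IsZ s := by
  rw [Y23.isZ_iff]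
  have h := Y23.Z.X_eq (s - 1 / 2)
  rw [add_sub_cancel] at h
  show Y23.Z.ZL.X s = 0 ↔ _
  rw [h, div_eq_zero_iff]
  constructor
  · rintro (h1 | h1)
    · exact h1
    · norm_num at h1
  · exact Or.inl

instance sd_zeta : SD (D := Y23.G.zd (L := Y23.Z.ZL)) := by
  refine sd_of ⟨1, one_ne_zero, fun s => ?_⟩
  show (1 - s) * ((1 - s) - 1) * completedRiemannZeta₀ (1 - s) + 1 = 1 * (s * (s - 1) * completedRiemannZeta₀ s + 1)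
  rw [completedRiemannZeta₀_one_sub]
  ring

lemma m0_zeta : m0 (D := Y23.G.zd (L := Y23.Z.ZL)) = 0 := by
  unfold m0
  rw [if_neg]
  rw [Zs_zeta]
  intro h
  exact a_noReal ⟨1 / 2, h⟩ (by simp)

lemma par_zeta : par (D := Y23.G.zd (L := Y23.Z.ZL)) = 0 := by
  unfold par
  rw [if_pos m0_zeta]

lemma RH_zeta (h : ∀ ρ : Y23.Zt, (ρ : ℂ).re = 1 / 2) : ∀ ρ : Y23.G.Zt (D := Y23.G.zd (L := Y23.Z.ZL)), (ρ : ℂ).re = 1 / 2 :=
  fun ρ => h ⟨ρ, (Zs_zeta ρ).1 ρ.2⟩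

lemma Gd_zeta {a : ℝ} (ha : 0 < a) {n : ℕ} {f : ℝ → ℂ} (hf : Gd a n f) : GdG (D := Y23.G.zd (L := Y23.Z.ZL)) a n f := by
  refine ⟨hf.1, fun h hh => ?_⟩
  rw [Y23.Z.QQ_eq ha hf.1.hd, Y23.Z.QQ_eq ha hh.hd]
  exact hf.2 h hh

lemma evs_zeta {a : ℝ} (ha : 0 < a) (n k : ℕ) :
    CE.evs (Y23.G.QQ (D := Y23.G.zd (L := Y23.Z.ZL))) Y23.N2 (Tg a n) k = CE.evs Y23.QQ Y23.N2 (Tg a n) k := by
  unfold CE.evs
  ext x
  constructor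
  · rintro ⟨V, h1, h2, h3⟩
    refine ⟨V, h1, h2, fun f hf => ?_⟩
    rw [← Y23.Z.QQ_eq ha (Tg_Hn ha (h1 f hf)).hd]
    exact h3 f hf
  · rintro ⟨V, h1, h2, h3⟩
    refine ⟨V, h1, h2, fun f hf => ?_⟩
    rw [Y23.Z.QQ_eq ha (Tg_Hn ha (h1 f hf)).hd]
    exact h3 f hf

/-- the ground states of zeta under the Riemann hypothesis -/
theorem zetaA (J : JB) (hRH : ∀ ρ : Y23.Zt, (ρ : ℂ).re = 1 / 2) {κ : ℝ} (hκ : 0 < κ) {n : ℝ → ℕ}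
    (hn : Tendsto (fun a : ℝ => (n a : ℝ) / a ^ 2) atTop (𝓝 κ)) :
    (∀ c : ℝ, c < 4 * κ → ∀ᶠ a in atTop, ∀ f : ℝ → ℂ, Gd a (n a) f → Y23.N2 f ≠ 0 →
      0 < Y23.QQ f ∧ Y23.QQ f ≤ Real.exp (-(c * a ^ 2 * Real.log a)) * Y23.N2 f) ∧
    (∀ (ρ : Y23.Zt) (c : ℝ), c < 2 * κ → ∀ᶠ a in atTop, ∀ f : ℝ → ℂ, Gd a (n a) f → Y23.N2 f ≠ 0 →
      ∃ t : ℝ, Y23.TT f (Complex.I * t) = 0 ∧ |t - (ρ : ℂ).im| ≤ Real.exp (-(c * a ^ 2 * Real.log a))) ∧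
    (∀ K : ℝ, ∀ᶠ a in atTop, ∀ f : ℝ → ℂ, Gd a (n a) f → Y23.N2 f ≠ 0 →
      ∀ x ∈ CE.evs Y23.QQ Y23.N2 (Tg a (n a)) 2, K * Y23.QQ f ≤ x * Y23.N2 f) := by
  obtain ⟨γ, hE, hG⟩ := J.gsa (D := Y23.G.zd (L := Y23.Z.ZL)) (RH_zeta hRH)
  have hA := hG n κ hκ hn
  refine ⟨fun c hc => ?_, fun ρ c hc => ?_, fun K => ?_⟩
  · filter_upwards [hA.ev c hc, eventually_gt_atTop 0] with a h1 ha f hf hN
    rw [← Y23.Z.QQ_eq ha hf.1.hd]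
    exact h1 f (Gd_zeta ha hf) hN
  · have h1 := (hE.zer (-Complex.I * ((ρ : ℂ) - 1 / 2))).1 (by
      rw [I_back, Zs_zeta]
      have e : (1 / 2 + ((ρ : ℂ) - 1 / 2) : ℂ) = ρ := by ring
      rw [e]
      exact ρ.2)
    have him : ∀ x : ℝ, -Complex.I * ((ρ : ℂ) - 1 / 2) = (x : ℂ) → (ρ : ℂ).im = x := by
      intro x hx
      have h2 := congrArg Complex.re hx
      simp at h2
      exact h2
    rcases h1 with ⟨-, h1⟩ | ⟨j, h1 | h1⟩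
    · rw [Zs_zeta] at h1
      exact absurd (by simp) (a_noReal ⟨1 / 2, h1⟩)
    · rw [him _ h1]
      filter_upwards [hA.zer j c hc, eventually_gt_atTop 0] with a h2 ha f hf hN
      exact h2 f (Gd_zeta ha hf) hN
    · rw [him (-γ j) (by rw [h1]; push_cast; rfl)]
      filter_upwards [hA.zer j c hc, hA.gr, eventually_gt_atTop 0] with a h2 h3 ha f hf hN
      obtain ⟨t, ht, ht2⟩ := h2 f (Gd_zeta ha hf) hN
      obtain ⟨-, h4, -⟩ := h3 f (Gd_zeta ha hf) hN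
      refine ⟨-t, ?_, ?_⟩
      · push_cast
        rw [mul_neg, h4, ht, mul_zero]
      · have e : -t - -γ j = -(t - γ j) := by ring
        rw [e, abs_neg]
        exact ht2
  · filter_upwards [hA.gap K, eventually_gt_atTop 0] with a h1 ha f hf hN x hx
    rw [← Y23.Z.QQ_eq ha hf.1.hd]
    refine h1 f (Gd_zeta ha hf) hN x ?_
    rw [evs_zeta ha]
    exact hx

/-- the exponents of the zeros of zeta -/
noncomputable def betaZ (k : ℕ) : ℝ := sInf {x : ℝ | 1 / 2 ≤ x ∧ {s : ℂ | Y23.IsZ s ∧ x < s.re}.encard < k}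

lemma beta_zeta (k : ℕ) : CE.beta (D := Y23.G.zd (L := Y23.Z.ZL)) k = betaZ k := by
  unfold CE.beta betaZ
  simp only [Zs_zeta]

/-- the growth of the eigenvalues, unconditionally -/
theorem zetaB (J : JB) (m : ℝ → ℕ) (hm : Tendsto (fun a : ℝ => (m a : ℝ) / a) atTop atTop)
    (hm2 : ∀ ε : ℝ, 0 < ε → ∀ᶠ a : ℝ in atTop, Real.log (m a) ≤ Real.exp (ε * a)) {k : ℕ} (hk : 1 ≤ k) :
    Tendsto (fun a : ℝ => Real.log (max 1 (-sInf (CE.evs Y23.QQ Y23.N2 (Tg a (m a)) k))) / a) atTop (𝓝 (2 * betaZ k - 1)) := by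
  rw [← beta_zeta]
  refine CE.rate (D := Y23.G.zd (L := Y23.Z.ZL)) J.test J.upq m hm hm2 hk _ ?_
  filter_upwards [eventually_gt_atTop 0] with a ha
  rw [evs_zeta ha]

theorem zetaN (J : JB) (m : ℝ → ℕ) (hm : Tendsto (fun a : ℝ => (m a : ℝ) / a) atTop atTop) {k : ℕ} (hk : 1 ≤ k) :
    ((k : ℕ∞) ≤ {s : ℂ | Y23.IsZ s ∧ 1 / 2 < s.re}.encard → ∀ᶠ a : ℝ in atTop, sInf (CE.evs Y23.QQ Y23.N2 (Tg a (m a)) k) < 0) ∧
    ({s : ℂ | Y23.IsZ s ∧ 1 / 2 < s.re}.encard < k → ∀ᶠ a : ℝ in atTop, 0 ≤ sInf (CE.evs Y23.QQ Y23.N2 (Tg a (m a)) k)) := by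
  have h := CE.negative (D := Y23.G.zd (L := Y23.Z.ZL)) J.test J.upq m hm hk
    (fun a => sInf (CE.evs Y23.QQ Y23.N2 (Tg a (m a)) k)) (by
      filter_upwards [eventually_gt_atTop 0] with a ha
      rw [evs_zeta ha])
  simp only [Zs_zeta] at h
  exact h

end Pool.Agent.Q240.CG
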